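import Mathlib

/-!
# Galois cohomology of elliptic curves, places of a function field, the Tate-Shafarevich group
-/

open WeierstrassCurve WeierstrassCurve.Affine

noncomputable section

namespace Pool.Agent.MP1bdb59

universe u v

section Closure

variable (F : Type u) [Field F]

/-- A separable closure `F^s` of the field `F`. -/
def Sep : Type u := SeparableClosure F

instance instFieldSep : Field (Sep F) := (inferInstance : Field (SeparableClosure F))

instance instAlgebraSep (K : Type v) [Field K] [Algebra K F] : Algebra K (Sep F) :=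
  (inferInstance : Algebra K (SeparableClosure F))

instance instDecSep : DecidableEq (Sep F) := Classical.decEq _

theorem isScalarTower_sep (K : Type v) [Field K] [Algebra K F] : IsScalarTower K F (Sep F) :=
  (inferInstance : IsScalarTower K F (SeparableClosure F))

instance (K : Type v) [Field K] [Algebra K F] : IsScalarTower K F (Sep F) := isScalarTower_sep F K

/-- The absolute Galois group `Gal(F^s/F)`. -/
abbrev AbsGal : Type u := Sep F ≃ₐ[F] Sep F

end Closure

section Cohomology

variable {K : Type u} [Field K] (W : WeierstrassCurve K) (F : Type v) [Field F] [Algebra K F]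

/-- The set `E(F^s)` of points of the Weierstrass curve `W` (given over `K`) over the separable
closure of the extension field `F` of `K`. -/
abbrev Pts : Type v := (W⁄(Sep F)).Point

/-- The action of `Gal(F^s/F)` on `E(F^s)`. -/
def act (σ : AbsGal F) : Pts W F →+ Pts W F := Point.map (W' := W) (σ : Sep F →ₐ[F] Sep F)

/-- A function `c : Gal(F^s/F) → E(F^s)` is a continuous (i.e. locally constant) 1-cocycle. -/
def IsCocycle (c : AbsGal F → Pts W F) : Prop :=
  IsLocallyConstant c ∧ ∀ σ τ : AbsGal F, c (σ * τ) = c σ + act W F σ (c τ)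

/-- The group of 1-coboundaries `σ ↦ σ P - P`, `P` in `E(F^s)`. -/
def Coboundaries : AddSubgroup (AbsGal F → Pts W F) where
  carrier := {c | ∃ P : Pts W F, ∀ σ : AbsGal F, c σ = act W F σ P - P}
  zero_mem' := ⟨0, fun g => by simp⟩
  add_mem' := by
    rintro x y ⟨P, hP⟩ ⟨Q, hQ⟩
    refine ⟨P + Q, fun g => ?_⟩
    simp only [Pi.add_apply, hP, hQ, map_add]
    abel
  neg_mem' := by
    rintro x ⟨P, hP⟩
    refine ⟨-P, fun g => ?_⟩
    simp only [Pi.neg_apply, hP, map_neg]
    abel

/-- The group of all functions `Gal(F^s/F) → E(F^s)` modulo the coboundaries. It contains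
`H^1(F, E)`. -/
def FunMod : Type v := (AbsGal F → Pts W F) ⧸ Coboundaries W F

instance instGroupFunMod : AddCommGroup (FunMod W F) :=
  (inferInstance : AddCommGroup ((AbsGal F → Pts W F) ⧸ Coboundaries W F))

/-- The class of a function. -/
def cls (c : AbsGal F → Pts W F) : FunMod W F := QuotientAddGroup.mk c

lemma cls_add (c c' : AbsGal F → Pts W F) : cls W F (c + c') = cls W F c + cls W F c' := rfl

/-- The Galois cohomology group `H^1(F, E)`: the classes of cocycles modulo the coboundaries. -/
def H1 : AddSubgroup (FunMod W F) where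
  carrier := {ξ | ∃ c : AbsGal F → Pts W F, IsCocycle W F c ∧ cls W F c = ξ}
  zero_mem' := ⟨0, ⟨IsLocallyConstant.const 0, fun g h => by simp⟩, rfl⟩
  add_mem' := by
    rintro _ _ ⟨x, ⟨hx, hx'⟩, rfl⟩ ⟨y, ⟨hy, hy'⟩, rfl⟩
    refine ⟨x + y, ⟨hx.add hy, fun g h => ?_⟩, rfl⟩
    simp only [Pi.add_apply, hx', hy', map_add]
    abel
  neg_mem' := by
    rintro _ ⟨x, ⟨hx, hx'⟩, rfl⟩
    refine ⟨-x, ⟨hx.neg, fun g h => ?_⟩, rfl⟩
    simp only [Pi.neg_apply, hx', map_neg]
    abel

end Cohomology

section Restriction

variable (K : Type u) [Field K] (F : Type v) [Field F] [Algebra K F]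

/-- A fixed `K`-embedding `K^s → F^s` of separable closures. -/
def emb : Sep K →ₐ[K] Sep F :=
  (IsSepClosed.lift : SeparableClosure K →ₐ[K] SeparableClosure F)

instance : IsGalois F (Sep F) := (inferInstance : IsGalois F (SeparableClosure F))

theorem exists_resGal : ∃ r : AbsGal F →* AbsGal K, Continuous r ∧
    ∀ (σ : AbsGal F) (x : Sep K), emb K F (r σ x) = σ (emb K F x) := by
  let i1 : Algebra (Sep K) (Sep F) := (emb K F).toRingHom.toAlgebra
  have i2 : IsScalarTower K (Sep K) (Sep F) :=
    IsScalarTower.of_algebraMap_eq' (emb K F).comp_algebraMap.symm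
  let r : AbsGal F →* AbsGal K := (AlgEquiv.restrictNormalHom (F := K) (K₁ := Sep F) (Sep K)).comp
    (MonoidHom.mk' (fun σ : AbsGal F => (σ.restrictScalars K : Sep F ≃ₐ[K] Sep F))
      (fun _ _ => rfl))
  have hr : ∀ (σ : AbsGal F) (x : Sep K), emb K F (r σ x) = σ (emb K F x) := fun σ x =>
    AlgEquiv.restrictNormal_commutes (σ.restrictScalars K : Sep F ≃ₐ[K] Sep F) (Sep K) x
  refine ⟨r, ?_, hr⟩
  apply continuous_of_continuousAt_one
  rw [ContinuousAt, map_one]
  intro U hU
  rw [krullTopology_mem_nhds_one_iff] at hU
  obtain ⟨E, hE, hEU⟩ := hU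
  rw [Filter.mem_map, krullTopology_mem_nhds_one_iff]
  obtain ⟨S, hS⟩ := (IntermediateField.essFiniteType_iff (K := E)).mp inferInstance
  refine ⟨IntermediateField.adjoin F (emb K F '' (S : Set (Sep K))), ?_, ?_⟩
  · have : Finite (emb K F '' (S : Set (Sep K))) := Set.Finite.image _ S.finite_toSet
    exact IntermediateField.finiteDimensional_adjoin
      (fun x _ => Algebra.IsIntegral.isIntegral x)
  · intro σ hσ
    apply hEU
    rw [SetLike.mem_coe, IntermediateField.mem_fixingSubgroup_iff] at hσ ⊢
    have key : ∀ x ∈ (S : Set (Sep K)), r σ x = x := by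
      intro x hx
      apply (emb K F).injective
      change emb K F _ = emb K F _
      rw [hr]
      exact hσ _ (IntermediateField.subset_adjoin F _ ⟨x, hx, rfl⟩)
    intro x hx
    rw [← hS] at hx
    induction hx using IntermediateField.adjoin_induction with
    | mem x hx => exact key x hx
    | algebraMap x => exact (r σ).commutes x
    | add x y _ _ hx hy => rw [map_add, hx, hy]
    | inv x _ hx => rw [map_inv₀, hx]
    | mul x y _ _ hx hy => rw [map_mul, hx, hy]

/-- The restriction homomorphism `Gal(F^s/F) → Gal(K^s/K)` along `emb`. -/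
def resGal : AbsGal F →* AbsGal K := (exists_resGal K F).choose

theorem continuous_resGal : Continuous (resGal K F) := (exists_resGal K F).choose_spec.1

theorem emb_resGal (σ : AbsGal F) (x : Sep K) : emb K F (resGal K F σ x) = σ (emb K F x) :=
  (exists_resGal K F).choose_spec.2 σ x

variable {K}
variable (W : WeierstrassCurve K)

/-- The map `E(K^s) → E(F^s)` induced by `emb`. -/
def embPts : Pts W K →+ Pts W F := Point.map (W' := W) (emb K F)

theorem act_embPts (σ : AbsGal F) (P : Pts W K) :
    act W F σ (embPts F W P) = embPts F W (act W K (resGal K F σ) P) := by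
  rcases P with _ | ⟨x, y, h⟩
  · rfl
  · simp only [act, embPts, Point.map_some, Point.some.injEq]
    constructor
    · exact (emb_resGal K F σ x).symm
    · exact (emb_resGal K F σ y).symm

theorem exists_res : ∃ r : FunMod W K →+ FunMod W F, ∀ c : AbsGal K → Pts W K,
    r (cls W K c) = cls W F (fun σ => embPts F W (c (resGal K F σ))) := by
  let j : (AbsGal K → Pts W K) →+ (AbsGal F → Pts W F) :=
    { toFun := fun c σ => embPts F W (c (resGal K F σ))
      map_zero' := by funext σ; simp
      map_add' := fun a b => by funext σ; simp }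
  refine ⟨QuotientAddGroup.map (Coboundaries W K) (Coboundaries W F) j ?_, fun c => rfl⟩
  rintro c ⟨P, hP⟩
  refine ⟨embPts F W P, fun σ => ?_⟩
  change embPts F W (c (resGal K F σ)) = _
  rw [hP, map_sub, act_embPts]

/-- The restriction (localisation) map `H^1(K, E) → H^1(F, E)`. -/
def res : FunMod W K →+ FunMod W F := (exists_res F W).choose

theorem res_cls (c : AbsGal K → Pts W K) :
    res F W (cls W K c) = cls W F (fun σ => embPts F W (c (resGal K F σ))) :=
  (exists_res F W).choose_spec c

end Restriction

section Sha

/-- The places of `K` trivial on the subfield `k`: the valuation rings of `K`, different from `K`,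
that contain `k`. When `K` is the function field of a smooth projective geometrically irreducible
curve `C` over `k`, these are exactly the local rings of the closed points of `C`. -/
structure Place (k : Type u) (K : Type v) [Field k] [Field K] [Algebra k K] where
  /-- the valuation ring of the place -/
  ring : ValuationSubring K
  algebraMap_mem : ∀ c : k, algebraMap k K c ∈ ring
  ne_top : ring ≠ ⊤

variable {k : Type u} {K : Type v} [Field k] [Field K] [Algebra k K]

/-- The completion `K_v` of `K` at the place `v`. -/
def Completion (v : Place k K) : Type v := v.ring.valuation.Completion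

instance instFieldCompletion (v : Place k K) : Field (Completion v) :=
  (inferInstance : Field v.ring.valuation.Completion)

/-- The embedding `K → K_v`. -/
def toCompletion (v : Place k K) : K →+* Completion v :=
  (UniformSpace.Completion.coeRingHom (α := WithVal v.ring.valuation)).comp
    (WithVal.equiv v.ring.valuation).symm.toRingHom

instance instAlgebraCompletion (v : Place k K) : Algebra K (Completion v) :=
  (toCompletion v).toAlgebra

variable (k) in
/-- The Tate-Shafarevich group: the classes in `H^1(K, E)` that become trivial in `H^1(K_v, E)`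
for every place `v` of `K` trivial on `k`. -/
def Sha (W : WeierstrassCurve K) : AddSubgroup (FunMod W K) :=
  H1 W K ⊓ ⨅ v : Place k K, (res (Completion v) W).ker

/-- The `ℓ`-adic Tate module `T_ℓ M = lim M[ℓ^n]` of an abelian group `M`: the sequences
`(s_n)` with `s_0 = 0` and `ℓ s_{n+1} = s_n` (so that `ℓ^n s_n = 0`). -/
def TateModule (ℓ : ℕ) (M : Type*) [AddCommGroup M] : AddSubgroup (ℕ → M) where
  carrier := {s | s 0 = 0 ∧ ∀ n, ℓ • s (n + 1) = s n}
  zero_mem' := ⟨rfl, fun n => by simp⟩
  add_mem' := by
    rintro a b ⟨ha, ha'⟩ ⟨hb, hb'⟩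
    refine ⟨by simp [ha, hb], fun n => ?_⟩
    simp only [Pi.add_apply, smul_add, ha', hb']
  neg_mem' := by
    rintro a ⟨ha, ha'⟩
    refine ⟨by simp [ha], fun n => ?_⟩
    simp only [Pi.neg_apply, smul_neg, ha']

end Sha

end Pool.Agent.MP1bdb59
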