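import Mathlib
import Pool.Agent.MP1bdb59.Stmt

/-!
# First properties of the objects of `Stmt.lean`
-/

open WeierstrassCurve WeierstrassCurve.Affine

noncomputable section

namespace Pool.Agent.MP1bdb59

universe u v

section

variable (F : Type u) [Field F]

instance : IsSepClosed (Sep F) := (inferInstance : IsSepClosed (SeparableClosure F))

end

section

variable {K : Type u} [Field K] (W : WeierstrassCurve K) (F : Type v) [Field F] [Algebra K F]

lemma act_one (P : Pts W F) : act W F 1 P = P := by
  cases P <;> rfl

lemma act_mul (σ τ : AbsGal F) (P : Pts W F) : act W F (σ * τ) P = act W F σ (act W F τ P) := by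
  cases P <;> rfl

lemma cls_eq_zero_iff (c : AbsGal F → Pts W F) :
    cls W F c = 0 ↔ ∃ P : Pts W F, ∀ σ : AbsGal F, c σ = act W F σ P - P :=
  QuotientAddGroup.eq_zero_iff (N := Coboundaries W F) c

end

end Pool.Agent.MP1bdb59
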