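import Mathlib
import Pool.Agent.MP1bdb59.Defs

/-!
# Completions: the map `K_v → L_w` and approximation
-/

open Topology

noncomputable section

open scoped Classical WithZero

namespace Pool.Agent.MP1bdb59

universe w

section Balls

variable {R : Type*} [Field R] {Γ₀ : Type*} [LinearOrderedCommGroupWithZero Γ₀] [Valued R Γ₀]

lemma ball_mem_nhds (x d : R) (hd : d ≠ 0) :
    {y : R | Valued.v (y - x) < (Valued.v d : Γ₀)} ∈ 𝓝 x := by
  rw [Valued.mem_nhds]
  have hd' : Valued.v.restrict d ≠ 0 := by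
    rw [Ne, Valuation.restrict_eq_zero_iff, map_eq_zero]; exact hd
  refine ⟨Units.mk0 _ hd', fun y hy => ?_⟩
  exact (Valuation.restrict_lt_iff _).mp hy

lemma exists_ball {s : Set R} (hs : s ∈ 𝓝 (0 : R)) :
    ∃ d : R, d ≠ 0 ∧ {y : R | Valued.v y < (Valued.v d : Γ₀)} ⊆ s := by
  rw [Valued.mem_nhds_zero] at hs
  obtain ⟨γ, hγ⟩ := hs
  obtain ⟨d, hd⟩ := MonoidWithZeroHom.ValueGroup₀.restrict₀_surjective
    (.ofClass (Valued.v : Valuation R Γ₀)) γ.1
  have hd' : Valued.v.restrict d = γ.1 := hd
  refine ⟨d, ?_, fun y hy => hγ ?_⟩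
  · rintro rfl
    rw [map_zero] at hd'
    exact γ.ne_zero hd'.symm
  · change Valued.v.restrict y < γ.1
    rw [← hd']
    exact (Valuation.restrict_lt_iff _).mpr hy

end Balls

section Extension

variable {K L : Type*} [Field K] [Field L] [Algebra K L] {Γ₁ Γ₂ : Type*}
  [LinearOrderedCommGroupWithZero Γ₁] [LinearOrderedCommGroupWithZero Γ₂]
  (v₁ : Valuation K Γ₁) (v₂ : Valuation L Γ₂)

lemma continuous_map (h : v₁.IsEquiv (v₂.comap (algebraMap K L)))
    (hc : ∀ d : L, d ≠ 0 → ∃ e : K, e ≠ 0 ∧ v₂ (algebraMap K L e) ≤ v₂ d) :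
    Continuous (WithVal.map v₁ v₂ (algebraMap K L)) := by
  apply continuous_of_continuousAt_zero
  rw [ContinuousAt, map_zero]
  intro s hs
  obtain ⟨d, hd, hds⟩ := exists_ball hs
  obtain ⟨e, he, hed⟩ := hc d.ofVal (fun h0 => hd ((WithVal.ofVal_eq_zero _ _).mp h0))
  have h1 := ball_mem_nhds (0 : WithVal v₁) (WithVal.toVal v₁ e) (fun h0 => he (by
    have := congrArg WithVal.ofVal h0
    simpa using this))
  rw [Filter.mem_map]
  filter_upwards [h1] with y hy
  apply hds
  have hy' : v₁ y.ofVal < v₁ e := by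
    have : v₁ (y - 0).ofVal < v₁ e := hy
    rwa [sub_zero] at this
  have hy2 : v₂ (algebraMap K L y.ofVal) < v₂ (algebraMap K L e) := by
    have := h.lt_iff_lt.mp hy'
    exact this
  exact lt_of_lt_of_le hy2 hed

/-- The map of completions. -/
def compMap (h : v₁.IsEquiv (v₂.comap (algebraMap K L)))
    (hc : ∀ d : L, d ≠ 0 → ∃ e : K, e ≠ 0 ∧ v₂ (algebraMap K L e) ≤ v₂ d) :
    v₁.Completion →+* v₂.Completion :=
  UniformSpace.Completion.mapRingHom _ (continuous_map v₁ v₂ h hc)

lemma compMap_coe (h : v₁.IsEquiv (v₂.comap (algebraMap K L)))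
    (hc : ∀ d : L, d ≠ 0 → ∃ e : K, e ≠ 0 ∧ v₂ (algebraMap K L e) ≤ v₂ d) (x : WithVal v₁) :
    compMap v₁ v₂ h hc (x : v₁.Completion) =
      ((WithVal.map v₁ v₂ (algebraMap K L) x : WithVal v₂) : v₂.Completion) :=
  UniformSpace.Completion.mapRingHom_coe (continuous_map v₁ v₂ h hc) x

lemma compMap_approx (h : v₁.IsEquiv (v₂.comap (algebraMap K L)))
    (hc : ∀ d : L, d ≠ 0 → ∃ e : K, e ≠ 0 ∧ v₂ (algebraMap K L e) ≤ v₂ d)
    (z : v₁.Completion) (d : v₂.Completion) (hd : d ≠ 0) :
    ∃ x : K, Valued.v (((WithVal.toVal v₂ (algebraMap K L x) : WithVal v₂) : v₂.Completion) -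
      compMap v₁ v₂ h hc z) < Valued.v d := by
  have h1 := ball_mem_nhds (compMap v₁ v₂ h hc z) d hd
  have hcont : Continuous (compMap v₁ v₂ h hc) := by
    change Continuous (UniformSpace.Completion.map _)
    exact UniformSpace.Completion.continuous_map
  have h2 := hcont.continuousAt.preimage_mem_nhds h1
  obtain ⟨y, hy⟩ := (UniformSpace.Completion.denseRange_coe (α := WithVal v₁)).exists_mem_open
    isOpen_interior ⟨z, mem_interior_iff_mem_nhds.mpr h2⟩
  have hy' := interior_subset hy
  refine ⟨y.ofVal, ?_⟩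
  have hy2 : Valued.v (compMap v₁ v₂ h hc (y : v₁.Completion) - compMap v₁ v₂ h hc z) <
    Valued.v d := hy'
  rw [compMap_coe] at hy2
  exact hy2

end Extension

section Places

open IsDedekindDomain

variable (k : Type*) {A K : Type*} [Field k] [CommRing A] [IsDedekindDomain A] [Algebra k A]
  [Field K] [Algebra A K] [IsFractionRing A K] [Algebra k K] [IsScalarTower k A K]

variable (K) in
/-- The place of `K` attached to a height one prime of `A`. -/
def placeOf (p : HeightOneSpectrum A) : Place k K where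
  ring := (p.valuation K).valuationSubring
  algebraMap_mem c := by
    rw [Valuation.mem_valuationSubring_iff, IsScalarTower.algebraMap_apply k A K]
    exact p.valuation_le_one _
  ne_top := by
    intro h
    obtain ⟨π, hπ⟩ := p.valuation_exists_uniformizer K
    have hπ0 : π ≠ 0 := by
      rintro rfl
      rw [map_zero] at hπ
      exact (WithZero.exp_ne_zero) hπ.symm
    have h1 : π⁻¹ ∈ (p.valuation K).valuationSubring := by rw [h]; trivial
    rw [Valuation.mem_valuationSubring_iff, map_inv₀, hπ, ← WithZero.exp_neg, neg_neg] at h1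
    have h2 : WithZero.exp (1 : ℤ) ≤ WithZero.exp (0 : ℤ) := h1
    rw [WithZero.exp_le_exp] at h2
    exact absurd h2 (by norm_num)

variable {O : Type*} {L : Type w} [CommRing O] [IsDedekindDomain O] [Algebra A O]
  [Module.IsTorsionFree A O] [Field L] [Algebra K L] [Algebra A L] [IsScalarTower A K L]
  [Algebra O L] [IsFractionRing O L] [IsScalarTower A O L]

omit [Algebra k A] [Algebra k K] [IsScalarTower k A K] in
lemma isEquiv_of_liesOver (p : HeightOneSpectrum A) (P : HeightOneSpectrum O)
    [P.asIdeal.LiesOver p.asIdeal] :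
    ((p.valuation K).valuationSubring).valuation.IsEquiv
      ((P.valuation L).comap (algebraMap K L)) := by
  refine (Valuation.isEquiv_valuation_valuationSubring (p.valuation K)).symm.trans ?_
  intro x y
  rw [Valuation.comap_apply, Valuation.comap_apply, ← HeightOneSpectrum.valuation_liesOver L p P,
    ← HeightOneSpectrum.valuation_liesOver L p P]
  have h0 : p.asIdeal.ramificationIdx' P.asIdeal ≠ 0 :=
    Ideal.IsDedekindDomain.ramificationIdx'_ne_zero_of_liesOver P.asIdeal p.ne_bot
  exact (pow_le_pow_iff_left₀ (zero_le) (zero_le) h0).symm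

omit [Algebra k A] [Algebra k K] [IsScalarTower k A K] in
variable (K) in
lemma coinitial_of_liesOver (p : HeightOneSpectrum A) (P : HeightOneSpectrum O)
    [P.asIdeal.LiesOver p.asIdeal] (d : L) (hd : d ≠ 0) :
    ∃ e : K, e ≠ 0 ∧ P.valuation L (algebraMap K L e) ≤ P.valuation L d := by
  obtain ⟨π, hπ⟩ := p.valuation_exists_uniformizer K
  have hπ0 : π ≠ 0 := by
    rintro rfl
    rw [map_zero] at hπ
    exact (WithZero.exp_ne_zero) hπ.symm
  have h0 : p.asIdeal.ramificationIdx' P.asIdeal ≠ 0 :=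
    Ideal.IsDedekindDomain.ramificationIdx'_ne_zero_of_liesOver P.asIdeal p.ne_bot
  set r := p.asIdeal.ramificationIdx' P.asIdeal with hr
  have hd0 : P.valuation L d ≠ 0 := by rwa [Ne, map_eq_zero]
  set n : ℤ := WithZero.log (P.valuation L d) with hn
  have hdn : P.valuation L d = WithZero.exp n := (WithZero.exp_log hd0).symm
  refine ⟨π ^ n.natAbs, pow_ne_zero _ hπ0, ?_⟩
  rw [← HeightOneSpectrum.valuation_liesOver L p P, map_pow, hπ, hdn, ← pow_mul,
    ← WithZero.exp_nsmul, WithZero.exp_le_exp]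
  have h1 : (1 : ℤ) ≤ r := by
    have : 0 < r := Nat.pos_of_ne_zero h0
    exact_mod_cast this
  have h2 : (0 : ℤ) ≤ n.natAbs := by positivity
  have h3 : -(n.natAbs : ℤ) ≤ n := by omega
  rw [nsmul_eq_mul, Nat.cast_mul]
  nlinarith

/-- Everything needed about the completion of `L` at a prime `P` of `O` above `p`. -/
theorem exists_completion (p : HeightOneSpectrum A) (P : HeightOneSpectrum O)
    [P.asIdeal.LiesOver p.asIdeal] :
    ∃ (M : Type w) (_ : Field M) (_ : Algebra K M) (_ : Algebra (Completion (placeOf k K p)) M)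
      (l : L →ₐ[K] M) (w : Valuation M ℤᵐ⁰),
      (∀ x : K, algebraMap K M x = algebraMap (Completion (placeOf k K p)) M (algebraMap K _ x)) ∧
      (∀ x : L, w (l x) = P.valuation L x) ∧
      (∀ (z : (Completion (placeOf k K p))) (d : M), d ≠ 0 →
        ∃ x : K, w (algebraMap K M x - algebraMap (Completion (placeOf k K p)) M z) < w d) := by
  have h := isEquiv_of_liesOver (K := K) (L := L) p P
  have hc := coinitial_of_liesOver (K := K) (L := L) p P
  let φ := compMap ((p.valuation K).valuationSubring).valuation (P.valuation L) h hc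
  let l₀ : L →+* (P.valuation L).Completion :=
    (UniformSpace.Completion.coeRingHom (α := WithVal (P.valuation L))).comp
      (WithVal.equiv (P.valuation L)).symm.toRingHom
  let i1 : Algebra K (P.valuation L).Completion := (l₀.comp (algebraMap K L)).toAlgebra
  let i2 : Algebra (Completion (placeOf k K p)) (P.valuation L).Completion := φ.toAlgebra
  refine ⟨(P.valuation L).Completion, inferInstance, i1, i2, ⟨l₀, fun _ => rfl⟩, Valued.v,
    ?_, ?_, ?_⟩
  · intro x
    exact (compMap_coe _ _ h hc (WithVal.toVal _ x)).symm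
  · intro x
    exact Valued.valuedCompletion_apply _
  · intro z d hd
    exact compMap_approx _ _ h hc z d hd

end Places

end Pool.Agent.MP1bdb59
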