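import Mathlib

/-!
# Valuations of `a - θ` in the ring `A[θ]`
-/

open Polynomial IsDedekindDomain

noncomputable section

open scoped Classical WithZero

namespace Pool.Agent.MP1bdb59

section General

variable {R : Type*} [CommRing R] [IsDedekindDomain R]

lemma pow_le_sup_iff (P : HeightOneSpectrum R) (x : R) (m : ℕ) :
    P.asIdeal ^ m ≤ P.asIdeal ^ (m + 1) ⊔ Ideal.span {x} ↔ x ∉ P.asIdeal ^ (m + 1) := by
  constructor
  · intro h hx
    have h1 : P.asIdeal ^ (m + 1) ⊔ Ideal.span {x} = P.asIdeal ^ (m + 1) :=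
      sup_eq_left.mpr ((Ideal.span_singleton_le_iff_mem _).mpr hx)
    rw [h1] at h
    exact absurd h (not_le_of_gt (Ideal.pow_succ_lt_pow P.ne_bot m))
  · intro hx
    have h1 : P.asIdeal ^ (m + 1) ⊔ Ideal.span {x} ∣ P.asIdeal ^ (m + 1) :=
      Ideal.dvd_iff_le.mpr le_sup_left
    obtain ⟨i, hi, hi'⟩ := (dvd_prime_pow P.prime (m + 1)).mp h1
    rw [associated_iff_eq] at hi'
    rw [hi']
    apply Ideal.pow_le_pow_right
    by_contra hcon
    have h2 : i = m + 1 := by omega
    apply hx
    rw [← h2, ← hi']
    exact Ideal.mem_sup_right (Ideal.mem_span_singleton_self x)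

variable {S : Type*} [CommRing S] [IsDedekindDomain S] [Algebra R S]

/-- If `S/(x) = R/(y)` and `x ∈ P`, then the valuations of `x` at `P` and of `y` at `p = P ∩ R`
are equal. -/
lemma valuation_eq_of_quot (p : HeightOneSpectrum R) (P : HeightOneSpectrum S)
    [P.asIdeal.LiesOver p.asIdeal] {x : S} {y : R} (φ : S →+* R ⧸ Ideal.span {y})
    (hφ : ∀ r : R, φ (algebraMap R S r) = Ideal.Quotient.mk _ r)
    (hker : RingHom.ker φ = Ideal.span {x}) (hx : x ∈ P.asIdeal) :
    P.intValuation x = p.intValuation y := by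
  have hover : ∀ r : R, r ∈ p.asIdeal ↔ algebraMap R S r ∈ P.asIdeal := by
    intro r
    rw [Ideal.LiesOver.over (P := P.asIdeal) (p := p.asIdeal)]
    rfl
  have hsurj : Function.Surjective φ := by
    intro z
    obtain ⟨r, rfl⟩ := Ideal.Quotient.mk_surjective z
    exact ⟨_, hφ r⟩
  set q : R →+* R ⧸ Ideal.span {y} := Ideal.Quotient.mk _ with hq
  have hqsurj : Function.Surjective q := Ideal.Quotient.mk_surjective
  have hkerq : RingHom.ker q = Ideal.span {y} := Ideal.mk_ker
  -- the images of `P` and `p` agree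
  have himg : Ideal.map φ P.asIdeal = Ideal.map q p.asIdeal := by
    apply le_antisymm
    · rw [Ideal.map_le_iff_le_comap]
      intro z hz
      rw [Ideal.mem_comap]
      obtain ⟨r, hr⟩ := hqsurj (φ z)
      have h1 : z - algebraMap R S r ∈ Ideal.span {x} := by
        rw [← hker, RingHom.mem_ker, map_sub, hφ, ← hr, sub_self]
      have h2 : algebraMap R S r ∈ P.asIdeal := by
        have h3 : z - algebraMap R S r ∈ P.asIdeal :=
          ((Ideal.span_singleton_le_iff_mem _).mpr hx) h1
        have := P.asIdeal.sub_mem hz h3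
        simpa using this
      rw [← hr]
      exact Ideal.mem_map_of_mem q ((hover r).mpr h2)
    · rw [Ideal.map_le_iff_le_comap]
      intro r hr
      rw [Ideal.mem_comap, ← hφ]
      exact Ideal.mem_map_of_mem φ ((hover r).mp hr)
  have himgpow : ∀ n : ℕ, Ideal.map φ (P.asIdeal ^ n) = Ideal.map q (p.asIdeal ^ n) := by
    intro n
    rw [Ideal.map_pow, Ideal.map_pow, himg]
  have key : ∀ m : ℕ, P.asIdeal ^ m ≤ P.asIdeal ^ (m + 1) ⊔ Ideal.span {x} ↔
      p.asIdeal ^ m ≤ p.asIdeal ^ (m + 1) ⊔ Ideal.span {y} := by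
    intro m
    have h1 : P.asIdeal ^ (m + 1) ⊔ Ideal.span {x} =
        Ideal.comap φ (Ideal.map φ (P.asIdeal ^ (m + 1))) := by
      rw [Ideal.comap_map_of_surjective' φ hsurj, hker]
    have h2 : p.asIdeal ^ (m + 1) ⊔ Ideal.span {y} =
        Ideal.comap q (Ideal.map q (p.asIdeal ^ (m + 1))) := by
      rw [Ideal.comap_map_of_surjective' q hqsurj, hkerq]
    rw [h1, h2, ← Ideal.map_le_iff_le_comap, ← Ideal.map_le_iff_le_comap, himgpow, himgpow]
  have key2 : ∀ n : ℕ, x ∈ P.asIdeal ^ n ↔ y ∈ p.asIdeal ^ n := by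
    intro n
    rcases n with _ | m
    · simp
    · have := key m
      rw [pow_le_sup_iff, pow_le_sup_iff] at this
      exact not_iff_not.mp this
  -- conclude
  have key3 : ∀ n : ℕ, P.intValuation x ≤ WithZero.exp (-(n : ℤ)) ↔
      p.intValuation y ≤ WithZero.exp (-(n : ℤ)) := by
    intro n
    rw [HeightOneSpectrum.intValuation_le_pow_iff_mem, HeightOneSpectrum.intValuation_le_pow_iff_mem,
      key2]
  by_cases hx0 : x = 0
  · by_cases hy0 : y = 0
    · rw [hx0, hy0, map_zero, map_zero]
    · exfalso
      have h1 := p.intValuation_ne_zero y hy0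
      rw [hx0, map_zero] at key3
      have h2 := HeightOneSpectrum.intValuation_if_neg p hy0
      set c := (Associates.mk p.asIdeal).count (Associates.mk (Ideal.span {y})).factors with hc
      have h3 := (key3 (c + 1)).mp zero_le
      rw [h2, WithZero.exp_le_exp] at h3
      push_cast at h3
      omega
  · by_cases hy0 : y = 0
    · exfalso
      have h1 := P.intValuation_ne_zero x hx0
      rw [hy0, map_zero] at key3
      have h2 := HeightOneSpectrum.intValuation_if_neg P hx0
      set c := (Associates.mk P.asIdeal).count (Associates.mk (Ideal.span {x})).factors with hc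
      have h3 := (key3 (c + 1)).mpr zero_le
      rw [h2, WithZero.exp_le_exp] at h3
      push_cast at h3
      omega
    · have h1 := HeightOneSpectrum.intValuation_if_neg P hx0
      have h2 := HeightOneSpectrum.intValuation_if_neg p hy0
      set c := (Associates.mk P.asIdeal).count (Associates.mk (Ideal.span {x})).factors
      set d := (Associates.mk p.asIdeal).count (Associates.mk (Ideal.span {y})).factors
      apply le_antisymm
      · rw [h2]
        exact (key3 d).mpr h2.le
      · rw [h1]
        exact (key3 c).mp h1.le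

end General

section Adjoin

variable {A : Type*} [CommRing A] {O : Type*} [CommRing O] [Algebra A O] {f : A[X]}

/-- The map `A[θ] → A/(f(a))`, `θ ↦ a`. -/
lemma exists_quot_map (h : IsAdjoinRoot O f) (a : A) :
    ∃ φ : O →+* A ⧸ Ideal.span {f.eval a},
      (∀ r : A, φ (algebraMap A O r) = Ideal.Quotient.mk _ r) ∧
      RingHom.ker φ = Ideal.span {algebraMap A O a - h.root} := by
  have h0 : f.eval₂ (Ideal.Quotient.mk (Ideal.span {f.eval a})) (Ideal.Quotient.mk _ a) = 0 := by
    rw [Polynomial.eval₂_at_apply, Ideal.Quotient.eq_zero_iff_mem]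
    exact Ideal.mem_span_singleton_self _
  refine ⟨h.lift _ _ h0, fun r => h.lift_algebraMap _ r, ?_⟩
  have hdiv : ∀ g : A[X], algebraMap A O (g.eval a) - h.map g ∈
      Ideal.span {algebraMap A O a - h.root} := by
    intro g
    obtain ⟨s, hs⟩ := Polynomial.X_sub_C_dvd_sub_C_eval (a := a) (p := g)
    have h1 : h.map (g - C (g.eval a)) = (h.root - algebraMap A O a) * h.map s := by
      rw [hs, map_mul, map_sub, h.map_X]
      congr 2
      exact (h.algebraMap_apply a).symm
    have h2 : h.map g - algebraMap A O (g.eval a) = (h.root - algebraMap A O a) * h.map s := by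
      rw [← h1, map_sub]
      congr 1
      exact h.algebraMap_apply _
    rw [Ideal.mem_span_singleton]
    refine ⟨h.map s, ?_⟩
    linear_combination -h2
  apply le_antisymm
  · intro z hz
    obtain ⟨g, rfl⟩ := h.map_surjective z
    rw [RingHom.mem_ker, h.lift_map, Polynomial.eval₂_at_apply, Ideal.Quotient.eq_zero_iff_mem,
      Ideal.mem_span_singleton] at hz
    obtain ⟨c, hc⟩ := hz
    have h1 := hdiv g
    have h2 := hdiv f
    rw [h.map_self, sub_zero] at h2
    have h3 : algebraMap A O (g.eval a) ∈ Ideal.span {algebraMap A O a - h.root} := by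
      rw [hc, map_mul]
      exact Ideal.mul_mem_right _ _ h2
    have := Ideal.sub_mem _ h3 h1
    simpa using this
  · rw [Ideal.span_singleton_le_iff_mem, RingHom.mem_ker, map_sub, h.lift_algebraMap,
      h.lift_root, sub_self]

end Adjoin

end Pool.Agent.MP1bdb59
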