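import Mathlib

/-!
# Evenness of the local descent values
-/

open IsDedekindDomain

noncomputable section

open scoped Classical WithZero

namespace Pool.Agent.MP1bdb59

variable {A K : Type*} [CommRing A] [IsDedekindDomain A] [Field K] [Algebra A K]
  [IsFractionRing A K] {p : HeightOneSpectrum A} {M : Type*} [Field M] [Algebra K M]
  {w : Valuation M ℤᵐ⁰}

variable (K w) in
/-- `x` is a limit of elements of `K`. -/
def Approx (x : M) : Prop := ∀ d : M, d ≠ 0 → ∃ κ : K, w (algebraMap K M κ - x) < w d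

variable (K M) in
/-- the map `A → K → M`. -/
def toM (a : A) : M := algebraMap K M (algebraMap A K a)

variable (K p w) in
/-- The local situation at a prime of `O = A[t]` above `p`. -/
structure LocData (e : ℕ) (b c d : A) (t : M) : Prop where
  he : e ≠ 0
  hv : ∀ κ : K, w (algebraMap K M κ) = p.valuation K κ ^ e
  root : t ^ 3 + toM K M b * t ^ 2 + toM K M c * t + toM K M d = 0
  int : w t ≤ 1
  key : ∀ a : A, w (toM K M a - t) < 1 →
    w (toM K M a - t) = p.intValuation (a ^ 3 + b * a ^ 2 + c * a + d)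
  ne : ∀ a : A, toM K M a ≠ t

lemma pow_lt_of {x y : ℤᵐ⁰} {e : ℕ} (he : e ≠ 0) (h1 : y ≤ 1) (h : x < y) : x ^ e < y := by
  obtain ⟨m, rfl⟩ := Nat.exists_eq_succ_of_ne_zero he
  rw [pow_succ']
  have hx1 : x ^ m ≤ 1 := pow_le_one' (h.le.trans h1) m
  calc x * x ^ m ≤ x * 1 := by gcongr
    _ = x := mul_one x
    _ < y := h

lemma eq_of_pow_eq {x y : ℤᵐ⁰} {e : ℕ} (he : e ≠ 0) (h : x ^ e = y ^ e) : x = y :=
  (pow_left_inj₀ zero_le zero_le he).mp h

section

variable {e : ℕ} {b c d : A} {t : M} (hL : LocData K p w e b c d t)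

include hL

lemma LocData.w_toM (a : A) : w (toM K M a) = p.intValuation a ^ e := by
  rw [toM, hL.hv, HeightOneSpectrum.valuation_of_algebraMap]

lemma LocData.w_toM_le (a : A) : w (toM K M a) ≤ 1 := by
  rw [hL.w_toM]
  exact pow_le_one' (p.intValuation_le_one a) e

lemma LocData.exists_approx {x : M} (hx : Approx K w x) (h1 : w x ≤ 1) {y : M} (hy : y ≠ 0) :
    ∃ a : A, w (toM K M a - x) < w y := by
  obtain ⟨y', hy', hy'1, hy'y⟩ : ∃ y' : M, y' ≠ 0 ∧ w y' ≤ 1 ∧ w y' ≤ w y := by
    by_cases h : w y ≤ 1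
    · exact ⟨y, hy, h, le_rfl⟩
    · exact ⟨1, one_ne_zero, by simp, by simpa using (not_le.mp h).le⟩
  obtain ⟨κ, hκ⟩ := hx y' hy'
  have hκ1 : w (algebraMap K M κ) ≤ 1 := by
    have : algebraMap K M κ = (algebraMap K M κ - x) + x := by ring
    rw [this]
    exact (w.map_add _ _).trans (max_le (hκ.le.trans hy'1) h1)
  rw [hL.hv] at hκ1
  have hκ2 : p.valuation K κ ≤ 1 := by
    by_contra hcon
    rw [not_le] at hcon
    exact absurd hκ1 (not_le_of_gt (one_lt_pow₀ hcon hL.he))
  have hwy' : w y' ≠ 0 := by rwa [Ne, map_eq_zero]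
  obtain ⟨a, ha⟩ := p.exists_valuation_sub_lt_of_integer hκ2 (Units.mk0 _ hwy')
  rw [Units.val_mk0] at ha
  refine ⟨a, lt_of_lt_of_le ?_ hy'y⟩
  have : toM K M a - x = (toM K M a - algebraMap K M κ) + (algebraMap K M κ - x) := by ring
  rw [this]
  refine (w.map_add _ _).trans_lt (max_lt ?_ hκ)
  rw [toM, ← map_sub, hL.hv]
  exact pow_lt_of hL.he hy'1 ha

omit [IsDedekindDomain A] [IsFractionRing A K] hL in
/-- the cubic at `a`, in `M`. -/
lemma toM_cubic (a : A) : toM K M (a ^ 3 + b * a ^ 2 + c * a + d) =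
    (toM K M a) ^ 3 + toM K M b * (toM K M a) ^ 2 + toM K M c * toM K M a + toM K M d := by
  simp only [toM, map_add, map_mul, map_pow]

/-- The difference of the values of the cubic. -/
lemma LocData.cubic_sub {x y : M} (hx : w x ≤ 1) (hy : w y ≤ 1) :
    w ((y ^ 3 + toM K M b * y ^ 2 + toM K M c * y + toM K M d) -
      (x ^ 3 + toM K M b * x ^ 2 + toM K M c * x + toM K M d)) ≤ w (y - x) := by
  have h1 : (y ^ 3 + toM K M b * y ^ 2 + toM K M c * y + toM K M d) -
      (x ^ 3 + toM K M b * x ^ 2 + toM K M c * x + toM K M d) =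
      (y - x) * (y ^ 2 + y * x + x ^ 2 + toM K M b * (y + x) + toM K M c) := by ring
  rw [h1, map_mul]
  have hb := hL.w_toM_le b
  have hc := hL.w_toM_le c
  have h2 : w (y ^ 2 + y * x + x ^ 2 + toM K M b * (y + x) + toM K M c) ≤ 1 := by
    refine w.map_add_le (w.map_add_le (w.map_add_le (w.map_add_le ?_ ?_) ?_) ?_) hc
    · rw [map_pow]; exact pow_le_one' hy 2
    · rw [map_mul]; exact mul_le_one' hy hx
    · rw [map_pow]; exact pow_le_one' hx 2
    · rw [map_mul]; exact mul_le_one' hb (w.map_add_le hy hx)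
  calc w (y - x) * _ ≤ w (y - x) * 1 := by gcongr
    _ = w (y - x) := mul_one _

/-- The case where `t` itself is a limit of elements of `K`. -/
lemma LocData.deriv_eq_one (ht : Approx K w t)
    (hD : 3 * t ^ 2 + 2 * toM K M b * t + toM K M c ≠ 0) :
    w (3 * t ^ 2 + 2 * toM K M b * t + toM K M c) = 1 := by
  set D := 3 * t ^ 2 + 2 * toM K M b * t + toM K M c with hDdef
  obtain ⟨y', hy', hy'1, hy'y⟩ : ∃ y' : M, y' ≠ 0 ∧ w y' ≤ 1 ∧ w y' ≤ w D := by
    by_cases h : w D ≤ 1
    · exact ⟨D, hD, h, le_rfl⟩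
    · exact ⟨1, one_ne_zero, by simp, by simpa using (not_le.mp h).le⟩
  obtain ⟨a, ha⟩ := hL.exists_approx ht hL.int hy'
  have ha1 : w (toM K M a - t) < 1 := ha.trans_le hy'1
  have haD : w (toM K M a - t) < w D := ha.trans_le hy'y
  have hat : toM K M a - t ≠ 0 := sub_ne_zero.mpr (hL.ne a)
  have hkey := hL.key a ha1
  have hf : toM K M (a ^ 3 + b * a ^ 2 + c * a + d) = (toM K M a - t) *
      (D + (toM K M a - t) * (3 * t + toM K M b + (toM K M a - t))) := by
    rw [toM_cubic]
    have := hL.root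
    linear_combination this
  have h3 : w (3 * t + toM K M b + (toM K M a - t)) ≤ 1 := by
    refine w.map_add_le (w.map_add_le ?_ (hL.w_toM_le b)) ha1.le
    have : (3 : M) * t = t + t + t := by ring
    rw [this]
    exact w.map_add_le (w.map_add_le hL.int hL.int) hL.int
  have h4 : w (D + (toM K M a - t) * (3 * t + toM K M b + (toM K M a - t))) = w D := by
    apply w.map_add_eq_of_lt_left
    rw [map_mul]
    calc w (toM K M a - t) * _ ≤ w (toM K M a - t) * 1 := by gcongr
      _ = w (toM K M a - t) := mul_one _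
      _ < w D := haD
  have h5 : w (toM K M a - t) ^ e = w (toM K M a - t) * w D := by
    rw [← h4, ← map_mul, ← hf, hL.w_toM, hkey]
  have hwat : w (toM K M a - t) ≠ 0 := by rwa [Ne, map_eq_zero]
  obtain ⟨m, hm⟩ := Nat.exists_eq_succ_of_ne_zero hL.he
  rw [hm, pow_succ'] at h5
  have h6 : w (toM K M a - t) ^ m = w D := mul_left_cancel₀ hwat h5
  rcases Nat.eq_zero_or_pos m with hm0 | hm0
  · rw [hm0, pow_zero] at h6
    exact h6.symm
  · exfalso
    have h7 : w (toM K M a - t) ^ m ≤ w (toM K M a - t) :=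
      pow_le_of_le_one zero_le ha1.le (by omega)
    rw [h6] at h7
    exact absurd haD (not_lt_of_ge h7)

/-- **Evenness.** The value of the local descent map has even valuation. -/
theorem LocData.even {u : A} (hu : u ≠ 0)
    (hin : ¬ IsSquare (p.intValuation u) → ∀ a : A, a ^ 3 + b * a ^ 2 + c * a + d ∉ p.asIdeal)
    {X Y : M} (hX : Approx K w X) (hY : Approx K w Y)
    (hXY : Y ^ 2 = X ^ 3 + toM K M (u * b) * X ^ 2 + toM K M (u ^ 2 * c) * X +
      toM K M (u ^ 3 * d)) (hne : X ≠ toM K M u * t) :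
    IsSquare (w (X - toM K M u * t)) := by
  have hu' : toM K M u ≠ 0 := by
    rw [toM, Ne, map_eq_zero]
    intro h
    exact hu ((IsFractionRing.to_map_eq_zero_iff (K := K)).mp h)
  have hwu : w (toM K M u) ≠ 0 := by rwa [Ne, map_eq_zero]
  set U := toM K M u with hU
  set x := X / U with hx
  have hXx : X = U * x := by rw [hx]; field_simp
  have hxt : x - t ≠ 0 := by
    intro h
    apply hne
    rw [hXx, sub_eq_zero.mp h]
  set F := x ^ 3 + toM K M b * x ^ 2 + toM K M c * x + toM K M d with hF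
  have hYF : Y ^ 2 = U ^ 3 * F := by
    rw [hXY, hXx, hF]
    simp only [hU, toM, map_mul, map_pow]
    ring
  have hXt : X - U * t = U * (x - t) := by rw [hXx]; ring
  -- `x` is a limit of elements of `K`
  have hxA : Approx K w x := by
    intro y hy
    obtain ⟨κ, hκ⟩ := hX (U * y) (mul_ne_zero hu' hy)
    refine ⟨κ / algebraMap A K u, ?_⟩
    have h1 : algebraMap K M (κ / algebraMap A K u) - x = (algebraMap K M κ - X) / U := by
      rw [map_div₀, hx]
      exact (sub_div _ _ _).symm
    rw [h1, map_div₀]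
    rw [map_mul] at hκ
    rw [div_lt_iff₀ (zero_lt_iff.mpr hwu), mul_comm]
    exact hκ
  by_cases hx1 : w x ≤ 1
  swap
  · -- `x` is not integral
    rw [not_le] at hx1
    have hx0 : w x ≠ 0 := (lt_trans zero_lt_one hx1).ne'
    have h1 : w (x - t) = w x := w.map_sub_eq_of_lt_left (hL.int.trans_lt hx1)
    have h2 : w F = w x ^ 3 := by
      have h3 : F = x ^ 3 + (toM K M b * x ^ 2 + toM K M c * x + toM K M d) := by
        rw [hF]; ring
      have hlt : ∀ n : ℕ, n < 3 → ∀ z : M, w z ≤ 1 → w (z * x ^ n) < w x ^ 3 := by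
        intro n hn z hz
        rw [map_mul, map_pow]
        calc w z * w x ^ n ≤ 1 * w x ^ n := by gcongr
          _ = w x ^ n := one_mul _
          _ < w x ^ 3 := pow_lt_pow_right₀ hx1 hn
      have h4 : w (toM K M b * x ^ 2 + toM K M c * x + toM K M d) < w (x ^ 3) := by
        rw [map_pow]
        refine w.map_add_lt (w.map_add_lt (hlt 2 (by norm_num) _ (hL.w_toM_le b)) ?_) ?_
        · have := hlt 1 (by norm_num) _ (hL.w_toM_le c)
          rwa [pow_one] at this
        · have := hlt 0 (by norm_num) _ (hL.w_toM_le d)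
          rwa [pow_zero, mul_one] at this
      rw [h3, w.map_add_eq_of_lt_left h4, map_pow]
    have h5 : w Y ^ 2 = (w U * w x) ^ 3 := by
      rw [← map_pow, hYF, map_mul, map_pow, h2, mul_pow]
    have h6 : w U * w x ≠ 0 := mul_ne_zero hwu hx0
    refine ⟨w Y / (w U * w x), ?_⟩
    rw [hXt, map_mul, h1, div_mul_div_comm, ← pow_two, h5, ← pow_two,
      eq_div_iff (pow_ne_zero _ h6)]
    exact (pow_succ' _ 2).symm
  · -- `x` is integral
    have hxt1 : w (x - t) ≤ 1 := w.map_sub_le hx1 hL.int
    -- a good approximation of `x` by `a : A`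
    have hgood : ∀ z : M, z ≠ 0 → ∃ a : A, w (toM K M a - x) < w z ∧
        w (toM K M a - t) = w (x - t) := by
      intro z hz
      obtain ⟨y', hy', hy'1, hy'y⟩ : ∃ y' : M, y' ≠ 0 ∧ w y' ≤ w z ∧ w y' ≤ w (x - t) := by
        by_cases h : w z ≤ w (x - t)
        · exact ⟨z, hz, le_rfl, h⟩
        · exact ⟨x - t, hxt, (not_le.mp h).le, le_rfl⟩
      obtain ⟨a, ha⟩ := hL.exists_approx hxA hx1 hy'
      refine ⟨a, ha.trans_le hy'1, ?_⟩
      have : toM K M a - t = (toM K M a - x) + (x - t) := by ring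
      rw [this]
      exact w.map_add_eq_of_lt_right (ha.trans_le hy'y)
    have hFa : ∀ a : A, w (toM K M a - x) < w F →
        p.intValuation (a ^ 3 + b * a ^ 2 + c * a + d) ^ e = w F := by
      intro a ha
      rw [← hL.w_toM, toM_cubic]
      set G := (toM K M a) ^ 3 + toM K M b * (toM K M a) ^ 2 + toM K M c * toM K M a + toM K M d
      have h1 : w (G - F) < w F := (hL.cubic_sub hx1 (hL.w_toM_le a)).trans_lt ha
      have h2 : G = (G - F) + F := by ring
      rw [h2]
      exact w.map_add_eq_of_lt_right h1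
    rw [hXt, map_mul]
    by_cases hx2 : w (x - t) = 1
    · -- `x - t` is a unit
      rw [hx2, mul_one]
      by_cases hsq : IsSquare (p.intValuation u)
      · rw [hU, hL.w_toM]
        exact hsq.pow e
      · have hF0 : F ≠ 0 := by
          intro hF0
          obtain ⟨a, ha, -⟩ := hgood 1 one_ne_zero
          rw [map_one] at ha
          have h1 := hL.cubic_sub hx1 (hL.w_toM_le a)
          rw [← toM_cubic, ← hF, hF0, sub_zero, hL.w_toM] at h1
          have h2 := h1.trans_lt ha
          have h3 : p.intValuation (a ^ 3 + b * a ^ 2 + c * a + d) = 1 := by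
            rw [HeightOneSpectrum.intValuation_eq_one_iff]
            exact hin hsq a
          rw [h3, one_pow] at h2
          exact lt_irrefl _ h2
        obtain ⟨a, ha, -⟩ := hgood F hF0
        have h1 := hFa a ha
        have h3 : p.intValuation (a ^ 3 + b * a ^ 2 + c * a + d) = 1 := by
          rw [HeightOneSpectrum.intValuation_eq_one_iff]
          exact hin hsq a
        rw [h3, one_pow] at h1
        have h4 : w Y ^ 2 = w U ^ 3 := by
          rw [← map_pow, hYF, map_mul, map_pow, ← h1, mul_one]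
        refine ⟨w Y / w U, ?_⟩
        rw [div_mul_div_comm, ← pow_two, h4, ← pow_two, eq_div_iff (pow_ne_zero _ hwu)]
        exact (pow_succ' _ 2).symm
    · have hx3 : w (x - t) < 1 := lt_of_le_of_ne hxt1 hx2
      have hxt0 : w (x - t) ≠ 0 := by rwa [Ne, map_eq_zero]
      -- `u` has even valuation
      have hsq : IsSquare (p.intValuation u) := by
        by_contra hcon
        obtain ⟨a, -, ha⟩ := hgood 1 one_ne_zero
        have h1 := hL.key a (by rw [ha]; exact hx3)
        rw [ha] at h1
        have h2 : p.intValuation (a ^ 3 + b * a ^ 2 + c * a + d) = 1 := by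
          rw [HeightOneSpectrum.intValuation_eq_one_iff]
          exact hin hcon a
        exact hx2 (h1.trans h2)
      have hsqU : IsSquare (w U) := by
        rw [hU, hL.w_toM]
        exact hsq.pow e
      refine hsqU.mul ?_
      by_cases hF0 : F = 0
      · exfalso
        obtain ⟨a, ha1, ha⟩ := hgood ((x - t) ^ e) (pow_ne_zero _ hxt)
        have h1 := hL.key a (by rw [ha]; exact hx3)
        rw [ha] at h1
        have h2 := hL.cubic_sub hx1 (hL.w_toM_le a)
        rw [← toM_cubic, ← hF, hF0, sub_zero, hL.w_toM, ← h1] at h2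
        rw [map_pow] at ha1
        exact absurd (h2.trans_lt ha1) (lt_irrefl _)
      · obtain ⟨a, ha1, ha⟩ := hgood F hF0
        have h1 := hL.key a (by rw [ha]; exact hx3)
        rw [ha] at h1
        have h2 := hFa a ha1
        rw [← h1] at h2
        -- approximate `Y`
        have hY0 : Y ≠ 0 := by
          rintro rfl
          have : U ^ 3 * F = 0 := by rw [← hYF]; ring
          rcases mul_eq_zero.mp this with h | h
          · exact hu' (pow_eq_zero_iff (by norm_num)|>.mp h)
          · exact hF0 h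
        obtain ⟨κ, hκ⟩ := hY Y hY0
        have hκY : w (algebraMap K M κ) = w Y := by
          have : algebraMap K M κ = (algebraMap K M κ - Y) + Y := by ring
          rw [this]
          exact w.map_add_eq_of_lt_right hκ
        rw [hL.hv] at hκY
        have hwu2 : w U = p.intValuation u ^ e := hL.w_toM u
        have hpu : p.intValuation u ≠ 0 := p.intValuation_ne_zero u hu
        have h5 : (w (x - t) * p.intValuation u ^ 3) ^ e = (p.valuation K κ ^ 2) ^ e := by
          rw [mul_pow, h2, ← pow_mul, mul_comm 3 e, pow_mul, ← hwu2, ← pow_mul, mul_comm 2 e,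
            pow_mul, hκY, ← map_pow w Y, hYF, map_mul, map_pow, mul_comm]
        have h6 := eq_of_pow_eq hL.he h5
        obtain ⟨r, hr⟩ := hsq
        have hr0 : r ≠ 0 := by
          rintro rfl
          exact hpu (by rw [hr]; simp)
        refine ⟨p.valuation K κ / r ^ 3, ?_⟩
        rw [div_mul_div_comm, ← pow_two, ← h6, hr, eq_div_iff (by
          exact mul_ne_zero (pow_ne_zero _ hr0) (pow_ne_zero _ hr0)), mul_pow]

end

end Pool.Agent.MP1bdb59
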