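import Mathlib

/-!
# Explicit 2-descent formulas on `y^2 = x^3 + a₂ x^2 + a₄ x + a₆`
-/

open WeierstrassCurve WeierstrassCurve.Affine

noncomputable section

open scoped Classical

namespace Pool.Agent.MP1bdb59

variable {M : Type*} [Field M]

/-- The cubic `x^3 + a₂ x^2 + a₄ x + a₆`. -/
def cub (V : WeierstrassCurve M) (x : M) : M := x ^ 3 + V.a₂ * x ^ 2 + V.a₄ * x + V.a₆

/-- The derivative of the cubic. -/
def dcub (V : WeierstrassCurve M) (x : M) : M := 3 * x ^ 2 + 2 * V.a₂ * x + V.a₄

/-- The standing hypotheses: `a₁ = a₃ = 0`, `2 ≠ 0` and the cubic has no double root. -/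
structure Good (V : WeierstrassCurve M) : Prop where
  a1 : V.a₁ = 0
  a3 : V.a₃ = 0
  two : (2 : M) ≠ 0
  sep : ∀ e, cub V e = 0 → dcub V e ≠ 0

variable {V : WeierstrassCurve M}

lemma Good.equation_iff (hV : Good V) (x y : M) : V.toAffine.Equation x y ↔ y ^ 2 = cub V x := by
  rw [Affine.equation_iff, hV.a1, hV.a3, cub]
  simp

lemma Good.negY (hV : Good V) (x y : M) : V.toAffine.negY x y = -y := by
  rw [Affine.negY, hV.a1, hV.a3]; ring

lemma Good.nonsingular_root (hV : Good V) {e : M} (he : cub V e = 0) :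
    V.toAffine.Nonsingular e 0 := by
  rw [Affine.nonsingular_iff, hV.equation_iff]
  refine ⟨by rw [he]; ring, Or.inl ?_⟩
  rw [hV.a1]
  simpa [dcub] using (hV.sep e he).symm

/-- The sign `w_e(S)` attached to a root `e` and a point `S`: it is `1` if `S = 0` or
`S = (e, 0)`, and `-1` otherwise. -/
def wt (e : M) (S : V.toAffine.Point) : ℤˣ :=
  if S = 0 ∨ ∃ h, S = .some e 0 h then 1 else -1

lemma wt_zero (e : M) : wt e (0 : V.toAffine.Point) = 1 := by simp [wt]

lemma wt_self {e : M} (h : V.toAffine.Nonsingular e 0) : wt e (.some e 0 h : V.toAffine.Point) = 1 := by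
  have : (.some e 0 h : V.toAffine.Point) = 0 ∨ ∃ h', (.some e 0 h : V.toAffine.Point) = .some e 0 h' :=
    Or.inr ⟨h, rfl⟩
  rw [wt, if_pos this]

lemma wt_ne {e x y : M} (h : V.toAffine.Nonsingular x y) (hne : ¬ (x = e ∧ y = 0)) :
    wt e (.some x y h : V.toAffine.Point) = -1 := by
  have : ¬ ((.some x y h : V.toAffine.Point) = 0 ∨
      ∃ h', (.some x y h : V.toAffine.Point) = .some e 0 h') := by
    rintro (h0 | ⟨h', h0⟩)
    · exact Point.some_ne_zero h h0
    · exact hne (by simpa using h0)
  rw [wt, if_neg this]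

/-- The square root function: `sq e R` is a square root of the value at `2R` of the descent map
attached to the root `e`. -/
def sq (e : M) : V.toAffine.Point → M
  | 0 => 1
  | .some x y _ => if y = 0 then (if x = e then 1 else -1) else
      if (x - e) ^ 2 = dcub V e then x - e else ((x - e) ^ 2 - dcub V e) / (2 * y)

/-- The descent map attached to the root `e`. -/
def dl (e : M) : V.toAffine.Point → M
  | 0 => 1
  | .some x _ _ => if x = e then dcub V e else x - e

section Add

variable [DecidableEq M]

lemma Good.two_torsion (hV : Good V) {x y : M} {h : V.toAffine.Nonsingular x y}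
    (hS : (.some x y h : V.toAffine.Point) + .some x y h = 0) : y = 0 ∧ cub V x = 0 := by
  have h1 : (.some x y h : V.toAffine.Point) = - .some x y h := eq_neg_of_add_eq_zero_left hS
  rw [Point.neg_some, Point.some.injEq] at h1
  have h2 := h1.2
  rw [hV.negY] at h2
  have h3 : y = 0 := by
    have : (2 : M) * y = 0 := by linear_combination h2
    exact (mul_eq_zero.mp this).resolve_left hV.two
  refine ⟨h3, ?_⟩
  have := (hV.equation_iff x y).mp h.1
  rw [← this, h3]; ring

lemma Good.add_self_root (hV : Good V) {x : M} (h : V.toAffine.Nonsingular x 0) :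
    (.some x 0 h : V.toAffine.Point) + .some x 0 h = 0 := by
  apply Point.add_of_Y_eq rfl
  rw [hV.negY]; simp

/-- Doubling a point that is not 2-torsion. -/
lemma Good.double (hV : Good V) {x y : M} (h : V.toAffine.Nonsingular x y) (hy : y ≠ 0) :
    ∃ (x' y' : M) (h' : V.toAffine.Nonsingular x' y'),
      (.some x y h : V.toAffine.Point) + .some x y h = .some x' y' h' ∧
      x' = (dcub V x / (2 * y)) ^ 2 - V.a₂ - 2 * x ∧
      y' = - (y + dcub V x / (2 * y) * (x' - x)) := by
  have hne : y ≠ V.toAffine.negY x y := by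
    rw [hV.negY]
    intro h1
    apply hy
    have : (2 : M) * y = 0 := by linear_combination h1
    exact (mul_eq_zero.mp this).resolve_left hV.two
  rw [Point.add_self_of_Y_ne hne]
  refine ⟨_, _, _, rfl, ?_, ?_⟩
  · rw [Affine.slope_of_Y_ne rfl hne, hV.negY, Affine.addX, hV.a1, dcub]
    ring
  · rw [Affine.addY, hV.negY, Affine.negAddY, Affine.slope_of_Y_ne rfl hne, hV.negY, hV.a1, dcub]
    ring

/-- Adding the 2-torsion point `(e, 0)` to a point that is not 2-torsion. -/
lemma Good.add_root (hV : Good V) {x y e : M} (h : V.toAffine.Nonsingular x y) (hy : y ≠ 0)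
    (he : cub V e = 0) :
    ∃ h' : V.toAffine.Nonsingular (e + dcub V e / (x - e)) (- dcub V e * y / (x - e) ^ 2),
      (.some x y h : V.toAffine.Point) + .some e 0 (hV.nonsingular_root he) = .some _ _ h' := by
  have heq := (hV.equation_iff x y).mp h.1
  have hxe : x ≠ e := by
    rintro rfl
    rw [he] at heq
    exact hy (pow_eq_zero_iff (two_ne_zero)|>.mp heq)
  have hxe' : x - e ≠ 0 := sub_ne_zero.mpr hxe
  have key : V.toAffine.addX x e (V.toAffine.slope x e y 0) = e + dcub V e / (x - e) := by
    rw [Affine.slope_of_X_ne hxe, Affine.addX, hV.a1, dcub]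
    simp only [cub] at heq he
    field_simp
    linear_combination heq + he
  have key2 : V.toAffine.addY x e y (V.toAffine.slope x e y 0) =
      - dcub V e * y / (x - e) ^ 2 := by
    rw [Affine.addY, hV.negY, Affine.negAddY, key, Affine.slope_of_X_ne hxe]
    field_simp
    ring
  have h0 := Point.add_of_X_ne (h₁ := h) (h₂ := hV.nonsingular_root he) hxe
  have hns := Affine.nonsingular_add h (hV.nonsingular_root he) (fun hxy => hxe hxy.left)
  refine ⟨by rw [key, key2] at hns; exact hns, ?_⟩
  rw [h0, Point.some.injEq]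
  exact ⟨key, key2⟩

/-- `dl e P` never vanishes. -/
lemma Good.dl_ne_zero (hV : Good V) {e : M} (he : cub V e = 0) (P : V.toAffine.Point) :
    dl e P ≠ 0 := by
  rcases P with _ | ⟨x, y, h⟩
  · simp [dl]
  · simp only [dl]
    split_ifs with hx
    · exact hV.sep e he
    · exact sub_ne_zero.mpr hx

lemma Good.eq_zero_or_root (hV : Good V) (S : V.toAffine.Point) (hS : S + S = 0) :
    S = 0 ∨ ∃ e, ∃ he : cub V e = 0, S = .some e 0 (hV.nonsingular_root he) := by
  rcases S with _ | ⟨x, y, h⟩
  · exact Or.inl rfl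
  · right
    obtain ⟨hy, hx⟩ := hV.two_torsion hS
    subst hy
    exact ⟨x, hx, rfl⟩

/-- `sq e R` is a square root of `dl e (2R)`. -/
lemma Good.sq_sq (hV : Good V) {e : M} (he : cub V e = 0) (R : V.toAffine.Point) :
    sq e R ^ 2 = dl e (R + R) := by
  rcases R with _ | ⟨x, y, h⟩
  · have : ((.zero : V.toAffine.Point) + .zero) = 0 := add_zero 0
    rw [this]
    change (1 : M) ^ 2 = 1
    norm_num
  · have heq := (hV.equation_iff x y).mp h.1
    by_cases hy : y = 0
    · subst hy
      rw [hV.add_self_root h]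
      change _ = (1 : M)
      simp only [sq, if_true]
      split_ifs <;> norm_num
    · obtain ⟨x', y', h', hadd, hx', hy'⟩ := hV.double h hy
      rw [hadd]
      simp only [sq, dl, if_neg hy]
      have h2 := hV.two
      have hxe : (x' - e) * (2 * y) ^ 2 = ((x - e) ^ 2 - dcub V e) ^ 2 := by
        rw [hx']
        simp only [cub, dcub] at heq he ⊢
        field_simp
        linear_combination (-4 * (V.a₂ + 2 * x + e)) * heq - (4 * (e + 2 * x + V.a₂)) * he
      by_cases hc : (x - e) ^ 2 = dcub V e
      · rw [if_pos hc]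
        have : x' = e := by
          rw [hc, sub_self] at hxe
          have h3 : (2 * y) ^ 2 ≠ 0 := pow_ne_zero _ (mul_ne_zero h2 hy)
          have : x' - e = 0 := by
            rcases mul_eq_zero.mp (hxe.trans (by ring)) with h4 | h4
            · exact h4
            · exact absurd h4 h3
          exact sub_eq_zero.mp this
        rw [if_pos this, hc]
      · rw [if_neg hc]
        have : x' ≠ e := by
          rintro rfl
          rw [sub_self, zero_mul] at hxe
          exact hc (sub_eq_zero.mp (pow_eq_zero_iff (two_ne_zero)|>.mp hxe.symm))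
        rw [if_neg this, div_pow, ← hxe]
        field_simp

lemma Good.sq_ne_zero (hV : Good V) {e : M} (he : cub V e = 0) (R : V.toAffine.Point) :
    sq e R ≠ 0 := by
  intro h
  have := hV.sq_sq he R
  rw [h] at this
  exact hV.dl_ne_zero he (R + R) (by rw [← this]; ring)

omit [DecidableEq M] in
lemma third_root {e e' : M} (he : cub V e = 0) (he' : cub V e' = 0) (hne : e ≠ e') :
    ∃ e'', V.a₂ = -(e + e' + e'') ∧ V.a₄ = e * e' + e * e'' + e' * e'' ∧
      V.a₆ = - (e * e' * e'') := by
  refine ⟨-V.a₂ - e - e', by ring, ?_, ?_⟩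
  · have h1 : (e - e') * (e ^ 2 + e * e' + e' ^ 2 + V.a₂ * (e + e') + V.a₄) = 0 := by
      simp only [cub] at he he'
      linear_combination he - he'
    have h2 := (mul_eq_zero.mp h1).resolve_left (sub_ne_zero.mpr hne)
    linear_combination h2
  · have h1 : (e - e') * (e ^ 2 + e * e' + e' ^ 2 + V.a₂ * (e + e') + V.a₄) = 0 := by
      simp only [cub] at he he'
      linear_combination he - he'
    have h2 := (mul_eq_zero.mp h1).resolve_left (sub_ne_zero.mpr hne)
    simp only [cub] at he he'
    linear_combination he - e * h2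

lemma Good.add_two_roots (hV : Good V) {x e' : M} (h : V.toAffine.Nonsingular x 0)
    (h' : V.toAffine.Nonsingular e' 0) (hne : x ≠ e') :
    ∃ h'' : V.toAffine.Nonsingular (-V.a₂ - x - e') 0,
      (.some x 0 h : V.toAffine.Point) + .some e' 0 h' = .some _ _ h'' := by
  have key : V.toAffine.addX x e' (V.toAffine.slope x e' 0 0) = -V.a₂ - x - e' := by
    rw [Affine.slope_of_X_ne hne, Affine.addX, hV.a1]; simp
  have key2 : V.toAffine.addY x e' 0 (V.toAffine.slope x e' 0 0) = 0 := by
    rw [Affine.addY, hV.negY, Affine.negAddY, Affine.slope_of_X_ne hne]; simp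
  have h0 := Point.add_of_X_ne (h₁ := h) (h₂ := h') hne
  have hns := Affine.nonsingular_add h h' (fun hxy => hne hxy.left)
  refine ⟨by rw [key, key2] at hns; exact hns, ?_⟩
  rw [h0, Point.some.injEq]
  exact ⟨key, key2⟩

/-- Translation by a 2-torsion point multiplies `sq e` by the sign `wt e`. -/
lemma Good.sq_add (hV : Good V) {e : M} (he : cub V e = 0) (R S : V.toAffine.Point)
    (hS : S + S = 0) : sq e (R + S) = ((wt e S : ℤˣ) : ℤ) * sq e R := by
  rcases hV.eq_zero_or_root S hS with rfl | ⟨e', he', rfl⟩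
  · simp [wt_zero]
  rcases R with _ | ⟨x, y, h⟩
  · have : ((.zero : V.toAffine.Point) + .some e' 0 (hV.nonsingular_root he')) =
      .some e' 0 (hV.nonsingular_root he') := zero_add _
    rw [this]
    change _ = _ * (1 : M)
    simp only [sq, if_true]
    by_cases hee : e' = e
    · subst hee; rw [if_pos rfl, wt_self]; simp
    · rw [if_neg hee, wt_ne _ (fun hh => hee hh.1)]; simp
  · have heq := (hV.equation_iff x y).mp h.1
    have hw : (((wt e (.some e' 0 (hV.nonsingular_root he') : V.toAffine.Point) : ℤˣ) : ℤ) : M) =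
        if e' = e then 1 else -1 := by
      by_cases hee : e' = e
      · subst hee; rw [if_pos rfl, wt_self]; simp
      · rw [if_neg hee, wt_ne _ (fun hh => hee hh.1)]; simp
    rw [hw]
    by_cases hy : y = 0
    · subst hy
      have hx : cub V x = 0 := by rw [← heq]; ring
      by_cases hxe' : x = e'
      · subst hxe'
        rw [hV.add_self_root]
        change (1 : M) = _
        simp only [sq, if_true]
        split_ifs <;> norm_num
      · obtain ⟨h'', hadd⟩ := hV.add_two_roots h (hV.nonsingular_root he') hxe'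
        rw [hadd]
        simp only [sq, if_true]
        obtain ⟨e'', ha2, ha4, ha6⟩ := third_root hx he' hxe'
        have hd1 := hV.sep x hx
        have hd2 := hV.sep e' he'
        have h3 : -V.a₂ - x - e' = e'' := by rw [ha2]; ring
        rw [h3]
        have hxe'' : e'' ≠ x := by
          rintro rfl
          apply hd1
          rw [dcub, ha2, ha4]; ring
        have he'e'' : e'' ≠ e' := by
          rintro rfl
          apply hd2
          rw [dcub, ha2, ha4]; ring
        by_cases h4 : e' = e
        · subst h4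
          rw [if_neg he'e'', if_pos rfl, if_neg hxe']; ring
        · by_cases h5 : x = e
          · subst h5
            rw [if_neg hxe'', if_pos rfl, if_neg h4]; ring
          · have h6 : e'' = e := by
              have : (e - x) * (e - e') * (e - e'') = 0 := by
                simp only [cub] at he
                rw [ha2, ha4, ha6] at he
                linear_combination he
              rcases mul_eq_zero.mp this with h7 | h7
              · rcases mul_eq_zero.mp h7 with h8 | h8
                · exact absurd (sub_eq_zero.mp h8).symm h5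
                · exact absurd (sub_eq_zero.mp h8).symm h4
              · exact (sub_eq_zero.mp h7).symm
            rw [if_pos h6, if_neg h4, if_neg h5]; ring
    · obtain ⟨h'', hadd⟩ := hV.add_root h hy he'
      rw [hadd]
      have h2 := hV.two
      have hD' := hV.sep e' he'
      have hD := hV.sep e he
      have hxe' : x - e' ≠ 0 := by
        intro h0
        rw [sub_eq_zero] at h0
        subst h0
        rw [he'] at heq
        exact hy (pow_eq_zero_iff (two_ne_zero)|>.mp heq)
      have hy'' : - dcub V e' * y / (x - e') ^ 2 ≠ 0 := by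
        simp [hD', hy, hxe']
      simp only [sq, if_neg hy, if_neg hy'']
      by_cases hee : e' = e
      · subst hee
        rw [if_pos rfl, one_mul]
        by_cases hc : (x - e') ^ 2 = dcub V e'
        · have hc' : (e' + dcub V e' / (x - e') - e') ^ 2 = dcub V e' := by
            rw [← hc]; field_simp
            ring
          rw [if_pos hc, if_pos hc', ← hc]
          field_simp
          ring
        · have hc' : ¬ (e' + dcub V e' / (x - e') - e') ^ 2 = dcub V e' := by
            intro h0
            apply hc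
            have h1 : dcub V e' * dcub V e' = dcub V e' * (x - e') ^ 2 := by
              rw [add_sub_cancel_left, div_pow, div_eq_iff (pow_ne_zero _ hxe')] at h0
              linear_combination h0
            exact (mul_left_cancel₀ hD' h1).symm
          rw [if_neg hc, if_neg hc']
          field_simp
          ring
      · rw [if_neg hee]
        obtain ⟨e'', ha2, ha4, ha6⟩ := third_root he he' (Ne.symm hee)
        have hDe : dcub V e = (e - e') * (e - e'') := by rw [dcub, ha2, ha4]; ring
        have hDe' : dcub V e' = (e' - e) * (e' - e'') := by rw [dcub, ha2, ha4]; ring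
        have key : (e' + dcub V e' / (x - e') - e) ^ 2 - dcub V e =
            dcub V e' / (x - e') ^ 2 * ((x - e) ^ 2 - dcub V e) := by
          rw [hDe, hDe']
          field_simp
          ring
        by_cases hc : (x - e) ^ 2 = dcub V e
        · have hc' : (e' + dcub V e' / (x - e') - e) ^ 2 = dcub V e := by
            rw [← sub_eq_zero, key, hc, sub_self, mul_zero]
          rw [if_pos hc, if_pos hc', hDe']
          rw [hDe] at hc
          field_simp
          linear_combination hc
        · have hc' : ¬ (e' + dcub V e' / (x - e') - e) ^ 2 = dcub V e := by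
            rw [← sub_eq_zero, key]
            intro h0
            rcases mul_eq_zero.mp h0 with h1 | h1
            · exact (div_ne_zero hD' (pow_ne_zero _ hxe')) h1
            · exact hc (sub_eq_zero.mp h1)
          rw [if_neg hc, if_neg hc', key]
          field_simp

omit [DecidableEq M] in
lemma units_cast_inj (h2 : (2 : M) ≠ 0) {a b : ℤˣ} (h : (((a : ℤˣ) : ℤ) : M) = ((b : ℤˣ) : ℤ)) :
    a = b := by
  rcases Int.units_eq_one_or a with rfl | rfl <;> rcases Int.units_eq_one_or b with rfl | rfl
  · rfl
  · exfalso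
    apply h2
    simp only [Units.val_one, Int.cast_one, Units.val_neg, Int.cast_neg] at h
    linear_combination h
  · exfalso
    apply h2
    simp only [Units.val_one, Int.cast_one, Units.val_neg, Int.cast_neg] at h
    linear_combination -h
  · rfl

lemma Good.sq_eq_wt (hV : Good V) {e : M} (S : V.toAffine.Point) (hS : S + S = 0) :
    sq e S = ((wt e S : ℤˣ) : ℤ) := by
  rcases hV.eq_zero_or_root S hS with rfl | ⟨e', he', rfl⟩
  · rw [wt_zero]
    change (1 : M) = _
    simp
  · by_cases hee : e' = e
    · subst hee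
      rw [wt_self]
      simp [sq]
    · rw [wt_ne _ (fun hh => hee hh.1)]
      simp [sq, hee]

lemma Good.wt_add (hV : Good V) {e : M} (he : cub V e = 0) {S S' : V.toAffine.Point}
    (hS : S + S = 0) (hS' : S' + S' = 0) : wt e (S + S') = wt e S * wt e S' := by
  apply units_cast_inj hV.two
  have h1 : (S + S') + (S + S') = 0 := by
    rw [add_add_add_comm, hS, hS', add_zero]
  rw [← hV.sq_eq_wt _ h1, hV.sq_add he S S' hS', hV.sq_eq_wt S hS, mul_comm]
  push_cast
  ring

lemma wt_neg {e : M} {S : V.toAffine.Point}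
    (hS : S + S = 0) : wt e (-S) = wt e S := by
  rw [← eq_neg_of_add_eq_zero_left hS]

lemma Good.wt_sub (hV : Good V) {e : M} (he : cub V e = 0) {S S' : V.toAffine.Point}
    (hS : S + S = 0) (hS' : S' + S' = 0) : wt e (S - S') = wt e S * wt e S' := by
  rw [sub_eq_add_neg, hV.wt_add he hS (by rw [← neg_add, hS', neg_zero]), wt_neg hS']

end Add

section Map

variable {K S F₁ F₂ : Type*} [Field K] [Field F₁] [Field F₂] [DecidableEq F₁] [DecidableEq F₂]
  [CommRing S] [Algebra K S]
  [Algebra K F₁] [Algebra K F₂] [Algebra S F₁] [Algebra S F₂] [IsScalarTower K S F₁]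
  [IsScalarTower K S F₂] (W : WeierstrassCurve K) (f : F₁ →ₐ[S] F₂)

lemma bc_a₁ (F : Type*) [Field F] [Algebra K F] : (W⁄F).a₁ = algebraMap K F W.a₁ := rfl
lemma bc_a₂ (F : Type*) [Field F] [Algebra K F] : (W⁄F).a₂ = algebraMap K F W.a₂ := rfl
lemma bc_a₃ (F : Type*) [Field F] [Algebra K F] : (W⁄F).a₃ = algebraMap K F W.a₃ := rfl
lemma bc_a₄ (F : Type*) [Field F] [Algebra K F] : (W⁄F).a₄ = algebraMap K F W.a₄ := rfl
lemma bc_a₆ (F : Type*) [Field F] [Algebra K F] : (W⁄F).a₆ = algebraMap K F W.a₆ := rfl

omit [DecidableEq F₁] [DecidableEq F₂] in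
lemma cub_map (x : F₁) : cub (W⁄F₂) (f x) = f (cub (W⁄F₁) x) := by
  have h : ∀ c : K, f (algebraMap K F₁ c) = algebraMap K F₂ c := fun c => by
    rw [IsScalarTower.algebraMap_apply K S F₁, f.commutes, ← IsScalarTower.algebraMap_apply]
  simp only [cub, bc_a₂, bc_a₄, bc_a₆, map_add, map_mul, map_pow, h]

omit [DecidableEq F₁] [DecidableEq F₂] in
lemma dcub_map (x : F₁) : dcub (W⁄F₂) (f x) = f (dcub (W⁄F₁) x) := by
  have h : ∀ c : K, f (algebraMap K F₁ c) = algebraMap K F₂ c := fun c => by
    rw [IsScalarTower.algebraMap_apply K S F₁, f.commutes, ← IsScalarTower.algebraMap_apply]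
  simp only [dcub, bc_a₂, bc_a₄, map_add, map_mul, map_pow, h, map_ofNat]

lemma wt_map (e : F₁) (P : (W⁄F₁).toAffine.Point) :
    wt (f e) (Point.map (W' := W) f P) = wt e P := by
  rcases P with _ | ⟨x, y, h⟩
  · have : (Point.map (W' := W) f) (Point.zero) = 0 := rfl
    rw [this, wt_zero]
    exact (wt_zero e).symm
  · rw [Point.map_some]
    by_cases hxy : x = e ∧ y = 0
    · obtain ⟨rfl, rfl⟩ := hxy
      rw [wt_self]
      have h0 : ∀ (z : F₂) (hz : (W⁄F₂).toAffine.Nonsingular (f x) z), z = 0 →
          wt (f x) (.some (f x) z hz : (W⁄F₂).toAffine.Point) = 1 := by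
        rintro z hz rfl
        exact wt_self hz
      exact h0 _ _ (map_zero f)
    · rw [wt_ne h hxy, wt_ne]
      rintro ⟨h1, h2⟩
      exact hxy ⟨f.injective h1, (map_eq_zero_iff f f.injective).mp h2⟩

lemma sq_map (e : F₁) (P : (W⁄F₁).toAffine.Point) :
    sq (f e) (Point.map (W' := W) f P) = f (sq e P) := by
  rcases P with _ | ⟨x, y, h⟩
  · change (1 : F₂) = f 1
    simp
  · rw [Point.map_some]
    simp only [sq]
    rw [dcub_map]
    have hy : f y = 0 ↔ y = 0 := map_eq_zero_iff f f.injective
    have hx : f x = f e ↔ x = e := f.injective.eq_iff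
    have hc : (f x - f e) ^ 2 = f (dcub (W⁄F₁) e) ↔ (x - e) ^ 2 = dcub (W⁄F₁) e := by
      rw [← map_sub, ← map_pow]
      exact f.injective.eq_iff
    have h2 : f 2 = 2 := map_ofNat f 2
    simp only [hy, hx, hc]
    split_ifs <;> simp [h2]

lemma dl_map (e : F₁) (P : (W⁄F₁).toAffine.Point) :
    dl (f e) (Point.map (W' := W) f P) = f (dl e P) := by
  rcases P with _ | ⟨x, y, h⟩
  · change (1 : F₂) = f 1
    simp
  · rw [Point.map_some]
    simp only [dl]
    rw [dcub_map]
    have hx : f x = f e ↔ x = e := f.injective.eq_iff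
    simp only [hx]
    split_ifs <;> simp

end Map

/-- Halving a point: if the cubic splits and every element of the field is a square, then every
point is divisible by 2. -/
lemma Good.exists_half [DecidableEq M] (hV : Good V) (hsq : ∀ z : M, ∃ r, r ^ 2 = z) {e₁ e₂ e₃ : M}
    (h1 : cub V e₁ = 0) (h2 : cub V e₂ = 0) (h3 : cub V e₃ = 0) (h12 : e₁ ≠ e₂) (h13 : e₁ ≠ e₃)
    (h23 : e₂ ≠ e₃) (P : V.toAffine.Point) : ∃ Q, Q + Q = P := by
  rcases P with _ | ⟨x, y, h⟩
  · exact ⟨0, add_zero 0⟩
  · obtain ⟨e, ha2, ha4, ha6⟩ := third_root h1 h2 h12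
    have he3 : e = e₃ := by
      have : (e₃ - e₁) * (e₃ - e₂) * (e₃ - e) = 0 := by
        simp only [cub] at h3
        rw [ha2, ha4, ha6] at h3
        linear_combination h3
      rcases mul_eq_zero.mp this with h7 | h7
      · rcases mul_eq_zero.mp h7 with h8 | h8
        · exact absurd (sub_eq_zero.mp h8).symm h13
        · exact absurd (sub_eq_zero.mp h8).symm h23
      · exact (sub_eq_zero.mp h7).symm
    subst he3
    have heq := (hV.equation_iff x y).mp h.1
    obtain ⟨r₁, hr₁⟩ := hsq (x - e₁)
    obtain ⟨r₂, hr₂⟩ := hsq (x - e₂)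
    obtain ⟨r₃, hr₃⟩ := hsq (x - e)
    have hprod : (r₁ * r₂ * r₃) ^ 2 = y ^ 2 := by
      rw [heq, cub, ha2, ha4, ha6, mul_pow, mul_pow, hr₁, hr₂, hr₃]; ring
    obtain ⟨s₁, hs₁, hs₁y⟩ : ∃ s₁, s₁ ^ 2 = x - e₁ ∧ s₁ * r₂ * r₃ = y := by
      rcases sq_eq_sq_iff_eq_or_eq_neg.mp hprod with h4 | h4
      · exact ⟨r₁, hr₁, h4⟩
      · exact ⟨-r₁, by rw [← hr₁]; ring, by linear_combination -h4⟩
    have n12 : s₁ + r₂ ≠ 0 := fun h0 => h12 (by linear_combination hs₁ - hr₂ - (s₁ - r₂) * h0)
    have n13 : s₁ + r₃ ≠ 0 := fun h0 => h13 (by linear_combination hs₁ - hr₃ - (s₁ - r₃) * h0)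
    have n23 : r₂ + r₃ ≠ 0 := fun h0 => h23 (by linear_combination hr₂ - hr₃ - (r₂ - r₃) * h0)
    set X := x + s₁ * r₂ + s₁ * r₃ + r₂ * r₃ with hX
    set Y := (s₁ + r₂) * (s₁ + r₃) * (r₂ + r₃) with hY
    have hYne : Y ≠ 0 := mul_ne_zero (mul_ne_zero n12 n13) n23
    have e1 : e₁ = x - s₁ ^ 2 := by rw [hs₁]; ring
    have e2 : e₂ = x - r₂ ^ 2 := by rw [hr₂]; ring
    have e3 : e = x - r₃ ^ 2 := by rw [hr₃]; ring
    have hXY : Y ^ 2 = cub V X := by
      rw [cub, ha2, ha4, ha6, e1, e2, e3, hX, hY]; ring
    have hns : V.toAffine.Nonsingular X Y := by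
      rw [Affine.nonsingular_iff, hV.equation_iff]
      refine ⟨hXY, Or.inr ?_⟩
      rw [hV.a1, hV.a3]
      intro h0
      apply hYne
      have : (2 : M) * Y = 0 := by linear_combination h0
      exact (mul_eq_zero.mp this).resolve_left hV.two
    refine ⟨.some X Y hns, ?_⟩
    obtain ⟨x', y', h', hadd, hx', hy'⟩ := hV.double hns hYne
    have hsl : dcub V X / (2 * Y) = s₁ + r₂ + r₃ := by
      have := hV.two
      rw [div_eq_iff (mul_ne_zero this hYne), dcub, ha2, ha4, e1, e2, e3, hX, hY]
      ring
    rw [hsl] at hx' hy'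
    have hx'' : x' = x := by
      rw [hx', ha2, e1, e2, e3, hX]; ring
    have hy'' : y' = y := by
      rw [hy', hx'', ← hs₁y, hX, hY]; ring
    rw [hadd, Point.some.injEq]
    exact ⟨hx'', hy''⟩

end Pool.Agent.MP1bdb59
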