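import Mathlib
import Pool.Agent.MP1bdb59.Defs
import Pool.Agent.MP1bdb59.Points

/-!
# Kummer theory for the 2-torsion of an elliptic curve through the cubic algebra
-/

open WeierstrassCurve WeierstrassCurve.Affine IntermediateField

noncomputable section

open scoped Classical

namespace Pool.Agent.MP1bdb59

universe u v

/-- If `W` has `a₁ = a₃ = 0`, `2 ≠ 0` and nonzero discriminant then it is `Good` over every
extension. -/
lemma good_baseChange {K : Type u} [Field K] {W : WeierstrassCurve K} (h1 : W.a₁ = 0)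
    (h3 : W.a₃ = 0) (h2 : (2 : K) ≠ 0) (hΔ : W.Δ ≠ 0) (F : Type v) [Field F] [Algebra K F] :
    Good (W⁄F) where
  a1 := by rw [bc_a₁, h1, map_zero]
  a3 := by rw [bc_a₃, h3, map_zero]
  two := by
    have h4 : (algebraMap K F) 2 ≠ 0 := by
      rwa [Ne, map_eq_zero]
    rwa [map_ofNat] at h4
  sep := by
    intro e he hd
    apply hΔ
    have hinj : Function.Injective (algebraMap K F) := (algebraMap K F).injective
    apply hinj
    rw [map_zero]
    simp only [cub, dcub, bc_a₂, bc_a₄, bc_a₆] at he hd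
    simp only [WeierstrassCurve.Δ, WeierstrassCurve.b₂, WeierstrassCurve.b₄, WeierstrassCurve.b₆,
      WeierstrassCurve.b₈, h1, h3]
    simp only [map_sub, map_add, map_mul, map_pow, map_neg, map_zero, map_ofNat]
    set a := algebraMap K F W.a₂
    set b := algebraMap K F W.a₄
    set c := algebraMap K F W.a₆
    have hb : b = -(3 * e ^ 2 + 2 * a * e) := by linear_combination hd
    have hc : c = -(e ^ 3 + a * e ^ 2 + b * e) := by linear_combination he
    rw [hc, hb]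
    ring

section Embeddings

variable {K : Type u} [Field K] {L : Type v} [Field L] [Algebra K L]

/-- composition of an embedding with a Galois automorphism. -/
def gact (σ : AbsGal K) (ψ : L →ₐ[K] Sep K) : L →ₐ[K] Sep K := (σ : Sep K →ₐ[K] Sep K).comp ψ

@[simp] lemma gact_apply (σ : AbsGal K) (ψ : L →ₐ[K] Sep K) (x : L) : gact σ ψ x = σ (ψ x) := rfl

lemma gact_mul (σ τ : AbsGal K) (ψ : L →ₐ[K] Sep K) : gact (σ * τ) ψ = gact σ (gact τ ψ) := rfl

lemma gact_one (ψ : L →ₐ[K] Sep K) : gact 1 ψ = ψ := by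
  apply AlgHom.ext; intro x; rfl

lemma gact_inv_self (σ : AbsGal K) (ψ : L →ₐ[K] Sep K) : gact σ⁻¹ (gact σ ψ) = ψ := by
  rw [← gact_mul, inv_mul_cancel, gact_one]

lemma gact_self_inv (σ : AbsGal K) (ψ : L →ₐ[K] Sep K) : gact σ (gact σ⁻¹ ψ) = ψ := by
  rw [← gact_mul, mul_inv_cancel, gact_one]

/-- The permutation of the embeddings given by `σ`. -/
def gperm (σ : AbsGal K) : (L →ₐ[K] Sep K) ≃ (L →ₐ[K] Sep K) where
  toFun := gact σ
  invFun := gact σ⁻¹
  left_inv := gact_inv_self σ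
  right_inv := gact_self_inv σ

set_option backward.isDefEq.respectTransparency false in
/-- Any two embeddings of `L` in the separable closure are conjugate. -/
lemma exists_gact_eq (ψ ψ' : L →ₐ[K] Sep K) : ∃ τ : AbsGal K, gact τ ψ = ψ' := by
  let f : L ≃ₐ[K] ψ.fieldRange := AlgEquiv.ofInjectiveField ψ
  let f' : L ≃ₐ[K] ψ'.fieldRange := AlgEquiv.ofInjectiveField ψ'
  let e : ψ.fieldRange ≃ₐ[K] ψ'.fieldRange := f.symm.trans f'
  refine ⟨e.liftNormal (Sep K), ?_⟩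
  apply AlgHom.ext
  intro x
  have h := e.liftNormal_commutes (Sep K) (f x)
  have h2 : e (f x) = f' x := by
    change f' (f.symm (f x)) = f' x
    rw [AlgEquiv.symm_apply_apply]
  rw [h2] at h
  exact h

variable [FiniteDimensional K L] [Algebra.IsSeparable K L]

lemma card_embeddings : Fintype.card (L →ₐ[K] Sep K) = Module.finrank K L := by
  apply AlgHom.card_of_splits
  intro x
  exact IsSepClosed.splits_codomain _ (Algebra.IsSeparable.isSeparable K x)

lemma norm_eq_prod_sep (x : L) :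
    algebraMap K (Sep K) (Algebra.norm K x) = ∏ ψ : L →ₐ[K] Sep K, ψ x := by
  let j : Sep K →ₐ[K] AlgebraicClosure K := IsAlgClosed.lift
  apply j.injective
  change j _ = j _
  rw [j.commutes, Algebra.norm_eq_prod_embeddings K (AlgebraicClosure K) x, map_prod]
  have hinj : Function.Injective (fun ψ : L →ₐ[K] Sep K => j.comp ψ) := by
    intro ψ ψ' h
    apply AlgHom.ext
    intro x
    have := DFunLike.congr_fun h x
    exact j.injective this
  have hbij : Function.Bijective (fun ψ : L →ₐ[K] Sep K => j.comp ψ) := by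
    rw [Fintype.bijective_iff_injective_and_card]
    refine ⟨hinj, ?_⟩
    rw [card_embeddings, AlgHom.card]
  exact (Fintype.prod_bijective _ hbij _ _ (fun ψ => rfl)).symm

end Embeddings

lemma sgn_mul_self {R : Type*} [CommRing R] (s : ℤˣ) : ((s : ℤ) : R) * ((s : ℤ) : R) = 1 := by
  rcases Int.units_eq_one_or s with rfl | rfl <;> simp

lemma sgn_mul {R : Type*} [CommRing R] (s t : ℤˣ) :
    (((s * t : ℤˣ) : ℤ) : R) = ((s : ℤ) : R) * ((t : ℤ) : R) := by
  push_cast; ring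

lemma map_sgn {F₁ F₂ : Type*} [Ring F₁] [Ring F₂] (f : F₁ →+* F₂) (s : ℤˣ) :
    f ((s : ℤ) : F₁) = ((s : ℤ) : F₂) := map_intCast f _

/-- The data of the cubic algebra: a cubic field extension `L = K[θ]` with `θ` a root of the
cubic of `W`. -/
structure CubicData {K : Type u} [Field K] (W : WeierstrassCurve K) {L : Type v} [Field L]
    [Algebra K L] [FiniteDimensional K L] [Algebra.IsSeparable K L] (θ : L) : Prop where
  h1 : W.a₁ = 0
  h3 : W.a₃ = 0
  h2 : (2 : K) ≠ 0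
  hΔ : W.Δ ≠ 0
  finrank : Module.finrank K L = 3
  gen : Algebra.adjoin K {θ} = ⊤
  root : cub (W⁄L) θ = 0

section Cubic

variable {K : Type u} [Field K] {W : WeierstrassCurve K} {L : Type v} [Field L]
    [Algebra K L] [FiniteDimensional K L] [Algebra.IsSeparable K L] {θ : L} (hC : CubicData W θ)

include hC

lemma CubicData.good (F : Type*) [Field F] [Algebra K F] : Good (W⁄F) :=
  good_baseChange hC.h1 hC.h3 hC.h2 hC.hΔ F

lemma CubicData.emb_root (ψ : L →ₐ[K] Sep K) : cub (W⁄(Sep K)) (ψ θ) = 0 := by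
  rw [cub_map (S := K) W ψ θ, hC.root, map_zero]

lemma CubicData.emb_ext {F : Type*} [Field F] [Algebra K F] {ψ ψ' : L →ₐ[K] F}
    (h : ψ θ = ψ' θ) : ψ = ψ' := by
  apply AlgHom.ext_of_adjoin_eq_top hC.gen
  intro x hx
  rw [Set.mem_singleton_iff] at hx
  subst hx
  exact h

lemma CubicData.card : Fintype.card (L →ₐ[K] Sep K) = 3 := by
  rw [← hC.finrank]
  convert card_embeddings (K := K) (L := L)

lemma CubicData.exists_enum : ∃ q : Fin 3 ≃ (L →ₐ[K] Sep K),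
    q 0 θ ≠ q 1 θ ∧ q 0 θ ≠ q 2 θ ∧ q 1 θ ≠ q 2 θ := by
  refine ⟨(Fintype.equivFinOfCardEq hC.card).symm, ?_, ?_, ?_⟩ <;>
  · intro h
    have := (Equiv.injective _) (hC.emb_ext h)
    revert this
    decide

lemma CubicData.exists_emb_of_root {e : Sep K} (he : cub (W⁄(Sep K)) e = 0) :
    ∃ ψ : L →ₐ[K] Sep K, ψ θ = e := by
  obtain ⟨q, h01, h02, h12⟩ := hC.exists_enum
  obtain ⟨e'', ha2, ha4, ha6⟩ := third_root (hC.emb_root (q 0)) (hC.emb_root (q 1)) h01
  have h3 : e'' = q 2 θ := by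
    have h := hC.emb_root (q 2)
    simp only [cub] at h
    rw [ha2, ha4, ha6] at h
    have : (q 2 θ - q 0 θ) * (q 2 θ - q 1 θ) * (q 2 θ - e'') = 0 := by linear_combination h
    rcases mul_eq_zero.mp this with h7 | h7
    · rcases mul_eq_zero.mp h7 with h8 | h8
      · exact absurd (sub_eq_zero.mp h8).symm h02
      · exact absurd (sub_eq_zero.mp h8).symm h12
    · exact (sub_eq_zero.mp h7).symm
  simp only [cub] at he
  rw [ha2, ha4, ha6, h3] at he
  have : (e - q 0 θ) * (e - q 1 θ) * (e - q 2 θ) = 0 := by linear_combination he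
  rcases mul_eq_zero.mp this with h7 | h7
  · rcases mul_eq_zero.mp h7 with h8 | h8
    · exact ⟨q 0, (sub_eq_zero.mp h8).symm⟩
    · exact ⟨q 1, (sub_eq_zero.mp h8).symm⟩
  · exact ⟨q 2, (sub_eq_zero.mp h7).symm⟩

lemma CubicData.prod_wt {S : Pts W K} (hS : S + S = 0) :
    ∏ ψ : L →ₐ[K] Sep K, wt (ψ θ) S = 1 := by
  obtain ⟨q, h01, h02, h12⟩ := hC.exists_enum
  rw [← Equiv.prod_comp q, Fin.prod_univ_three]
  rcases (hC.good (Sep K)).eq_zero_or_root S hS with rfl | ⟨e, he, rfl⟩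
  · simp [wt_zero]
  · obtain ⟨ψ, rfl⟩ := hC.exists_emb_of_root he
    obtain ⟨i, rfl⟩ := q.surjective ψ
    have key : ∀ j, wt (q j θ) (.some (q i θ) 0 ((hC.good (Sep K)).nonsingular_root he) :
        (W⁄(Sep K)).toAffine.Point) = if j = i then 1 else -1 := by
      intro j
      by_cases hij : j = i
      · subst hij
        rw [if_pos rfl, wt_self]
      · rw [if_neg hij, wt_ne]
        rintro ⟨h, -⟩
        exact hij (q.injective (hC.emb_ext h.symm))
    rw [key, key, key]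
    fin_cases i <;> decide

/-- A 2-torsion point with all signs trivial is zero. -/
lemma CubicData.eq_zero_of_wt {S : Pts W K} (hS : S + S = 0)
    (h : ∀ ψ : L →ₐ[K] Sep K, wt (ψ θ) S = 1) : S = 0 := by
  rcases (hC.good (Sep K)).eq_zero_or_root S hS with rfl | ⟨e, he, rfl⟩
  · rfl
  · exfalso
    obtain ⟨q, h01, h02, h12⟩ := hC.exists_enum
    obtain ⟨ψ, hψ⟩ : ∃ ψ : L →ₐ[K] Sep K, ψ θ ≠ e := by
      by_cases h0 : q 0 θ = e
      · exact ⟨q 1, fun h1 => h01 (h0.trans h1.symm)⟩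
      · exact ⟨q 0, h0⟩
    have := h ψ
    rw [wt_ne _ (fun hh => hψ hh.1.symm)] at this
    revert this
    decide

lemma CubicData.eq_of_wt {S S' : Pts W K} (hS : S + S = 0) (hS' : S' + S' = 0)
    (h : ∀ ψ : L →ₐ[K] Sep K, wt (ψ θ) S = wt (ψ θ) S') : S = S' := by
  rw [← sub_eq_zero]
  apply hC.eq_zero_of_wt
  · rw [sub_add_sub_comm, hS, hS', sub_zero]
  · intro ψ
    rw [(hC.good (Sep K)).wt_sub (hC.emb_root ψ) hS hS', h ψ]
    exact Int.units_mul_self _

/-- Every choice of signs with product 1 is realised by a 2-torsion point. -/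
lemma CubicData.exists_of_signs (s : (L →ₐ[K] Sep K) → ℤˣ) (hs : ∏ ψ, s ψ = 1) :
    ∃ T : Pts W K, T + T = 0 ∧ ∀ ψ : L →ₐ[K] Sep K, wt (ψ θ) T = s ψ := by
  obtain ⟨q, h01, h02, h12⟩ := hC.exists_enum
  rw [← Equiv.prod_comp q, Fin.prod_univ_three] at hs
  have hT : ∀ i : Fin 3, ∃ T : Pts W K, T + T = 0 ∧ ∀ j, wt (q j θ) T = if j = i then 1 else -1 := by
    intro i
    refine ⟨.some (q i θ) 0 ((hC.good (Sep K)).nonsingular_root (hC.emb_root (q i))),
      (hC.good (Sep K)).add_self_root _, fun j => ?_⟩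
    by_cases hij : j = i
    · subst hij
      rw [if_pos rfl, wt_self]
    · rw [if_neg hij, wt_ne]
      rintro ⟨h, -⟩
      exact hij (q.injective (hC.emb_ext h.symm))
  have main : ∃ T : Pts W K, T + T = 0 ∧ ∀ j, wt (q j θ) T = s (q j) := by
    rcases Int.units_eq_one_or (s (q 0)) with h0 | h0 <;>
    rcases Int.units_eq_one_or (s (q 1)) with h1 | h1 <;>
    rcases Int.units_eq_one_or (s (q 2)) with h2 | h2 <;>
    simp only [h0, h1, h2] at hs
    · exact ⟨0, add_zero 0, fun j => by fin_cases j <;> simp [wt_zero, h0, h1, h2]⟩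
    · exact absurd hs (by decide)
    · exact absurd hs (by decide)
    · obtain ⟨T, hT1, hT2⟩ := hT 0
      exact ⟨T, hT1, fun j => by fin_cases j <;> simp [hT2, h0, h1, h2]⟩
    · exact absurd hs (by decide)
    · obtain ⟨T, hT1, hT2⟩ := hT 1
      exact ⟨T, hT1, fun j => by fin_cases j <;> simp [hT2, h0, h1, h2]⟩
    · obtain ⟨T, hT1, hT2⟩ := hT 2
      exact ⟨T, hT1, fun j => by fin_cases j <;> simp [hT2, h0, h1, h2]⟩
    · exact absurd hs (by decide)
  obtain ⟨T, hT1, hT2⟩ := main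
  refine ⟨T, hT1, fun ψ => ?_⟩
  obtain ⟨j, rfl⟩ := q.surjective ψ
  exact hT2 j

/-- Kummer data for a cocycle `c` with values in the 2-torsion: an element `α` of the cubic field
and square roots `B ψ` of all its conjugates on which Galois acts through the signs of `c`. -/
structure KumData (W : WeierstrassCurve K) (θ : L) (c : AbsGal K → Pts W K) (α : L)
    (B : (L →ₐ[K] Sep K) → Sep K) : Prop where
  ne : α ≠ 0
  sq : ∀ ψ, B ψ ^ 2 = ψ α
  act : ∀ (ρ : AbsGal K) (ψ : L →ₐ[K] Sep K),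
    ρ (B ψ) = (((wt (ρ (ψ θ)) (c ρ) : ℤˣ) : ℤ) : Sep K) * B (gact ρ ψ)

omit [FiniteDimensional K L] [Algebra.IsSeparable K L] hC in
lemma KumData.B_ne {c : AbsGal K → Pts W K} {α : L} {B : (L →ₐ[K] Sep K) → Sep K}
    (h : KumData W θ c α B) (ψ : L →ₐ[K] Sep K) : B ψ ≠ 0 := by
  intro h0
  have := h.sq ψ
  rw [h0] at this
  apply h.ne
  apply ψ.injective
  change ψ α = ψ 0
  rw [← this, map_zero]
  ring

/-- The norm of the Kummer class is a square. -/
lemma CubicData.isSquare_norm {c : AbsGal K → Pts W K} (hc : ∀ σ, c σ + c σ = 0) {α : L}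
    {B : (L →ₐ[K] Sep K) → Sep K} (h : KumData W θ c α B) : IsSquare (Algebra.norm K α) := by
  have hfix : ∀ ρ : AbsGal K, ρ (∏ ψ, B ψ) = ∏ ψ, B ψ := by
    intro ρ
    rw [map_prod]
    simp_rw [h.act ρ]
    rw [Finset.prod_mul_distrib]
    have h1 : ∏ ψ : L →ₐ[K] Sep K, B (gact ρ ψ) = ∏ ψ, B ψ :=
      Equiv.prod_comp (gperm ρ) B
    have h2 : ∏ ψ : L →ₐ[K] Sep K, (((wt (ρ (ψ θ)) (c ρ) : ℤˣ) : ℤ) : Sep K) = 1 := by
      have h3 : ∏ ψ : L →ₐ[K] Sep K, (((wt (ρ (ψ θ)) (c ρ) : ℤˣ) : ℤ) : Sep K) =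
          ∏ ψ : L →ₐ[K] Sep K, (((wt (ψ θ) (c ρ) : ℤˣ) : ℤ) : Sep K) :=
        Equiv.prod_comp (gperm ρ)
          (fun ψ : L →ₐ[K] Sep K => (((wt (ψ θ) (c ρ) : ℤˣ) : ℤ) : Sep K))
      rw [h3]
      have h4 := congrArg (fun s : ℤˣ => ((s : ℤ) : Sep K)) (hC.prod_wt (hc ρ))
      simpa using h4
    rw [h1, h2, one_mul]
  obtain ⟨b, hb⟩ := (InfiniteGalois.mem_range_algebraMap_iff_fixed (k := K)
    (K := Sep K) (∏ ψ, B ψ)).mpr hfix
  refine ⟨b, ?_⟩
  apply (algebraMap K (Sep K)).injective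
  rw [norm_eq_prod_sep, map_mul, hb, ← Finset.prod_mul_distrib]
  exact Finset.prod_congr rfl (fun ψ _ => by rw [← h.sq ψ]; ring)

/-- If the Kummer class is a square, then the cocycle is the coboundary of a 2-torsion point. -/
lemma CubicData.coboundary_of_isSquare {c : AbsGal K → Pts W K} (hc : ∀ σ, c σ + c σ = 0) {α : L}
    {B : (L →ₐ[K] Sep K) → Sep K} (h : KumData W θ c α B) (hα : IsSquare α) :
    ∃ T : Pts W K, T + T = 0 ∧ ∀ σ, c σ = act W K σ T - T := by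
  obtain ⟨l, hl⟩ := hα
  have hl0 : l ≠ 0 := by
    rintro rfl
    exact h.ne (by rw [hl]; ring)
  have hs : ∀ ψ : L →ₐ[K] Sep K, ∃ s : ℤˣ, B ψ = ((s : ℤ) : Sep K) * ψ l := by
    intro ψ
    have h1 : B ψ ^ 2 = (ψ l) ^ 2 := by rw [h.sq, hl, map_mul]; ring
    rcases sq_eq_sq_iff_eq_or_eq_neg.mp h1 with h2 | h2
    · exact ⟨1, by rw [h2]; simp⟩
    · exact ⟨-1, by rw [h2]; simp⟩
  choose s hs using hs
  have hrel : ∀ (ρ : AbsGal K) (ψ : L →ₐ[K] Sep K),
      wt (ρ (ψ θ)) (c ρ) = s ψ * s (gact ρ ψ) := by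
    intro ρ ψ
    have h1 := h.act ρ ψ
    rw [hs ψ, hs (gact ρ ψ), map_mul, map_intCast, gact_apply] at h1
    have h2 : ρ (ψ l) ≠ 0 := by
      rw [Ne, map_eq_zero, map_eq_zero]; exact hl0
    have h3 : ((s ψ : ℤ) : Sep K) = (((wt (ρ (ψ θ)) (c ρ) : ℤˣ) : ℤ) : Sep K) *
        ((s (gact ρ ψ) : ℤ) : Sep K) := by
      apply mul_right_cancel₀ h2
      rw [h1]; ring
    rw [← sgn_mul] at h3
    have h4 := units_cast_inj (hC.good (Sep K)).two h3
    rw [h4, mul_assoc, Int.units_mul_self, mul_one]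
  -- adjust the global sign so that the product of the signs is one
  obtain ⟨t, ht⟩ : ∃ t : ℤˣ, ∏ ψ : L →ₐ[K] Sep K, (t * s ψ) = 1 := by
    refine ⟨∏ ψ : L →ₐ[K] Sep K, s ψ, ?_⟩
    rw [Finset.prod_mul_distrib, Finset.prod_const, Finset.card_univ, hC.card]
    rcases Int.units_eq_one_or (∏ ψ : L →ₐ[K] Sep K, s ψ) with h0 | h0 <;> rw [h0] <;> decide
  obtain ⟨T, hT, hT'⟩ := hC.exists_of_signs _ ht
  refine ⟨T, hT, fun σ => ?_⟩
  have hTσ : act W K σ T + act W K σ T = 0 := by rw [← map_add, hT, map_zero]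
  apply hC.eq_of_wt (hc σ)
  · rw [sub_add_sub_comm, hTσ, hT, sub_zero]
  · intro ψ
    rw [(hC.good (Sep K)).wt_sub (hC.emb_root ψ) hTσ hT]
    obtain ⟨ψ', rfl⟩ : ∃ ψ', gact σ ψ' = ψ := ⟨gact σ⁻¹ ψ, gact_self_inv σ ψ⟩
    have h5 : wt (gact σ ψ' θ) (act W K σ T) = wt (ψ' θ) T := wt_map W _ _ T
    rw [h5, hT', hT', gact_apply, hrel]
    have : t * s ψ' * (t * s (gact σ ψ')) = (t * t) * (s ψ' * s (gact σ ψ')) := by
      simp only [mul_assoc, mul_left_comm]
    rw [this, Int.units_mul_self, one_mul]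

/-- The sign at a root is multiplicative along the cocycle. -/
lemma CubicData.wt_cocycle {c : AbsGal K → Pts W K}
    (hcoc : ∀ σ τ : AbsGal K, c (σ * τ) = c σ + act W K σ (c τ)) (hc : ∀ σ, c σ + c σ = 0)
    (σ τ : AbsGal K) (ψ : L →ₐ[K] Sep K) :
    wt (gact (σ * τ) ψ θ) (c (σ * τ)) = wt (gact σ (gact τ ψ) θ) (c σ) * wt (gact τ ψ θ) (c τ) := by
  have hτ : act W K σ (c τ) + act W K σ (c τ) = 0 := by rw [← map_add, hc, map_zero]
  rw [hcoc, (hC.good (Sep K)).wt_add (hC.emb_root _) (hc σ) hτ, gact_mul]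
  congr 1
  exact wt_map W _ _ (c τ)

/-- Existence of Kummer data for a continuous cocycle with values in the 2-torsion. -/
lemma CubicData.exists_kumData {c : AbsGal K → Pts W K} (hcont : IsLocallyConstant c)
    (hcoc : ∀ σ τ : AbsGal K, c (σ * τ) = c σ + act W K σ (c τ)) (hc : ∀ σ, c σ + c σ = 0) :
    ∃ (α : L) (B : (L →ₐ[K] Sep K) → Sep K), KumData W θ c α B := by
  have h2 := (hC.good (Sep K)).two
  let ψ₀ : L →ₐ[K] Sep K := IsSepClosed.lift
  set e₀ := ψ₀ θ with he₀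
  have hc1 : c 1 = 0 := by
    have := hcoc 1 1
    rw [one_mul, act_one] at this
    exact left_eq_add.mp this
  -- the stabiliser of `ψ₀` inside which the sign is trivial
  let N : Subgroup (AbsGal K) :=
    { carrier := {σ | gact σ ψ₀ = ψ₀ ∧ wt e₀ (c σ) = 1}
      one_mem' := ⟨gact_one _, by rw [hc1, wt_zero]⟩
      mul_mem' := by
        rintro σ τ ⟨hσ, hσ'⟩ ⟨hτ, hτ'⟩
        have h1 := hC.wt_cocycle hcoc hc σ τ ψ₀
        rw [gact_mul, hτ, hσ, ← he₀, hσ', hτ'] at h1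
        exact ⟨by rw [gact_mul, hτ, hσ], by rw [h1]; rfl⟩
      inv_mem' := by
        rintro σ ⟨hσ, hσ'⟩
        have h0 : gact σ⁻¹ ψ₀ = ψ₀ := by
          conv_lhs => rw [← hσ]
          exact gact_inv_self σ ψ₀
        have h1 := hC.wt_cocycle hcoc hc σ⁻¹ σ ψ₀
        rw [gact_mul, hσ, h0, ← he₀, hσ', mul_one, inv_mul_cancel, hc1, wt_zero] at h1
        exact ⟨h0, h1.symm⟩ }
  have hNmem : ∀ σ, σ ∈ N ↔ (gact σ ψ₀ = ψ₀ ∧ wt e₀ (c σ) = 1) := fun σ => Iff.rfl
  have hfixopen : {σ : AbsGal K | gact σ ψ₀ = ψ₀} ∈ nhds (1 : AbsGal K) := by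
    rw [krullTopology_mem_nhds_one_iff]
    refine ⟨K⟮e₀⟯, adjoin.finiteDimensional (Algebra.IsIntegral.isIntegral e₀), ?_⟩
    intro σ hσ
    rw [SetLike.mem_coe, IntermediateField.mem_fixingSubgroup_iff] at hσ
    exact hC.emb_ext (hσ _ (mem_adjoin_simple_self K e₀))
  have hNopen : IsOpen (N : Set (AbsGal K)) := by
    apply Subgroup.isOpen_of_mem_nhds N (g := 1)
    have h1 : {σ : AbsGal K | c σ = 0} ∈ nhds (1 : AbsGal K) := by
      have h3 := (hcont.isOpen_fiber 0)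
      exact h3.mem_nhds hc1
    filter_upwards [hfixopen, h1] with σ hσ hσ'
    have hσ'' : c σ = 0 := hσ'
    exact ⟨hσ, by rw [hσ'', wt_zero]⟩
  have hNclosed : IsClosed (N : Set (AbsGal K)) := Subgroup.isClosed_of_isOpen N hNopen
  -- the element `β`
  have hβ : ∃ β : Sep K, β ≠ 0 ∧ ∀ σ : AbsGal K, gact σ ψ₀ = ψ₀ →
      σ β = (((wt e₀ (c σ) : ℤˣ) : ℤ) : Sep K) * β := by
    by_cases hall : ∀ σ : AbsGal K, gact σ ψ₀ = ψ₀ → wt e₀ (c σ) = 1
    · refine ⟨1, one_ne_zero, fun σ hσ => ?_⟩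
      rw [hall σ hσ]; simp
    · push Not at hall
      obtain ⟨τ, hτ, hτ'⟩ := hall
      have hτN : τ ∉ N := fun h => hτ' h.2
      have hfix := InfiniteGalois.fixingSubgroup_fixedField (k := K) (K := Sep K) ⟨N, hNclosed⟩
      have hτ2 : τ ∉ (fixedField N).fixingSubgroup := by
        intro h
        apply hτN
        have : (fixedField N).fixingSubgroup = N := hfix
        rwa [this] at h
      rw [IntermediateField.mem_fixingSubgroup_iff] at hτ2
      push Not at hτ2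
      obtain ⟨γ, hγ, hγτ⟩ := hτ2
      have hγN : ∀ σ ∈ N, σ γ = γ := fun σ hσ => (mem_fixedField_iff _ _).mp hγ σ hσ
      have hneg : ∀ s : ℤˣ, s ≠ 1 → s = -1 := fun s hs => (Int.units_eq_one_or s).resolve_left hs
      have hτ3 := hneg _ hτ'
      -- products of two elements with sign -1
      have hmul : ∀ σ ρ : AbsGal K, gact σ ψ₀ = ψ₀ → gact ρ ψ₀ = ψ₀ →
          wt e₀ (c (σ * ρ)) = wt e₀ (c σ) * wt e₀ (c ρ) := by
        intro σ ρ hσ hρ
        have h1 := hC.wt_cocycle hcoc hc σ ρ ψ₀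
        rwa [gact_mul, hρ, hσ] at h1
      have hτinv : gact τ⁻¹ ψ₀ = ψ₀ := by
        conv_lhs => rw [← hτ]
        exact gact_inv_self τ ψ₀
      have hτinv' : wt e₀ (c τ⁻¹) = -1 := by
        have h1 := hmul τ⁻¹ τ hτinv hτ
        rw [inv_mul_cancel, hc1, wt_zero, hτ3] at h1
        rcases Int.units_eq_one_or (wt e₀ (c τ⁻¹)) with h4 | h4
        · rw [h4] at h1; exact absurd h1 (by decide)
        · exact h4
      refine ⟨γ - τ γ, sub_ne_zero.mpr (Ne.symm hγτ), fun σ hσ => ?_⟩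
      rcases Int.units_eq_one_or (wt e₀ (c σ)) with h4 | h4
      · have hσN : σ ∈ N := ⟨hσ, h4⟩
        have h5 : τ⁻¹ * σ * τ ∈ N := by
          refine ⟨by rw [gact_mul, gact_mul, hτ, hσ, hτinv], ?_⟩
          rw [hmul _ _ (by rw [gact_mul, hσ, hτinv]) hτ, hmul _ _ hτinv hσ, hτinv', h4, hτ3]
          decide
        have h6 := hγN _ h5
        have h7 : σ (τ γ) = τ γ := by
          have : σ (τ γ) = τ ((τ⁻¹ * σ * τ) γ) := by
            rw [← AlgEquiv.mul_apply, ← AlgEquiv.mul_apply]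
            congr 1
            group
          rw [this, h6]
        rw [h4, map_sub, hγN σ hσN, h7]
        simp
      · have h5 : τ⁻¹ * σ ∈ N := by
          refine ⟨by rw [gact_mul, hσ, hτinv], ?_⟩
          rw [hmul _ _ hτinv hσ, hτinv', h4]
          decide
        have h6 : σ * τ ∈ N := by
          refine ⟨by rw [gact_mul, hτ, hσ], ?_⟩
          rw [hmul _ _ hσ hτ, hτ3, h4]
          decide
        have h7 : σ γ = τ γ := by
          have : σ γ = τ ((τ⁻¹ * σ) γ) := by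
            rw [← AlgEquiv.mul_apply]
            congr 1
            group
          rw [this, hγN _ h5]
        have h8 : σ (τ γ) = γ := hγN _ h6
        rw [h4, map_sub, h7, h8]
        simp
  obtain ⟨β, hβ0, hβ⟩ := hβ
  -- `β ^ 2` comes from `L`
  have hα : ∃ α : L, ψ₀ α = β ^ 2 := by
    have h1 : β ^ 2 ∈ fixedField (ψ₀.fieldRange.fixingSubgroup) := by
      rw [mem_fixedField_iff]
      intro σ hσ
      rw [IntermediateField.mem_fixingSubgroup_iff] at hσ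
      have h3 : gact σ ψ₀ = ψ₀ := AlgHom.ext fun x => hσ _ ⟨x, rfl⟩
      rw [map_pow, hβ σ h3, mul_pow, pow_two (((wt e₀ (c σ) : ℤˣ) : ℤ) : Sep K), sgn_mul_self, one_mul]
    rw [InfiniteGalois.fixedField_fixingSubgroup] at h1
    exact h1
  obtain ⟨α, hα⟩ := hα
  choose τ hτ using fun ψ : L →ₐ[K] Sep K => exists_gact_eq ψ₀ ψ
  have hwd : ∀ (ρ : AbsGal K) (ψ : L →ₐ[K] Sep K), gact ρ ψ₀ = ψ →
      (((wt (ψ θ) (c ρ) : ℤˣ) : ℤ) : Sep K) * ρ β =
        (((wt (ψ θ) (c (τ ψ)) : ℤˣ) : ℤ) : Sep K) * (τ ψ) β := by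
    intro ρ ψ hρ
    have h3 : gact ((τ ψ)⁻¹ * ρ) ψ₀ = ψ₀ := by
      have h31 := gact_inv_self (τ ψ) ψ₀
      rw [hτ ψ] at h31
      rw [gact_mul, hρ, h31]
    have h4 := hC.wt_cocycle hcoc hc (τ ψ) ((τ ψ)⁻¹ * ρ) ψ₀
    rw [mul_inv_cancel_left, h3, hρ, hτ ψ] at h4
    have h5 : ρ β = (τ ψ) (((τ ψ)⁻¹ * ρ) β) := by
      rw [← AlgEquiv.mul_apply, mul_inv_cancel_left]
    rw [h5, hβ _ h3, h4, map_mul, map_intCast, sgn_mul]
    have h6 := sgn_mul_self (R := Sep K) (wt e₀ (c ((τ ψ)⁻¹ * ρ)))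
    linear_combination ((((wt (ψ θ) (c (τ ψ)) : ℤˣ) : ℤ) : Sep K) * (τ ψ) β) * h6
  refine ⟨α, fun ψ => (((wt (ψ θ) (c (τ ψ)) : ℤˣ) : ℤ) : Sep K) * (τ ψ) β, ?_, ?_, ?_⟩
  · rintro rfl
    rw [map_zero] at hα
    exact hβ0 (pow_eq_zero_iff (two_ne_zero)|>.mp hα.symm)
  · intro ψ
    rw [mul_pow, pow_two (((wt (ψ θ) (c (τ ψ)) : ℤˣ) : ℤ) : Sep K), sgn_mul_self, one_mul,
      ← map_pow, ← hα]
    exact DFunLike.congr_fun (hτ ψ) α
  · intro ρ ψ
    have h3 : gact (ρ * τ ψ) ψ₀ = gact ρ ψ := by rw [gact_mul, hτ]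
    have h4 := hwd _ _ h3
    have h5 := hC.wt_cocycle hcoc hc ρ (τ ψ) ψ₀
    rw [h3, hτ ψ] at h5
    rw [← h4, h5, map_mul, map_intCast, sgn_mul, AlgEquiv.mul_apply]
    have h6 := sgn_mul_self (R := Sep K) (wt (ρ (ψ θ)) (c ρ))
    have h7 : (gact ρ ψ) θ = ρ (ψ θ) := rfl
    rw [h7]
    linear_combination (-(((wt (ψ θ) (c (τ ψ)) : ℤˣ) : ℤ) : Sep K) * ρ ((τ ψ) β)) * h6

end Cubic

end Pool.Agent.MP1bdb59
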