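import Mathlib
import Pool.Agent.MP1bdb59.Kummer

/-!
# The local condition at one place
-/

open WeierstrassCurve WeierstrassCurve.Affine IntermediateField

noncomputable section

open scoped Classical

namespace Pool.Agent.MP1bdb59

universe u v

section

variable {K : Type*} [Field K] {W : WeierstrassCurve K}

/-- A Galois-invariant point has coordinates in the base field. -/
lemma exists_descent {F : Type*} [Field F] [Algebra K F] (P : Pts W F)
    (h : ∀ σ : AbsGal F, act W F σ P = P) :
    ∃ P₀ : (W⁄F).toAffine.Point, Point.map (W' := W) (Algebra.ofId F (Sep F)) P₀ = P := by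
  rcases P with _ | ⟨x, y, hxy⟩
  · exact ⟨0, rfl⟩
  · have hx : ∀ σ : AbsGal F, σ x = x ∧ σ y = y := by
      intro σ
      have := h σ
      simp only [act, Point.map_some, Point.some.injEq] at this
      exact this
    obtain ⟨x₀, hx₀⟩ := (InfiniteGalois.mem_range_algebraMap_iff_fixed (k := F)
      (K := Sep F) x).mpr (fun σ => (hx σ).1)
    obtain ⟨y₀, hy₀⟩ := (InfiniteGalois.mem_range_algebraMap_iff_fixed (k := F)
      (K := Sep F) y).mpr (fun σ => (hx σ).2)
    subst hx₀
    subst hy₀
    have h₀ : (W⁄F).toAffine.Nonsingular x₀ y₀ :=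
      (W.toAffine.baseChange_nonsingular (f := Algebra.ofId F (Sep F))
        (Algebra.ofId F (Sep F)).injective x₀ y₀).mp hxy
    exact ⟨.some x₀ y₀ h₀, rfl⟩

variable {L : Type*} [Field L] [Algebra K L] [FiniteDimensional K L] [Algebra.IsSeparable K L]
  {θ : L} (hC : CubicData W θ)

include hC

lemma CubicData.exists_emb_of_root' {F' : Type*} [Field F'] [Algebra K F'] (ι : Sep K →ₐ[K] F')
    {e : F'} (he : cub (W⁄F') e = 0) : ∃ ψ : L →ₐ[K] Sep K, ι (ψ θ) = e := by
  obtain ⟨q, h01, h02, h12⟩ := hC.exists_enum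
  have hr : ∀ i, cub (W⁄F') (ι (q i θ)) = 0 := fun i => by
    rw [cub_map (S := K) W ι, hC.emb_root, map_zero]
  have hne : ∀ {i j}, q i θ ≠ q j θ → ι (q i θ) ≠ ι (q j θ) := fun h h' => h (ι.injective h')
  obtain ⟨e'', ha2, ha4, ha6⟩ := third_root (hr 0) (hr 1) (hne h01)
  have h3 : e'' = ι (q 2 θ) := by
    have h := hr 2
    simp only [cub] at h
    rw [ha2, ha4, ha6] at h
    have : (ι (q 2 θ) - ι (q 0 θ)) * (ι (q 2 θ) - ι (q 1 θ)) * (ι (q 2 θ) - e'') = 0 := by
      linear_combination h
    rcases mul_eq_zero.mp this with h7 | h7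
    · rcases mul_eq_zero.mp h7 with h8 | h8
      · exact absurd (sub_eq_zero.mp h8).symm (hne h02)
      · exact absurd (sub_eq_zero.mp h8).symm (hne h12)
    · exact (sub_eq_zero.mp h7).symm
  simp only [cub] at he
  rw [ha2, ha4, ha6, h3] at he
  have : (e - ι (q 0 θ)) * (e - ι (q 1 θ)) * (e - ι (q 2 θ)) = 0 := by linear_combination he
  rcases mul_eq_zero.mp this with h7 | h7
  · rcases mul_eq_zero.mp h7 with h8 | h8
    · exact ⟨q 0, (sub_eq_zero.mp h8).symm⟩
    · exact ⟨q 1, (sub_eq_zero.mp h8).symm⟩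
  · exact ⟨q 2, (sub_eq_zero.mp h7).symm⟩

/-- The local condition: if the cocycle `c` with values in the 2-torsion becomes a coboundary of
the point `R` over `F`, then `2R` is defined over `F` and the Kummer class `α` equals its image
under the local descent map up to squares, in every field `M` containing `F` and `L`. -/
theorem CubicData.local_image {c : AbsGal K → Pts W K} (hc : ∀ σ, c σ + c σ = 0) {α : L}
    {B : (L →ₐ[K] Sep K) → Sep K} (hk : KumData W θ c α B)
    {F : Type*} [Field F] [Algebra K F] {R : Pts W F}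
    (hR : ∀ σ : AbsGal F, embPts F W (c (resGal K F σ)) = act W F σ R - R) :
    ∃ P : (W⁄F).toAffine.Point, ∀ {M : Type u} [Field M] [Algebra K M] [Algebra F M]
      [IsScalarTower K F M] (l : L →ₐ[K] M),
      ∃ q : M, q ≠ 0 ∧ l α = q ^ 2 * dl (l θ) (Point.map (W' := W) (Algebra.ofId F M) P) := by
  have h2R : ∀ σ : AbsGal F, act W F σ (R + R) = R + R := by
    intro σ
    have h1 := hR σ
    have h2 : embPts F W (c (resGal K F σ)) + embPts F W (c (resGal K F σ)) = 0 := by
      rw [← map_add, hc, map_zero]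
    rw [h1] at h2
    rw [map_add, ← sub_eq_zero, ← h2]
    abel
  obtain ⟨P, hP⟩ := exists_descent (R + R) h2R
  refine ⟨P, ?_⟩
  intro M _ _ _ _ l
  have hst : IsScalarTower K F (Sep M) := by
    apply IsScalarTower.of_algebraMap_eq'
    rw [IsScalarTower.algebraMap_eq K M (Sep M), IsScalarTower.algebraMap_eq F M (Sep M),
      IsScalarTower.algebraMap_eq K F M, RingHom.comp_assoc]
  set j : Sep F →ₐ[K] Sep M := (emb F M).restrictScalars K with hj
  set ι : Sep K →ₐ[K] Sep M := j.comp (emb K F) with hι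
  set lam : L →ₐ[K] Sep M := (IsScalarTower.toAlgHom K M (Sep M)).comp l with hlam
  have hgM := hC.good (Sep M)
  have he : cub (W⁄(Sep M)) (lam θ) = 0 := by
    rw [cub_map (S := K) W lam θ, hC.root, map_zero]
  obtain ⟨ψ, hψ⟩ := hC.exists_emb_of_root' ι he
  have hιψ : ι.comp ψ = lam := hC.emb_ext hψ
  set R' : Pts W M := Point.map (W' := W) j R with hR'
  set g : Sep M := ι (B ψ) / sq (lam θ) R' with hg
  have hsq0 : sq (lam θ) R' ≠ 0 := hgM.sq_ne_zero he R'
  have hfix : ∀ σ : AbsGal M, σ g = g := by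
    intro σ
    have hσθ : σ (lam θ) = lam θ := σ.commutes (l θ)
    have hσι : ∀ x, σ (ι x) = ι (resGal K F (resGal F M σ) x) := by
      intro x
      change σ (emb F M (emb K F x)) = emb F M (emb K F _)
      rw [← emb_resGal, ← emb_resGal]
    set ρ := resGal K F (resGal F M σ) with hρ
    have hρψ : gact ρ ψ = ψ := by
      apply hC.emb_ext
      apply ι.injective
      change ι (ρ (ψ θ)) = ι (ψ θ)
      rw [← hσι, hψ, hσθ]
    have hρψ' : ρ (ψ θ) = ψ θ := DFunLike.congr_fun hρψ θ
    have h1 : σ (ι (B ψ)) = (((wt (ψ θ) (c ρ) : ℤˣ) : ℤ) : Sep M) * ι (B ψ) := by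
      rw [hσι, hk.act, hρψ', hρψ, map_mul, map_intCast]
    have hcρ : Point.map (W' := W) ι (c ρ) + Point.map (W' := W) ι (c ρ) = 0 := by
      rw [← map_add, hc, map_zero]
    have h2 : σ (sq (lam θ) R') = (((wt (ψ θ) (c ρ) : ℤˣ) : ℤ) : Sep M) * sq (lam θ) R' := by
      have h3 : σ (sq (lam θ) R') = sq (σ (lam θ)) (act W M σ R') :=
        (sq_map W (σ : Sep M →ₐ[M] Sep M) (lam θ) R').symm
      have h4 : act W M σ R' = R' + Point.map (W' := W) ι (c ρ) := by
        have h5 : act W M σ R' = Point.map (W' := W) j (act W F (resGal F M σ) R) := by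
          rcases R with _ | ⟨x, y, h⟩
          · rfl
          · simp only [hR', act, Point.map_some, Point.some.injEq]
            exact ⟨(emb_resGal F M σ x).symm, (emb_resGal F M σ y).symm⟩
        have h6 := hR (resGal F M σ)
        rw [h5, ← sub_add_cancel (act W F (resGal F M σ) R) R, ← h6, map_add, add_comm]
        congr 1
        exact Point.map_map (W' := W) (emb K F) j (c ρ)
      rw [h3, hσθ, h4, hgM.sq_add he R' _ hcρ, ← hψ, wt_map W ι (ψ θ) (c ρ)]
    have h5 : (((wt (ψ θ) (c ρ) : ℤˣ) : ℤ) : Sep M) ≠ 0 := by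
      rcases Int.units_eq_one_or (wt (ψ θ) (c ρ)) with h | h <;> rw [h] <;> simp
    rw [hg, map_div₀, h1, h2, mul_div_mul_left _ _ h5]
  obtain ⟨q, hq⟩ := (InfiniteGalois.mem_range_algebraMap_iff_fixed (k := M)
    (K := Sep M) g).mpr hfix
  have hq2 : lam α = algebraMap M (Sep M) q ^ 2 * dl (lam θ) (R' + R') := by
    rw [hq, hg, ← hgM.sq_sq he R', div_pow, div_mul_cancel₀ _ (pow_ne_zero _ hsq0), ← map_pow,
      hk.sq, ← hιψ]
    rfl
  have hRP : R' + R' = Point.map (W' := W) (IsScalarTower.toAlgHom K M (Sep M))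
      (Point.map (W' := W) (Algebra.ofId F M) P) := by
    rw [hR', ← map_add, ← hP]
    rcases P with _ | ⟨x, y, h⟩
    · rfl
    · simp only [Point.map_some, Point.some.injEq]
      refine ⟨?_, ?_⟩
      · change emb F M (algebraMap F (Sep F) x) = algebraMap M (Sep M) (algebraMap F M x)
        rw [(emb F M).commutes]
        rfl
      · change emb F M (algebraMap F (Sep F) y) = algebraMap M (Sep M) (algebraMap F M y)
        rw [(emb F M).commutes]
        rfl
  refine ⟨q, ?_, ?_⟩
  · rintro rfl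
    rw [map_zero] at hq2
    apply hk.ne
    apply lam.injective
    change lam α = lam 0
    rw [hq2, map_zero]
    ring
  · apply (algebraMap M (Sep M)).injective
    rw [map_mul, map_pow]
    have h7 : dl (lam θ) (R' + R') = algebraMap M (Sep M)
        (dl (l θ) (Point.map (W' := W) (Algebra.ofId F M) P)) := by
      rw [hRP]
      exact dl_map W (IsScalarTower.toAlgHom K M (Sep M)) (l θ) _
    rw [← h7, ← hq2]
    rfl

end

end Pool.Agent.MP1bdb59
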