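import Mathlib
import Pool.Agent.MP1bdb59.Kummer

/-!
# The cubic field attached to `A[X]/(f)`
-/

open Polynomial IntermediateField WeierstrassCurve

noncomputable section

open scoped Classical

namespace Pool.Agent.MP1bdb59

/-- The monic cubic `X^3 + b X^2 + c X + d`. -/
def cubicPoly {A : Type*} [CommRing A] (b c d : A) : A[X] := X ^ 3 + C b * X ^ 2 + C c * X + C d

/-- The Weierstrass curve `y^2 = x^3 + u b x^2 + u^2 c x + u^3 d`, isomorphic to the quadratic
twist `u y^2 = x^3 + b x^2 + c x + d` when `u ≠ 0`. -/
def twist {A : Type*} [CommRing A] (K : Type*) [Field K] [Algebra A K] (u b c d : A) :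
    WeierstrassCurve K :=
  ⟨0, algebraMap A K (u * b), 0, algebraMap A K (u ^ 2 * c), algebraMap A K (u ^ 3 * d)⟩

section

variable {A : Type*} [CommRing A] (b c d : A)

lemma cubicPoly_eval (a : A) : (cubicPoly b c d).eval a = a ^ 3 + b * a ^ 2 + c * a + d := by
  simp [cubicPoly]

lemma cubicPoly_aeval {B : Type*} [CommRing B] [Algebra A B] (x : B) :
    aeval x (cubicPoly b c d) = x ^ 3 + algebraMap A B b * x ^ 2 + algebraMap A B c * x +
      algebraMap A B d := by
  simp [cubicPoly]

lemma cubicPoly_derivative_aeval {B : Type*} [CommRing B] [Algebra A B] (x : B) :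
    aeval x (derivative (cubicPoly b c d)) = 3 * x ^ 2 + 2 * algebraMap A B b * x +
      algebraMap A B c := by
  have h2 : algebraMap A B 2 = 2 := map_ofNat _ 2
  simp [cubicPoly, h2]
  ring

lemma cubicPoly_monic [Nontrivial A] : (cubicPoly b c d).Monic := by
  unfold cubicPoly; monicity!

lemma cubicPoly_natDegree [Nontrivial A] : (cubicPoly b c d).natDegree = 3 := by
  unfold cubicPoly; compute_degree!

lemma cubicPoly_map {B : Type*} [CommRing B] (φ : A →+* B) :
    (cubicPoly b c d).map φ = cubicPoly (φ b) (φ c) (φ d) := by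
  simp [cubicPoly]

end

section

variable {A K : Type*} [CommRing A] [IsDomain A] [IsIntegrallyClosed A] [Field K] [Algebra A K]
  [IsFractionRing A K] {b c d : A}
  {O L : Type*} [CommRing O] [IsDomain O] [Algebra A O] [Field L] [Algebra K L] [Algebra A L]
  [IsScalarTower A K L] [Algebra O L] [IsFractionRing O L] [IsScalarTower A O L]
  (h : IsAdjoinRoot O (cubicPoly b c d))

include h

omit [IsIntegrallyClosed A] [IsDomain A] [IsFractionRing A K] [IsDomain O] [IsFractionRing O L] in
lemma root_eq : (algebraMap O L h.root) ^ 3 + algebraMap A L b * (algebraMap O L h.root) ^ 2 +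
    algebraMap A L c * (algebraMap O L h.root) + algebraMap A L d = 0 := by
  have h1 := h.aeval_root_self
  have h2 := congrArg (algebraMap O L) h1
  rw [map_zero, cubicPoly_aeval] at h2
  simp only [map_add, map_mul, map_pow, ← IsScalarTower.algebraMap_apply] at h2
  exact h2

omit [IsIntegrallyClosed A] [IsFractionRing A K] [IsDomain O] [IsFractionRing O L]
  [Field K] [Algebra A K] [Field L] [Algebra K L] [Algebra A L] [IsScalarTower A K L]
  [Algebra O L] [IsScalarTower A O L] in
lemma root_ne (a : A) : algebraMap A O a ≠ h.root := by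
  intro ha
  have h1 : h.map (X - C a) = 0 := by
    rw [map_sub, h.map_X, ← ha, ← h.algebraMap_apply]
    exact sub_self _
  rw [h.map_eq_zero_iff] at h1
  have h2 := Polynomial.natDegree_le_of_dvd h1 (X_sub_C_ne_zero a)
  rw [cubicPoly_natDegree, natDegree_X_sub_C] at h2
  omega

lemma irreducible_map : Irreducible ((cubicPoly b c d).map (algebraMap A K)) := by
  rw [← (cubicPoly_monic b c d).irreducible_iff_irreducible_map_fraction_map]
  have h0 : cubicPoly b c d ≠ 0 := (cubicPoly_monic b c d).ne_zero
  have h1 : (Ideal.span {cubicPoly b c d}).IsPrime := by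
    rw [← h.ker_map]
    exact RingHom.ker_isPrime _
  exact ((Ideal.span_singleton_prime h0).mp h1).irreducible

omit [IsIntegrallyClosed A] [IsDomain A] [IsFractionRing A K] [IsDomain O] in
lemma adjoin_root_top : K⟮algebraMap O L h.root⟯ = ⊤ := by
  rw [eq_top_iff]
  intro x _
  have hO : ∀ r : O, algebraMap O L r ∈ K⟮algebraMap O L h.root⟯ := by
    intro r
    obtain ⟨g, rfl⟩ := h.map_surjective r
    have h1 : algebraMap O L (h.map g) = aeval (algebraMap O L h.root) (g.map (algebraMap A K)) := by
      rw [aeval_map_algebraMap, ← h.aeval_root_eq_map, aeval_algebraMap_apply]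
    rw [h1]
    exact algebra_adjoin_le_adjoin K _ (aeval_mem_adjoin_singleton K _)
  obtain ⟨r, s, hs, rfl⟩ := IsFractionRing.div_surjective (A := O) x
  exact div_mem (hO r) (hO s)

omit [IsIntegrallyClosed A] [IsDomain A] [IsFractionRing A K] [IsDomain O] [IsFractionRing O L] in
lemma aeval_root_map : aeval (algebraMap O L h.root) ((cubicPoly b c d).map (algebraMap A K)) = 0 := by
  rw [aeval_map_algebraMap, aeval_algebraMap_apply, h.aeval_root_self, map_zero]

omit [IsIntegrallyClosed A] [IsFractionRing A K] [IsDomain O] [IsFractionRing O L] in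
lemma isIntegral_root : IsIntegral K (algebraMap O L h.root) :=
  ⟨(cubicPoly b c d).map (algebraMap A K), (cubicPoly_monic b c d).map _, aeval_root_map h⟩

omit [IsFractionRing O L] in
lemma minpoly_root : minpoly K (algebraMap O L h.root) = (cubicPoly b c d).map (algebraMap A K) :=
  (minpoly.eq_of_irreducible_of_monic (irreducible_map h) (aeval_root_map h)
    ((cubicPoly_monic b c d).map _)).symm

variable (K L) in
omit [IsIntegrallyClosed A] [IsFractionRing A K] [IsDomain O] in
lemma finiteDimensional_of_isAdjoinRoot : FiniteDimensional K L := by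
  have h1 : FiniteDimensional K K⟮algebraMap O L h.root⟯ :=
    adjoin.finiteDimensional (isIntegral_root h)
  rw [adjoin_root_top h] at h1
  exact (topEquiv (F := K) (E := L)).toLinearEquiv.finiteDimensional

variable (K L) in
lemma finrank_of_isAdjoinRoot : Module.finrank K L = 3 := by
  have h1 := adjoin.finrank (isIntegral_root (K := K) (L := L) h)
  rw [adjoin_root_top h, finrank_top', minpoly_root h, (cubicPoly_monic b c d).natDegree_map,
    cubicPoly_natDegree] at h1
  exact h1

omit [IsIntegrallyClosed A] [IsDomain A] [IsFractionRing A K] [IsDomain O] [IsFractionRing O L] in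
lemma twist_cub (u : A) : cub ((twist K u b c d)⁄L) (algebraMap A L u * algebraMap O L h.root) = 0 := by
  have h1 := root_eq (L := L) h
  simp only [cub, bc_a₂, bc_a₄, bc_a₆, twist, ← IsScalarTower.algebraMap_apply]
  simp only [map_mul, map_pow]
  linear_combination (algebraMap A L u) ^ 3 * h1

omit [IsDomain A] [IsIntegrallyClosed A] [IsFractionRing A K] [CommRing O] [IsDomain O]
  [Algebra A O] [Algebra A L] [IsScalarTower A K L] [Algebra O L] [IsFractionRing O L]
  [IsScalarTower A O L] h in
variable (L) in
lemma twist_good (u : A) (h2 : (2 : K) ≠ 0) (hΔ : (twist K u b c d).Δ ≠ 0) :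
    Good ((twist K u b c d)⁄L) :=
  good_baseChange rfl rfl h2 hΔ L

variable (L) in
lemma isSeparable_of_isAdjoinRoot (u : A) (h2 : (2 : K) ≠ 0) (hΔ : (twist K u b c d).Δ ≠ 0) :
    Algebra.IsSeparable K L := by
  have hg := twist_good L u h2 hΔ
  have h1 := hg.sep _ (twist_cub h u)
  have h3 : ((cubicPoly b c d).map (algebraMap A K)).Separable := by
    rw [separable_iff_derivative_ne_zero (irreducible_map h)]
    intro h0
    apply h1
    have h4 : aeval (algebraMap O L h.root)
        (derivative ((cubicPoly b c d).map (algebraMap A K))) = 0 := by rw [h0, map_zero]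
    rw [derivative_map, aeval_map_algebraMap, cubicPoly_derivative_aeval] at h4
    simp only [dcub, bc_a₂, bc_a₄, twist, ← IsScalarTower.algebraMap_apply]
    simp only [map_mul, map_pow]
    linear_combination (algebraMap A L u) ^ 2 * h4
  have h5 : IsSeparable K (algebraMap O L h.root) := by
    rw [IsSeparable, minpoly_root h]
    exact h3
  have h6 : Algebra.IsSeparable K K⟮algebraMap O L h.root⟯ :=
    (isSeparable_adjoin_simple_iff_isSeparable K L).mpr h5
  rw [adjoin_root_top h] at h6
  exact AlgEquiv.Algebra.isSeparable (topEquiv (F := K) (E := L))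

omit [IsIntegrallyClosed A] [IsDomain O] in
lemma adjoin_twist_top {u : A} (hu : u ≠ 0) :
    Algebra.adjoin K {algebraMap A L u * algebraMap O L h.root} = ⊤ := by
  set θ := algebraMap A L u * algebraMap O L h.root with hθ
  have hu' : algebraMap A K u ≠ 0 := by
    intro h0
    exact hu ((IsFractionRing.to_map_eq_zero_iff (K := K)).mp h0)
  have h1 : K⟮θ⟯ = ⊤ := by
    rw [eq_top_iff, ← adjoin_root_top (K := K) (L := L) h, adjoin_simple_le_iff]
    have h2 : algebraMap O L h.root = algebraMap K L (algebraMap A K u)⁻¹ * θ := by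
      rw [hθ, IsScalarTower.algebraMap_apply A K L, ← mul_assoc, ← map_mul, inv_mul_cancel₀ hu',
        map_one, one_mul]
    rw [h2]
    exact mul_mem (IntermediateField.algebraMap_mem _ _) (mem_adjoin_simple_self K θ)
  have h3 : IsIntegral K θ := by
    rw [hθ, IsScalarTower.algebraMap_apply A K L]
    exact (isIntegral_algebraMap).mul (isIntegral_root h)
  have h4 := adjoin_simple_toSubalgebra_of_isAlgebraic h3.isAlgebraic
  rw [h1, top_toSubalgebra] at h4
  exact h4.symm

/-- The cubic data of the twisted curve. -/
theorem cubicData_twist {u : A} (hu : u ≠ 0) (h2 : (2 : K) ≠ 0)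
    (hΔ : (twist K u b c d).Δ ≠ 0) [FiniteDimensional K L] [Algebra.IsSeparable K L] :
    CubicData (twist K u b c d) (algebraMap A L u * algebraMap O L h.root) where
  h1 := rfl
  h3 := rfl
  h2 := h2
  hΔ := hΔ
  finrank := finrank_of_isAdjoinRoot K L h
  gen := adjoin_twist_top h hu
  root := twist_cub h u

end

end Pool.Agent.MP1bdb59
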