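import Mathlib
import Pool.Agent.MP1bdb59.Local
import Pool.Agent.MP1bdb59.Comp
import Pool.Agent.MP1bdb59.Ded
import Pool.Agent.MP1bdb59.Even
import Pool.Agent.MP1bdb59.Setup

/-!
# The descent theorem
-/

open Polynomial IntermediateField WeierstrassCurve WeierstrassCurve.Affine IsDedekindDomain

noncomputable section

open scoped Classical WithZero

namespace Pool.Agent.MP1bdb59

section Kummer

variable {K : Type*} [Field K] {W : WeierstrassCurve K} {L : Type*} [Field L]
    [Algebra K L] [FiniteDimensional K L] [Algebra.IsSeparable K L] {θ : L} (hC : CubicData W θ)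

include hC

lemma CubicData.exists_half (P : Pts W K) : ∃ Q : Pts W K, Q + Q = P := by
  obtain ⟨q, h01, h02, h12⟩ := hC.exists_enum
  have hg := hC.good (Sep K)
  refine hg.exists_half (fun z => ?_) (hC.emb_root (q 0)) (hC.emb_root (q 1)) (hC.emb_root (q 2))
    h01 h02 h12 P
  have : NeZero ((2 : ℕ) : Sep K) := ⟨by simpa using hg.two⟩
  exact IsSepClosed.exists_pow_nat_eq z 2

lemma CubicData.ne_algebraMap (x : K) : algebraMap K L x ≠ θ := by
  intro h
  obtain ⟨q, h01, -, -⟩ := hC.exists_enum
  apply h01
  rw [← h, AlgHom.commutes, AlgHom.commutes]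

/-- Changing a cocycle by the coboundary of a point changes the Kummer class by the value of
the descent map. -/
lemma CubicData.kumData_sub {c : AbsGal K → Pts W K} (hc : ∀ σ, c σ + c σ = 0) {α : L}
    {B : (L →ₐ[K] Sep K) → Sep K} (h : KumData W θ c α B) {R : Pts W K}
    (hR : ∀ σ : AbsGal K, act W K σ (R + R) = R + R) {δ : L}
    (hδ : ∀ ψ : L →ₐ[K] Sep K, ψ δ = dl (ψ θ) (R + R)) :
    KumData W θ (fun σ => c σ - (act W K σ R - R)) (α * δ) (fun ψ => B ψ * sq (ψ θ) R) := by
  have hg := hC.good (Sep K)
  have hS : ∀ σ : AbsGal K, (act W K σ R - R) + (act W K σ R - R) = 0 := by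
    intro σ
    have := hR σ
    rw [map_add, ← sub_eq_zero] at this
    rw [← this]
    abel
  refine ⟨mul_ne_zero h.ne ?_, ?_, ?_⟩
  · rintro rfl
    obtain ⟨q, h01, -, -⟩ := hC.exists_enum
    have := hδ (q 0)
    rw [map_zero] at this
    exact hg.dl_ne_zero (hC.emb_root (q 0)) _ this.symm
  · intro ψ
    rw [mul_pow, h.sq, hg.sq_sq (hC.emb_root ψ), map_mul, hδ]
  · intro ρ ψ
    have he : cub (W⁄(Sep K)) (ρ (ψ θ)) = 0 := hC.emb_root (gact ρ ψ)
    have h1 : ρ (sq (ψ θ) R) = (((wt (ρ (ψ θ)) (act W K ρ R - R) : ℤˣ) : ℤ) : Sep K) *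
        sq (ρ (ψ θ)) R := by
      have h2 : ρ (sq (ψ θ) R) = sq (ρ (ψ θ)) (act W K ρ R) :=
        (sq_map W (ρ : Sep K →ₐ[K] Sep K) (ψ θ) R).symm
      have h4 := hg.sq_add he R _ (hS ρ)
      rw [add_sub_cancel] at h4
      rw [h2, h4]
    rw [map_mul, h.act, h1, hg.wt_sub he (hc ρ) (hS ρ), sgn_mul]
    simp only [gact_apply]
    ring

end Kummer

lemma Good.nonsingular_of_eq {M : Type*} [Field M] {V : WeierstrassCurve M} (hV : Good V)
    {x y : M} (h : y ^ 2 = cub V x) : V.toAffine.Nonsingular x y := by
  rw [Affine.nonsingular_iff, hV.equation_iff]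
  refine ⟨h, ?_⟩
  by_cases hy : y = 0
  · left
    rw [hV.a1]
    have h1 : cub V x = 0 := by rw [← h, hy]; ring
    simpa [dcub] using (hV.sep x h1).symm
  · right
    rw [hV.a1, hV.a3]
    intro h0
    have : (2 : M) * y = 0 := by linear_combination h0
    exact hy ((mul_eq_zero.mp this).resolve_left hV.two)

section Boundary

open Topology

variable {K : Type*} [Field K] (W : WeierstrassCurve K) {F : Type*} [Field F] [Algebra K F]

lemma stab_mem_nhds (R : Pts W F) : {τ : AbsGal F | act W F τ R = R} ∈ 𝓝 (1 : AbsGal F) := by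
  rcases R with _ | ⟨x, y, h⟩
  · have : {τ : AbsGal F | act W F τ (Point.zero) = Point.zero} = Set.univ := by
      ext τ
      simp only [Set.mem_ofPred_eq, Set.mem_univ, iff_true]
      exact map_zero (act W F τ)
    rw [this]
    exact Filter.univ_mem
  · rw [krullTopology_mem_nhds_one_iff]
    have hfin : Finite ({x, y} : Set (Sep F)) := Set.Finite.to_subtype (by simp)
    refine ⟨IntermediateField.adjoin F {x, y}, IntermediateField.finiteDimensional_adjoin
      (fun z _ => Algebra.IsIntegral.isIntegral z), ?_⟩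
    intro τ hτ
    rw [SetLike.mem_coe, IntermediateField.mem_fixingSubgroup_iff] at hτ
    have hx : τ x = x := hτ _ (IntermediateField.subset_adjoin F _ (by simp))
    have hy : τ y = y := hτ _ (IntermediateField.subset_adjoin F _ (by simp))
    simp only [Set.mem_ofPred_eq, act, Point.map_some, Point.some.injEq]
    exact ⟨hx, hy⟩

lemma isLocallyConstant_act (R : Pts W F) :
    IsLocallyConstant (fun σ : AbsGal F => act W F σ R) := by
  rw [IsLocallyConstant.iff_eventually_eq]
  intro σ
  have h1 : Continuous (fun τ : AbsGal F => σ⁻¹ * τ) := continuous_const_mul σ⁻¹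
  have h2 := h1.continuousAt (x := σ)
  rw [ContinuousAt, inv_mul_cancel] at h2
  filter_upwards [h2 (stab_mem_nhds W R)] with τ hτ
  have h3 : act W F (σ⁻¹ * τ) R = R := hτ
  have h4 : act W F τ R = act W F (σ * (σ⁻¹ * τ)) R := by rw [mul_inv_cancel_left]
  rw [h4, act_mul, h3]

/-- The coboundary of a point is a cocycle, and so is its difference with a cocycle. -/
lemma isCocycle_sub_bdry {c : AbsGal F → Pts W F} (hc : IsCocycle W F c) (R : Pts W F) :
    IsCocycle W F (fun σ => c σ - (act W F σ R - R)) := by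
  refine ⟨hc.1.sub ((isLocallyConstant_act W R).sub (IsLocallyConstant.const R)), fun σ τ => ?_⟩
  change c (σ * τ) - (act W F (σ * τ) R - R) =
    (c σ - (act W F σ R - R)) + act W F σ (c τ - (act W F τ R - R))
  rw [hc.2, act_mul, map_sub, map_sub]
  abel

end Boundary

section Local

variable (k : Type*) {A K : Type*} [Field k] [CommRing A] [IsDedekindDomain A] [Algebra k A]
  [Field K] [Algebra A K] [IsFractionRing A K] [Algebra k K] [IsScalarTower k A K] {b c d : A}
  {O L : Type*} [CommRing O] [IsDedekindDomain O] [Algebra A O] [Module.IsTorsionFree A O]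
  [Field L] [Algebra K L] [Algebra A L]
  [IsScalarTower A K L] [Algebra O L] [IsFractionRing O L] [IsScalarTower A O L]
  (h : IsAdjoinRoot O (cubicPoly b c d))

include h

omit [Algebra k A] [Algebra k K] [IsScalarTower k A K] in
/-- The local data at a prime. -/
lemma locData {M : Type*} [Field M] [Algebra K M] (l : L →ₐ[K] M) (w : Valuation M ℤᵐ⁰)
    (p : HeightOneSpectrum A) (P : HeightOneSpectrum O) [P.asIdeal.LiesOver p.asIdeal]
    (hw : ∀ x : L, w (l x) = P.valuation L x) :
    LocData K p w (p.asIdeal.ramificationIdx' P.asIdeal) b c d (l (algebraMap O L h.root)) := by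
  have hl : ∀ a : A, toM K M a = l (algebraMap A L a) := by
    intro a
    rw [IsScalarTower.algebraMap_apply A K L, l.commutes]
    rfl
  have hl' : ∀ a : A, toM K M a - l (algebraMap O L h.root) =
      l (algebraMap O L (algebraMap A O a - h.root)) := by
    intro a
    rw [hl, map_sub, map_sub, ← IsScalarTower.algebraMap_apply]
  refine ⟨Ideal.IsDedekindDomain.ramificationIdx'_ne_zero_of_liesOver P.asIdeal p.ne_bot, ?_, ?_,
    ?_, ?_, ?_⟩
  · intro κ
    rw [← l.commutes, hw, HeightOneSpectrum.valuation_liesOver L p P]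
  · have h1 := congrArg l (root_eq (L := L) h)
    simp only [map_add, map_mul, map_pow, map_zero] at h1
    rw [hl, hl, hl]
    exact h1
  · rw [hw]
    exact P.valuation_le_one _
  · intro a ha
    rw [hl', hw, HeightOneSpectrum.valuation_of_algebraMap] at ha ⊢
    rw [HeightOneSpectrum.intValuation_lt_one_iff_mem] at ha
    obtain ⟨φ, hφ, hker⟩ := exists_quot_map h a
    rw [valuation_eq_of_quot p P φ hφ hker ha, cubicPoly_eval]
  · intro a ha
    rw [← sub_eq_zero, hl', map_eq_zero, IsFractionRing.to_map_eq_zero_iff, sub_eq_zero] at ha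
    exact root_ne h a ha

omit [Algebra k A] [Algebra k K] [IsScalarTower k A K] in
/-- Evenness of the local descent values, for a point over a field `F` in which `K` is dense. -/
lemma isSquare_w_dl {u : A} (hu : u ≠ 0) (h2 : (2 : K) ≠ 0) (hΔ : (twist K u b c d).Δ ≠ 0)
    {F : Type*} [Field F] [Algebra K F]
    {M : Type*} [Field M] [Algebra K M] [Algebra F M] [IsScalarTower K F M]
    (l : L →ₐ[K] M) (w : Valuation M ℤᵐ⁰)
    (p : HeightOneSpectrum A) (P : HeightOneSpectrum O) [P.asIdeal.LiesOver p.asIdeal]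
    (hin : ¬ IsSquare (p.intValuation u) → ∀ a : A, a ^ 3 + b * a ^ 2 + c * a + d ∉ p.asIdeal)
    (hw : ∀ x : L, w (l x) = P.valuation L x)
    (happ : ∀ z : F, Approx K w (algebraMap F M z))
    (Q : ((twist K u b c d)⁄F).toAffine.Point) :
    IsSquare (w (dl (l (algebraMap A L u * algebraMap O L h.root))
      (Point.map (W' := twist K u b c d) (Algebra.ofId F M) Q))) := by
  have hg := good_baseChange (W := twist K u b c d) rfl rfl h2 hΔ M
  have hL := locData h l w p P hw
  set t := l (algebraMap O L h.root) with ht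
  have hlt : l (algebraMap A L u * algebraMap O L h.root) = toM K M u * t := by
    rw [map_mul, IsScalarTower.algebraMap_apply A K L, l.commutes]
    rfl
  rw [hlt]
  rcases Q with _ | ⟨X, Y, hXY⟩
  · have h0 : dl (toM K M u * t) (Point.map (W' := twist K u b c d) (Algebra.ofId F M) Point.zero) =
      1 := rfl
    rw [h0, map_one]
    exact IsSquare.one
  · rw [Point.map_some]
    have hns := (((twist K u b c d).toAffine).baseChange_nonsingular
      (Algebra.ofId F M).injective X Y).mpr hXY
    have heq := (hg.equation_iff (algebraMap F M X) (algebraMap F M Y)).mp hns.1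
    simp only [dl]
    split_ifs with hcase
    · -- the point with `X = u t`
      have hcase' : algebraMap F M X = toM K M u * t := hcase
      have htA : Approx K w t := by
        intro y hy
        have hu' : toM K M u ≠ 0 := by
          rw [toM, Ne, map_eq_zero]
          intro h
          exact hu ((IsFractionRing.to_map_eq_zero_iff (K := K)).mp h)
        have hwu : w (toM K M u) ≠ 0 := by rwa [Ne, map_eq_zero]
        obtain ⟨κ, hκ⟩ := happ X (toM K M u * y) (mul_ne_zero hu' hy)
        refine ⟨κ / algebraMap A K u, ?_⟩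
        have h1 : algebraMap K M (κ / algebraMap A K u) - t =
            (algebraMap K M κ - algebraMap F M X) / toM K M u := by
          rw [map_div₀, hcase', eq_div_iff hu', sub_mul]
          congr 1
          · exact div_mul_cancel₀ _ hu'
          · ring
        rw [h1, map_div₀]
        rw [map_mul] at hκ
        rw [div_lt_iff₀ (zero_lt_iff.mpr hwu), mul_comm]
        exact hκ
      have hu' : toM K M u ≠ 0 := by
        rw [toM, Ne, map_eq_zero]
        intro h
        exact hu ((IsFractionRing.to_map_eq_zero_iff (K := K)).mp h)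
      have hD : dcub ((twist K u b c d)⁄M) (toM K M u * t) = (toM K M u) ^ 2 *
          (3 * t ^ 2 + 2 * toM K M b * t + toM K M c) := by
        simp only [dcub, bc_a₂, bc_a₄, twist, toM]
        simp only [map_mul, map_pow]
        ring
      have hroot : cub ((twist K u b c d)⁄M) (toM K M u * t) = 0 := by
        have := hL.root
        simp only [cub, bc_a₂, bc_a₄, bc_a₆, twist]
        simp only [toM] at this
        simp only [map_mul, map_pow, toM]
        linear_combination (algebraMap K M (algebraMap A K u)) ^ 3 * this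
      have hD0 := hg.sep _ hroot
      rw [hD] at hD0 ⊢
      rw [map_mul, hL.deriv_eq_one htA (fun h0 => hD0 (by rw [h0, mul_zero])), mul_one, map_pow]
      exact IsSquare.sq _
    · refine hL.even hu hin (happ X) (happ Y) ?_ hcase
      exact heq

omit [Algebra k A] [Algebra k K] [IsScalarTower k A K] in
lemma isSquare_valuation_aux {u : A} (hu : u ≠ 0) (h2 : (2 : K) ≠ 0)
    (hΔ : (twist K u b c d).Δ ≠ 0) [FiniteDimensional K L] [Algebra.IsSeparable K L]
    {s : AbsGal K → Pts (twist K u b c d) K} (hs : ∀ σ, s σ + s σ = 0) {α : L}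
    {B : (L →ₐ[K] Sep K) → Sep K}
    (hk : KumData (twist K u b c d) (algebraMap A L u * algebraMap O L h.root) s α B)
    (p : HeightOneSpectrum A) (P : HeightOneSpectrum O) [P.asIdeal.LiesOver p.asIdeal]
    (hin : ¬ IsSquare (p.intValuation u) → ∀ a : A, a ^ 3 + b * a ^ 2 + c * a + d ∉ p.asIdeal)
    {F : Type*} [Field F] [Algebra K F]
    {M : Type*} [Field M] [Algebra K M] [Algebra F M]
    (hcompat : ∀ x : K, algebraMap K M x = algebraMap F M (algebraMap K F x))
    (l : L →ₐ[K] M) (w : Valuation M ℤᵐ⁰) (hwl : ∀ x : L, w (l x) = P.valuation L x)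
    (happ : ∀ z : F, Approx K w (algebraMap F M z))
    {R : Pts (twist K u b c d) F}
    (hR : ∀ σ : AbsGal F, embPts F (twist K u b c d) (s (resGal K F σ)) = act _ _ σ R - R) :
    IsSquare (P.valuation L α) := by
  have hC := cubicData_twist (K := K) (L := L) h hu h2 hΔ
  have : IsScalarTower K F M := IsScalarTower.of_algebraMap_eq hcompat
  obtain ⟨Q, hQ⟩ := hC.local_image hs hk hR
  obtain ⟨q, -, hq⟩ := hQ (M := M) l
  rw [← hwl, hq, map_mul, map_pow]
  exact (IsSquare.sq _).mul (isSquare_w_dl h hu h2 hΔ l w p P hin hwl happ Q)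

/-- The valuation of the Kummer class at a prime `P` above `p` is even if the class is trivial
over the completion at `p`. -/
theorem isSquare_valuation {u : A} (hu : u ≠ 0) (h2 : (2 : K) ≠ 0)
    (hΔ : (twist K u b c d).Δ ≠ 0) [FiniteDimensional K L] [Algebra.IsSeparable K L]
    {s : AbsGal K → Pts (twist K u b c d) K} (hs : ∀ σ, s σ + s σ = 0) {α : L}
    {B : (L →ₐ[K] Sep K) → Sep K}
    (hk : KumData (twist K u b c d) (algebraMap A L u * algebraMap O L h.root) s α B)
    (p : HeightOneSpectrum A) (P : HeightOneSpectrum O) [P.asIdeal.LiesOver p.asIdeal]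
    (hin : ¬ IsSquare (p.intValuation u) → ∀ a : A, a ^ 3 + b * a ^ 2 + c * a + d ∉ p.asIdeal)
    {R : Pts (twist K u b c d) (Completion (placeOf k K p))}
    (hR : ∀ σ : AbsGal (Completion (placeOf k K p)),
      embPts (Completion (placeOf k K p)) (twist K u b c d)
        (s (resGal K (Completion (placeOf k K p)) σ)) = act _ _ σ R - R) :
    IsSquare (P.valuation L α) := by
  obtain ⟨M, _, _, _, l, w, hcompat, hwl, happ⟩ :=
    exists_completion (k := k) (K := K) (L := L) p P
  exact isSquare_valuation_aux h hu h2 hΔ hs hk p P hin hcompat l w hwl (fun z => happ z) hR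

end Local

section Sha

variable (k : Type*) {A K : Type*} [Field k] [CommRing A] [IsDedekindDomain A] [Algebra k A]
  [Field K] [Algebra A K] [IsFractionRing A K] [Algebra k K] [IsScalarTower k A K] {b c d : A}
  {O : Type*} (L : Type*) [CommRing O] [IsDedekindDomain O] [Algebra A O]
  [Module.IsTorsionFree A O]
  [Field L] [Algebra K L] [Algebra A L]
  [IsScalarTower A K L] [Algebra O L] [IsFractionRing O L] [IsScalarTower A O L]

/-- **The descent theorem.** Let `S` be a set of primes of `A` containing every prime `p` at which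
`u` has odd valuation and `f = x^3 + b x^2 + c x + d` has a root modulo `p`. If every element `α`
of `L` with square norm and with even valuation at all primes not above `S` is, up to squares,
equal to `1` or to `x - u θ` for a point `(x, y)` of `E`, then the Tate-Shafarevich group of `E`
has no element of order 2. -/
theorem sha_two_torsion (h : IsAdjoinRoot O (cubicPoly b c d)) {u : A} (hu : u ≠ 0)
    (h2 : (2 : K) ≠ 0) (hΔ : (twist K u b c d).Δ ≠ 0) (S : Set (HeightOneSpectrum A))
    (hin : ∀ p : HeightOneSpectrum A, p ∉ S → ¬ IsSquare (p.intValuation u) →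
      ∀ a : A, a ^ 3 + b * a ^ 2 + c * a + d ∉ p.asIdeal)
    (hsel : ∀ α : L, α ≠ 0 → IsSquare (Algebra.norm K α) →
      (∀ p : HeightOneSpectrum A, p ∉ S → ∀ P : HeightOneSpectrum O,
        P.asIdeal.LiesOver p.asIdeal → IsSquare (P.valuation L α)) →
      IsSquare α ∨ ∃ x y : K, y ^ 2 = x ^ 3 + algebraMap A K (u * b) * x ^ 2 +
        algebraMap A K (u ^ 2 * c) * x + algebraMap A K (u ^ 3 * d) ∧
        IsSquare (α * (algebraMap K L x - algebraMap A L u * algebraMap O L h.root)))
    (ξ : FunMod (twist K u b c d) K) (hξ : ξ ∈ Sha k (twist K u b c d)) (hξ2 : ξ + ξ = 0) :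
    ξ = 0 := by
  have i1 := finiteDimensional_of_isAdjoinRoot K L h
  have i2 := isSeparable_of_isAdjoinRoot L h u h2 hΔ
  have hC := cubicData_twist (K := K) (L := L) h hu h2 hΔ
  have hg := hC.good (Sep K)
  obtain ⟨⟨s, hsc, hs⟩, hloc⟩ := hξ
  -- it is enough to find a point whose coboundary is `s`
  suffices hfin : ∃ T : Pts (twist K u b c d) K, ∀ σ, s σ = act _ K σ T - T by
    rw [← hs, cls_eq_zero_iff]
    exact hfin
  -- the double of `s` is a coboundary
  have h2s : ∃ P : Pts (twist K u b c d) K, ∀ σ, (s + s) σ = act _ K σ P - P := by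
    rw [← cls_eq_zero_iff, cls_add, hs]
    exact hξ2
  obtain ⟨P, hP⟩ := h2s
  obtain ⟨Q, hQ⟩ := hC.exists_half P
  -- reduction to a cocycle with values in the 2-torsion
  set s' : AbsGal K → Pts (twist K u b c d) K := fun σ => s σ - (act _ K σ Q - Q) with hs'
  have hs'c : IsCocycle _ K s' := isCocycle_sub_bdry _ hsc Q
  have hs'1 : ∀ σ, s' σ = s σ - (act _ K σ Q - Q) := fun σ => rfl
  have hs'2 : ∀ σ, s' σ + s' σ = 0 := by
    intro σ
    have h1 : s σ + s σ = act _ K σ P - P := hP σ
    rw [hs'1, sub_add_sub_comm, h1, ← hQ, map_add]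
    abel
  obtain ⟨α, B, hk⟩ := hC.exists_kumData hs'c.1 hs'c.2 hs'2
  have hnorm := hC.isSquare_norm hs'2 hk
  -- local conditions
  have hloc' : ∀ p : HeightOneSpectrum A, p ∉ S → ∀ P : HeightOneSpectrum O,
      P.asIdeal.LiesOver p.asIdeal → IsSquare (P.valuation L α) := by
    intro p hp P' hP'
    have h1 : ξ ∈ (res (Completion (placeOf k K p)) (twist K u b c d)).ker := by
      have := AddSubgroup.mem_iInf.mp hloc (placeOf k K p)
      exact this
    rw [← hs, AddMonoidHom.mem_ker, res_cls, cls_eq_zero_iff] at h1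
    obtain ⟨R₀, hR₀⟩ := h1
    refine isSquare_valuation k h hu h2 hΔ hs'2 hk p P' (hin p hp)
      (R := R₀ - embPts _ _ Q) ?_
    intro σ
    have h3 : embPts (Completion (placeOf k K p)) (twist K u b c d)
        (s (resGal K (Completion (placeOf k K p)) σ)) = act _ _ σ R₀ - R₀ := hR₀ σ
    rw [hs'1, map_sub, h3, map_sub, ← act_embPts, map_sub]
    abel
  -- conclusion
  rcases hsel α hk.ne hnorm hloc' with hsq | ⟨x, y, hxy, hsq⟩
  · obtain ⟨T, hT, hT'⟩ := hC.coboundary_of_isSquare hs'2 hk hsq
    refine ⟨T + Q, fun σ => ?_⟩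
    have h1 := hT' σ
    rw [hs'1] at h1
    rw [map_add, sub_eq_iff_eq_add.mp h1]
    abel
  · have hns := hg.nonsingular_of_eq (x := algebraMap K (Sep K) x) (y := algebraMap K (Sep K) y) (by
      have h1 := congrArg (algebraMap K (Sep K)) hxy
      simp only [map_add, map_mul, map_pow] at h1
      simp only [cub, bc_a₂, bc_a₄, bc_a₆, twist, map_mul, map_pow]
      exact h1)
    set P₀ : Pts (twist K u b c d) K := .some _ _ hns with hP₀
    have hfix : ∀ σ : AbsGal K, act _ K σ P₀ = P₀ := by
      intro σ
      simp only [hP₀, act, Point.map_some, Point.some.injEq]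
      exact ⟨σ.commutes x, σ.commutes y⟩
    obtain ⟨R, hR⟩ := hC.exists_half P₀
    have hRfix : ∀ σ : AbsGal K, act _ K σ (R + R) = R + R := fun σ => by rw [hR, hfix]
    have hδ : ∀ ψ : L →ₐ[K] Sep K,
        ψ (algebraMap K L x - algebraMap A L u * algebraMap O L h.root) =
          dl (ψ (algebraMap A L u * algebraMap O L h.root)) (R + R) := by
      intro ψ
      have hne : algebraMap K (Sep K) x ≠ ψ (algebraMap A L u * algebraMap O L h.root) := by
        intro h0
        rw [← ψ.commutes] at h0
        exact hC.ne_algebraMap x (ψ.injective h0)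
      rw [hR, hP₀, map_sub, ψ.commutes]
      simp only [dl]
      rw [if_neg hne]
    have hk2 := hC.kumData_sub hs'2 hk hRfix hδ
    obtain ⟨T, hT, hT'⟩ := hC.coboundary_of_isSquare (fun σ => by
      have h3 : (act _ K σ R - R) + (act _ K σ R - R) = 0 := by
        have := hRfix σ
        rw [map_add, ← sub_eq_zero] at this
        rw [← this]
        abel
      rw [sub_add_sub_comm, hs'2, h3, sub_zero]) hk2 hsq
    refine ⟨T + R + Q, fun σ => ?_⟩
    have h1 := hT' σ
    rw [hs'1, sub_sub, sub_eq_iff_eq_add] at h1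
    rw [h1, map_add, map_add]
    abel

end Sha

/-- If a group has no element of order 2 then its 2-adic Tate module vanishes. -/
lemma tateModule_eq_bot {G : Type*} [AddCommGroup G] (h : ∀ x : G, (2 : ℕ) • x = 0 → x = 0) :
    TateModule 2 G = ⊥ := by
  rw [eq_bot_iff]
  intro s hs
  obtain ⟨h0, hstep⟩ := hs
  rw [AddSubgroup.mem_bot]
  funext n
  induction n with
  | zero => exact h0
  | succ n ih => exact h _ (by rw [hstep n, ih]; rfl)

end Pool.Agent.MP1bdb59
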