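import Mathlib

/-!
# Squarefree parts in a principal ideal domain
-/

open IsDedekindDomain

noncomputable section

open scoped Classical WithZero

namespace Pool.Agent.MP1bdb59

section

variable {O : Type*} [CommRing O] [IsDomain O] [IsPrincipalIdealRing O]

/-- Every nonzero element is a squarefree element times a square. -/
lemma exists_sqfree_mul_sq (z : O) (hz : z ≠ 0) :
    ∃ w β : O, Squarefree w ∧ β ≠ 0 ∧ z = w * β ^ 2 := by
  induction z using UniqueFactorizationMonoid.induction_on_prime with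
  | h₁ => exact absurd rfl hz
  | h₂ x hx => exact ⟨x, 1, hx.squarefree, one_ne_zero, by ring⟩
  | h₃ a p ha hp ih =>
    obtain ⟨w, β, hw, hβ, rfl⟩ := ih ha
    by_cases hdvd : p ∣ w
    · obtain ⟨w', rfl⟩ := hdvd
      exact ⟨w', p * β, hw.squarefree_of_dvd (dvd_mul_left _ _), mul_ne_zero hp.ne_zero hβ, by ring⟩
    · refine ⟨p * w, β, ?_, hβ, by ring⟩
      rw [squarefree_mul_iff]
      refine ⟨?_, hp.irreducible.squarefree, hw⟩
      exact (hp.irreducible.isRelPrime_iff_not_dvd).mpr hdvd

lemma not_isSquare_exp_neg_one : ¬ IsSquare (WithZero.exp (-1 : ℤ) : ℤᵐ⁰) := by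
  rintro ⟨r, hr⟩
  have hr0 : r ≠ 0 := by
    rintro rfl
    rw [mul_zero] at hr
    exact WithZero.exp_ne_zero hr
  rw [← WithZero.exp_log hr0, ← WithZero.exp_add, WithZero.exp_inj] at hr
  omega

/-- If a squarefree element has even valuation at `P` then it is not in `P`. -/
lemma notMem_of_isSquare {w : O} (hw : Squarefree w) (P : HeightOneSpectrum O)
    (h : IsSquare (P.intValuation w)) : w ∉ P.asIdeal := by
  intro hmem
  have hw0 : w ≠ 0 := hw.ne_zero
  obtain ⟨π, hπ⟩ := (IsPrincipalIdealRing.principal P.asIdeal).principal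
  rw [← Ideal.span] at hπ
  have h1 : P.intValuation w ≤ WithZero.exp (-((1 : ℕ) : ℤ)) := by
    rw [HeightOneSpectrum.intValuation_le_pow_iff_mem, pow_one]
    exact hmem
  have h2 : ¬ P.intValuation w ≤ WithZero.exp (-((2 : ℕ) : ℤ)) := by
    rw [HeightOneSpectrum.intValuation_le_pow_iff_mem, hπ, Ideal.span_singleton_pow,
      Ideal.mem_span_singleton]
    intro h3
    have h4 := hw π (by rw [← pow_two]; exact h3)
    apply P.isPrime.ne_top
    rw [hπ]
    exact Ideal.span_singleton_eq_top.mpr h4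
  have h3 : P.intValuation w = WithZero.exp (-1 : ℤ) := by
    have h4 : P.intValuation w ≠ 0 := P.intValuation_ne_zero w hw0
    rw [← WithZero.exp_log h4] at h1 h2 ⊢
    rw [WithZero.exp_le_exp] at h1 h2
    rw [WithZero.exp_inj]
    push_cast at h1 h2
    omega
  rw [h3] at h
  exact not_isSquare_exp_neg_one h

variable {L : Type*} [Field L] [Algebra O L] [IsFractionRing O L]

/-- Every nonzero element of the fraction field is a squarefree element times a square. -/
lemma exists_sqfree_mul_sq_frac (α : L) (hα : α ≠ 0) :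
    ∃ (w : O) (β : L), Squarefree w ∧ β ≠ 0 ∧ α = algebraMap O L w * β ^ 2 := by
  obtain ⟨r, s, hs, rfl⟩ := IsFractionRing.div_surjective (A := O) α
  have hs0 : s ≠ 0 := nonZeroDivisors.ne_zero hs
  have hr0 : r ≠ 0 := by
    rintro rfl
    rw [map_zero, zero_div] at hα
    exact hα rfl
  obtain ⟨w, β, hw, hβ, h⟩ := exists_sqfree_mul_sq (r * s) (mul_ne_zero hr0 hs0)
  have hs' : algebraMap O L s ≠ 0 := by
    rwa [Ne, IsFractionRing.to_map_eq_zero_iff]
  have hβ' : algebraMap O L β ≠ 0 := by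
    rwa [Ne, IsFractionRing.to_map_eq_zero_iff]
  refine ⟨w, algebraMap O L β / algebraMap O L s, hw, div_ne_zero hβ' hs', ?_⟩
  have h2 := congrArg (algebraMap O L) h
  rw [map_mul, map_mul, map_pow] at h2
  rw [div_pow, mul_div_assoc', ← h2]
  field_simp

/-- An element of `L` with even valuation at all primes outside `T` is a squarefree element with
all its prime factors in `T`, times a square. -/
lemma exists_sqfree_of_isSquare (α : L) (hα : α ≠ 0) (T : Set (HeightOneSpectrum O))
    (h : ∀ P : HeightOneSpectrum O, P ∉ T → IsSquare (P.valuation L α)) :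
    ∃ (w : O) (β : L), Squarefree w ∧ β ≠ 0 ∧ α = algebraMap O L w * β ^ 2 ∧
      ∀ P : HeightOneSpectrum O, P ∉ T → w ∉ P.asIdeal := by
  obtain ⟨w, β, hw, hβ, rfl⟩ := exists_sqfree_mul_sq_frac (O := O) α hα
  refine ⟨w, β, hw, hβ, rfl, fun P hP => notMem_of_isSquare hw P ?_⟩
  have h1 := h P hP
  rw [map_mul, map_pow, HeightOneSpectrum.valuation_of_algebraMap] at h1
  have h2 : P.valuation L β ≠ 0 := by rwa [Ne, map_eq_zero]
  obtain ⟨r, hr⟩ := h1
  refine ⟨r / P.valuation L β, ?_⟩
  rw [div_mul_div_comm, ← hr, ← pow_two, mul_div_assoc, div_self (pow_ne_zero _ h2), mul_one]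

lemma isUnit_of_notMem {w : O} (hw : w ≠ 0) (h : ∀ P : HeightOneSpectrum O, w ∉ P.asIdeal) :
    IsUnit w := by
  by_contra hcon
  obtain ⟨m, hm, hwm⟩ := exists_max_ideal_of_mem_nonunits hcon
  exact h ⟨m, hm.isPrime, fun h0 => hw (by rw [h0] at hwm; exact hwm)⟩ hwm

end

end Pool.Agent.MP1bdb59
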