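import Mathlib
import Pool.Agent.MP1bdb59.Main
import Pool.Agent.MP1bdb59.Pid

/-!
# The descent theorem when `A[x]/(f)` is a principal ideal domain, and the case `f = g(x) - t`
-/

open Polynomial IntermediateField WeierstrassCurve WeierstrassCurve.Affine IsDedekindDomain

noncomputable section

open scoped Classical WithZero

namespace Pool.Agent.MP1bdb59

section Pid

variable (k : Type*) {A K : Type*} [Field k] [CommRing A] [IsDedekindDomain A] [Algebra k A]
  [Field K] [Algebra A K] [IsFractionRing A K] [Algebra k K] [IsScalarTower k A K] {b c d : A}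
  {O : Type*} (L : Type*) [CommRing O] [IsDomain O] [IsPrincipalIdealRing O] [Algebra A O]
  [Module.IsTorsionFree A O]
  [Field L] [Algebra K L] [Algebra A L]
  [IsScalarTower A K L] [Algebra O L] [IsFractionRing O L] [IsScalarTower A O L]

omit [IsDomain O] [IsPrincipalIdealRing O] [Module.IsTorsionFree A O] [IsDedekindDomain A] in
lemma isIntegral_of_isAdjoinRoot [Nontrivial A] (h : IsAdjoinRoot O (cubicPoly b c d)) :
    Algebra.IsIntegral A O := by
  have h1 : Module.Finite A (AdjoinRoot (cubicPoly b c d)) :=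
    (cubicPoly_monic b c d).finite_adjoinRoot
  have h2 : Module.Finite A O := Module.Finite.equiv h.adjoinRootAlgEquiv.toLinearEquiv
  infer_instance

/-- The descent theorem when `O = A[x]/(f)` is a principal ideal domain: if `u` has even valuation
at all primes modulo which `f` has a root and all units of `O` with square norm are squares, then
the Tate-Shafarevich group has no element of order 2. -/
theorem sha_two_torsion_pid (h : IsAdjoinRoot O (cubicPoly b c d)) {u : A} (hu : u ≠ 0)
    (h2 : (2 : K) ≠ 0) (hΔ : (twist K u b c d).Δ ≠ 0)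
    (hin : ∀ p : HeightOneSpectrum A, ¬ IsSquare (p.intValuation u) →
      ∀ a : A, a ^ 3 + b * a ^ 2 + c * a + d ∉ p.asIdeal)
    (hunit : ∀ v : O, IsUnit v → IsSquare (Algebra.norm K (algebraMap O L v)) →
      IsSquare (algebraMap O L v))
    (ξ : FunMod (twist K u b c d) K) (hξ : ξ ∈ Sha k (twist K u b c d)) (hξ2 : ξ + ξ = 0) :
    ξ = 0 := by
  have hint := isIntegral_of_isAdjoinRoot h
  refine sha_two_torsion k L h hu h2 hΔ ∅ (fun p _ => hin p) ?_ ξ hξ hξ2
  intro α hα hnorm hval
  left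
  obtain ⟨w, β, hw, hβ, rfl, hwP⟩ := exists_sqfree_of_isSquare (O := O) α hα ∅ (by
    intro P _
    exact hval (P.under A) (by simp) P ⟨rfl⟩)
  have hunit' : IsUnit w := isUnit_of_notMem hw.ne_zero (fun P => hwP P (by simp))
  refine IsSquare.mul ?_ (IsSquare.sq β)
  apply hunit w hunit'
  rw [map_mul, map_pow] at hnorm
  obtain ⟨r, hr⟩ := hnorm
  have hβ' : Algebra.norm K β ≠ 0 := by
    have i1 := finiteDimensional_of_isAdjoinRoot K L h
    rwa [Ne, Algebra.norm_eq_zero_iff]
  refine ⟨r / Algebra.norm K β, ?_⟩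
  rw [div_mul_div_comm, ← hr]
  field_simp

end Pid

section Pid2

variable (k : Type*) {A : Type*} (K : Type*) [Field k] [CommRing A] [IsDedekindDomain A]
  [Algebra k A] [Field K] [Algebra A K] [IsFractionRing A K] [Algebra k K] [IsScalarTower k A K]
  {b c d : A} {O : Type*} [CommRing O] [IsDomain O] [IsPrincipalIdealRing O] [Algebra A O]
  [Module.IsTorsionFree A O]

theorem sha_two_torsion_pid_aux (L : Type*) [Field L] [Algebra O L] [IsFractionRing O L]
    [Algebra A L] [IsScalarTower A O L] (h : IsAdjoinRoot O (cubicPoly b c d)) {u : A} (hu : u ≠ 0)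
    (h2 : (2 : K) ≠ 0) (hΔ : (twist K u b c d).Δ ≠ 0)
    (hin : ∀ p : HeightOneSpectrum A, ¬ IsSquare (p.intValuation u) →
      ∀ a : A, a ^ 3 + b * a ^ 2 + c * a + d ∉ p.asIdeal)
    (hunit : ∀ v : O, IsUnit v → ∃ r : A, v = algebraMap A O r)
    (ξ : FunMod (twist K u b c d) K) (hξ : ξ ∈ Sha k (twist K u b c d)) (hξ2 : ξ + ξ = 0) :
    ξ = 0 := by
  have hinj : Function.Injective (algebraMap A L) := by
    rw [IsScalarTower.algebraMap_eq A O L]
    exact (IsFractionRing.injective O L).comp (FaithfulSMul.algebraMap_injective A O)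
  let i1 : Algebra K L := (IsFractionRing.lift (K := K) hinj).toAlgebra
  have i2 : IsScalarTower A K L := by
    apply IsScalarTower.of_algebraMap_eq'
    apply RingHom.ext
    intro x
    exact (IsFractionRing.lift_algebraMap hinj x).symm
  refine sha_two_torsion_pid k L h hu h2 hΔ hin ?_ ξ hξ hξ2
  intro v hv hnorm
  obtain ⟨r, rfl⟩ := hunit v hv
  have h3 : algebraMap O L (algebraMap A O r) = algebraMap K L (algebraMap A K r) := by
    rw [← IsScalarTower.algebraMap_apply, ← IsScalarTower.algebraMap_apply]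
  rw [h3] at hnorm ⊢
  rw [Algebra.norm_algebraMap, finrank_of_isAdjoinRoot K L h] at hnorm
  obtain ⟨z, hz⟩ := hnorm
  set y := algebraMap A K r with hy
  by_cases hy0 : y = 0
  · rw [hy0, map_zero]
    exact IsSquare.zero
  · have h5 : IsSquare y := by
      refine ⟨z / y, ?_⟩
      rw [div_mul_div_comm, ← hz]
      field_simp
    exact h5.map _

/-- The descent theorem when `O = A[x]/(f)` is a principal ideal domain all of whose units come
from `A`. -/
theorem sha_two_torsion_pid' (h : IsAdjoinRoot O (cubicPoly b c d)) {u : A} (hu : u ≠ 0)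
    (h2 : (2 : K) ≠ 0) (hΔ : (twist K u b c d).Δ ≠ 0)
    (hin : ∀ p : HeightOneSpectrum A, ¬ IsSquare (p.intValuation u) →
      ∀ a : A, a ^ 3 + b * a ^ 2 + c * a + d ∉ p.asIdeal)
    (hunit : ∀ v : O, IsUnit v → ∃ r : A, v = algebraMap A O r)
    (ξ : FunMod (twist K u b c d) K) (hξ : ξ ∈ Sha k (twist K u b c d)) (hξ2 : ξ + ξ = 0) :
    ξ = 0 :=
  sha_two_torsion_pid_aux k K (FractionRing O) h hu h2 hΔ hin hunit ξ hξ hξ2

end Pid2

section Explicit

variable {k : Type*} [Field k] (a b c : k)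

/-- The cubic `x^3 + a x^2 + b x + (c - t)` over `k[t]`. -/
abbrev fPoly : k[X][X] := cubicPoly (C a) (C b) (C c - X)

omit [Field k] in
lemma cubicPoly_eval₂ {A B : Type*} [CommRing A] [CommRing B] (φ : A →+* B) (b c d : A) (x : B) :
    (cubicPoly b c d).eval₂ φ x = x ^ 3 + φ b * x ^ 2 + φ c * x + φ d := by
  simp [cubicPoly, eval₂_add, eval₂_mul, eval₂_X_pow]

/-- The map `k[t][x]/(g(x) - t) → k[x]`. -/
def toLine : AdjoinRoot (fPoly a b c) →+* k[X] :=
  AdjoinRoot.lift (aeval (cubicPoly a b c)).toRingHom X (by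
    rw [cubicPoly_eval₂]
    simp [cubicPoly])

/-- The map `k[x] → k[t][x]/(g(x) - t)`. -/
def ofLine : k[X] →+* AdjoinRoot (fPoly a b c) :=
  eval₂RingHom ((AdjoinRoot.of (fPoly a b c)).comp C) (AdjoinRoot.root (fPoly a b c))

/-- `k[t][x]/(g(x) - t)` is isomorphic to `k[x]`. -/
def lineEquiv : AdjoinRoot (fPoly a b c) ≃+* k[X] :=
  RingEquiv.ofRingHom (toLine a b c) (ofLine a b c) (by
    apply Polynomial.ringHom_ext
    · intro r
      simp [toLine, ofLine]
    · simp [toLine, ofLine]) (by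
    apply AdjoinRoot.ringHom_ext
    · apply Polynomial.ringHom_ext
      · intro r
        simp [toLine, ofLine]
      · have h1 : (fPoly a b c).eval₂ (AdjoinRoot.of (fPoly a b c)) (AdjoinRoot.root _) = 0 :=
          AdjoinRoot.eval₂_root _
        rw [cubicPoly_eval₂] at h1
        have h2 : toLine a b c (AdjoinRoot.of (fPoly a b c) X) = cubicPoly a b c := by
          rw [toLine, AdjoinRoot.lift_of]
          simp
        change ofLine a b c (toLine a b c (AdjoinRoot.of (fPoly a b c) X)) =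
          AdjoinRoot.of (fPoly a b c) X
        rw [h2, ofLine, coe_eval₂RingHom, cubicPoly_eval₂]
        simp only [RingHom.comp_apply]
        rw [map_sub] at h1
        linear_combination h1
    · simp [toLine, ofLine])

instance isDomain_line : IsDomain (AdjoinRoot (fPoly a b c)) :=
  (lineEquiv a b c).toMulEquiv.isDomain _

instance isPrincipalIdealRing_line : IsPrincipalIdealRing (AdjoinRoot (fPoly a b c)) :=
  IsPrincipalIdealRing.of_surjective (lineEquiv a b c).symm.toRingHom (lineEquiv a b c).symm.surjective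

lemma algebraMap_line_injective :
    Function.Injective (algebraMap k[X] (AdjoinRoot (fPoly a b c))) := by
  apply AdjoinRoot.of.injective_of_degree_ne_zero
  have h1 : (fPoly a b c).degree = 3 := by
    have := cubicPoly_natDegree (C a) (C b) (C c - X : k[X])
    rw [degree_eq_natDegree (cubicPoly_monic _ _ _).ne_zero, this]
    rfl
  rw [h1]
  decide

instance isTorsionFree_line : Module.IsTorsionFree k[X] (AdjoinRoot (fPoly a b c)) := by
  have : FaithfulSMul k[X] (AdjoinRoot (fPoly a b c)) :=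
    (faithfulSMul_iff_algebraMap_injective _ _).mpr (algebraMap_line_injective a b c)
  infer_instance

/-- A unit of `k[t][x]/(g(x) - t)` is a nonzero constant. -/
lemma unit_line {v : AdjoinRoot (fPoly a b c)} (hv : IsUnit v) :
    ∃ r : k, v = algebraMap k[X] (AdjoinRoot (fPoly a b c)) (C r) := by
  have h1 : IsUnit (lineEquiv a b c v) := hv.map _
  obtain ⟨r, -, hr⟩ := Polynomial.isUnit_iff.mp h1
  refine ⟨r, ?_⟩
  apply (lineEquiv a b c).injective
  rw [← hr]
  change C r = toLine a b c (AdjoinRoot.of _ (C r))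
  rw [toLine, AdjoinRoot.lift_of]
  simp

/-- The discriminant of the twisted curve is nonzero. -/
lemma twist_disc_ne_zero (h2 : (2 : k) ≠ 0) (hg : (3 : k) ≠ 0 ∨ a ≠ 0 ∨ b ≠ 0) {u : k[X]}
    (hu : u ≠ 0) : (twist (RatFunc k) u (C a) (C b) (C c - X)).Δ ≠ 0 := by
  have h1 : (twist (RatFunc k) u (C a) (C b) (C c - X)).Δ = algebraMap k[X] (RatFunc k)
      (C 16 * u ^ 6 * (C (-27) * (C c - X) ^ 2 + C (18 * a * b - 4 * a ^ 3) * (C c - X) +
        C (a ^ 2 * b ^ 2 - 4 * b ^ 3))) := by
    simp only [twist, WeierstrassCurve.Δ, WeierstrassCurve.b₂, WeierstrassCurve.b₄,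
      WeierstrassCurve.b₆, WeierstrassCurve.b₈]
    simp only [map_mul, map_pow, map_sub, map_add, map_neg, map_ofNat]
    ring
  rw [h1, Ne, map_eq_zero_iff _ (IsFractionRing.injective k[X] (RatFunc k))]
  have h16 : (16 : k) ≠ 0 := by
    have : (16 : k) = 2 ^ 4 := by norm_num
    rw [this]
    exact pow_ne_zero _ h2
  refine mul_ne_zero (mul_ne_zero (by rwa [Ne, C_eq_zero]) (pow_ne_zero _ hu)) ?_
  intro h0
  -- evaluate the coefficients
  have h3 : (C (-27) * (C c - X) ^ 2 + C (18 * a * b - 4 * a ^ 3) * (C c - X) +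
        C (a ^ 2 * b ^ 2 - 4 * b ^ 3) : k[X]) = C (-27) * X ^ 2 +
      C (54 * c - (18 * a * b - 4 * a ^ 3)) * X + C (-27 * c ^ 2 +
        (18 * a * b - 4 * a ^ 3) * c + (a ^ 2 * b ^ 2 - 4 * b ^ 3)) := by
    simp only [map_sub, map_add, map_mul, map_pow, map_neg, map_ofNat]
    ring
  rw [h3] at h0
  have hc2 := congrArg (fun q => coeff q 2) h0
  have hc1 := congrArg (fun q => coeff q 1) h0
  have hc0 := congrArg (fun q => coeff q 0) h0
  simp only [coeff_add, coeff_C_mul, coeff_X_pow, coeff_X, coeff_C, coeff_zero] at hc2 hc1 hc0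
  norm_num at hc2 hc1 hc0
  have h27 : (27 : k) = 3 ^ 3 := by norm_num
  have h33 : (3 : k) = 0 := by
    rw [h27] at hc2
    exact pow_eq_zero_iff (by norm_num) |>.mp hc2
  have h4 : (4 : k) ≠ 0 := by
    have : (4 : k) = 2 ^ 2 := by norm_num
    rw [this]
    exact pow_ne_zero _ h2
  have ha : a = 0 := by
    have h5 : (4 : k) * a ^ 3 = 0 := by
      linear_combination hc1 - (18 * c - 6 * a * b) * h33
    exact pow_eq_zero_iff (by norm_num) |>.mp ((mul_eq_zero.mp h5).resolve_left h4)
  have hb : b = 0 := by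
    have h5 : (4 : k) * b ^ 3 = 0 := by
      rw [ha] at hc0
      linear_combination -hc0 - 9 * c ^ 2 * h33
    exact pow_eq_zero_iff (by norm_num) |>.mp ((mul_eq_zero.mp h5).resolve_left h4)
  rcases hg with h | h | h
  · exact h h33
  · exact h ha
  · exact h hb

/-- A polynomial of odd valuation at a prime of `k[t]` has odd multiplicity at the corresponding
irreducible polynomial. -/
lemma odd_multiplicity_of_not_isSquare {u : k[X]} (hu : u ≠ 0) (p : HeightOneSpectrum k[X])
    (h : ¬ IsSquare (p.intValuation u)) :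
    ∃ π : k[X], Irreducible π ∧ p.asIdeal = Ideal.span {π} ∧ Odd (multiplicity π u) := by
  obtain ⟨π, hπ⟩ := (IsPrincipalIdealRing.principal p.asIdeal).principal
  rw [← Ideal.span] at hπ
  have hπ0 : π ≠ 0 := by
    rintro rfl
    apply p.ne_bot
    rw [hπ]
    simp
  have hprime : Prime π := by
    have := p.isPrime
    rw [hπ, Ideal.span_singleton_prime hπ0] at this
    exact this
  refine ⟨π, hprime.irreducible, hπ, ?_⟩
  by_contra hodd
  rw [Nat.not_odd_iff_even] at hodd
  apply h
  have hfin : FiniteMultiplicity π u := FiniteMultiplicity.of_prime_left hprime hu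
  have h1 : p.intValuation u ≤ WithZero.exp (-((multiplicity π u : ℕ) : ℤ)) := by
    rw [HeightOneSpectrum.intValuation_le_pow_iff_mem, hπ, Ideal.span_singleton_pow,
      Ideal.mem_span_singleton]
    exact pow_multiplicity_dvd π u
  have h2 : ¬ p.intValuation u ≤ WithZero.exp (-((multiplicity π u + 1 : ℕ) : ℤ)) := by
    rw [HeightOneSpectrum.intValuation_le_pow_iff_mem, hπ, Ideal.span_singleton_pow,
      Ideal.mem_span_singleton]
    exact hfin.not_pow_dvd_of_multiplicity_lt (Nat.lt_succ_self _)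
  have h4 : p.intValuation u ≠ 0 := p.intValuation_ne_zero u hu
  have h3 : p.intValuation u = WithZero.exp (-((multiplicity π u : ℕ) : ℤ)) := by
    rw [← WithZero.exp_log h4] at h1 h2 ⊢
    rw [WithZero.exp_le_exp] at h1 h2
    rw [WithZero.exp_inj]
    push_cast at h1 h2
    omega
  obtain ⟨m, hm⟩ := hodd
  refine ⟨WithZero.exp (-(m : ℤ)), ?_⟩
  rw [h3, hm, ← WithZero.exp_add, WithZero.exp_inj]
  push_cast
  ring

/-- The descent theorem for `u y^2 = g(x) - t` over `k(t)`. -/
theorem sha_two_torsion_line (h2 : (2 : k) ≠ 0) (hg : (3 : k) ≠ 0 ∨ a ≠ 0 ∨ b ≠ 0) {u : k[X]}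
    (hu : u ≠ 0)
    (hin : ∀ π : k[X], Irreducible π → Odd (multiplicity π u) →
      ∀ s : k[X], ¬ π ∣ s ^ 3 + C a * s ^ 2 + C b * s + (C c - X))
    (ξ : FunMod (twist (RatFunc k) u (C a) (C b) (C c - X)) (RatFunc k))
    (hξ : ξ ∈ Sha k (twist (RatFunc k) u (C a) (C b) (C c - X))) (hξ2 : ξ + ξ = 0) :
    ξ = 0 := by
  have h2' : (2 : RatFunc k) ≠ 0 := by
    have : (algebraMap k (RatFunc k)) 2 ≠ 0 := by rwa [Ne, map_eq_zero]
    rwa [map_ofNat] at this
  refine sha_two_torsion_pid' k (RatFunc k) (AdjoinRoot.isAdjoinRoot (fPoly a b c)) hu h2'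
    (twist_disc_ne_zero a b c h2 hg hu) ?_ ?_ ξ hξ hξ2
  · intro p hp s hs
    obtain ⟨π, hπ, hpπ, hodd⟩ := odd_multiplicity_of_not_isSquare hu p hp
    rw [hpπ, Ideal.mem_span_singleton] at hs
    exact hin π hπ hodd s hs
  · intro v hv
    obtain ⟨r, hr⟩ := unit_line a b c hv
    exact ⟨C r, hr⟩

end Explicit

end Pool.Agent.MP1bdb59
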