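import Mathlib
import Pool.Agent.MP1bdb59.Poly

/-!
# Quadratic twists of `y^2 = g(x) - t` by inert polynomials have no 2-torsion in Sha
-/

open Polynomial Pool.Agent.MP1bdb59

noncomputable section

namespace Pool.Agent.Results.MP_1bdb59_nt.InertTwist

universe u

/-- Let `k` be any field of characteristic different from 2, `g = x^3 + a x^2 + b x + c` a cubic
over `k` with nonzero derivative and `w` a nonzero polynomial in `k[t]` such that `g(x) = t` has no
solution modulo `π` for every irreducible `π` dividing `w` to an odd order. Then the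
Tate-Shafarevich group of the elliptic curve `w(t) y^2 = g(x) - t` over `k(t)` has no element of
order 2, so its 2-adic Tate module vanishes. -/
theorem result {k : Type u} [Field k] (h2 : (2 : k) ≠ 0) (a b c : k)
    (hg : (3 : k) ≠ 0 ∨ a ≠ 0 ∨ b ≠ 0) (w : k[X]) (hw : w ≠ 0)
    (hin : ∀ π : k[X], Irreducible π → Odd (multiplicity π w) →
      ∀ s : k[X], ¬ π ∣ s ^ 3 + C a * s ^ 2 + C b * s + (C c - X))
    (W : WeierstrassCurve (RatFunc k))
    (hW : W = ⟨0, algebraMap k[X] (RatFunc k) (w * C a), 0,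
      algebraMap k[X] (RatFunc k) (w ^ 2 * C b),
      algebraMap k[X] (RatFunc k) (w ^ 3 * (C c - X))⟩) :
    W.Δ ≠ 0 ∧ (∀ ξ ∈ Sha k W, (2 : ℕ) • ξ = 0 → ξ = 0) ∧ TateModule 2 (Sha k W) = ⊥ := by
  have hW' : W = twist (RatFunc k) w (C a) (C b) (C c - X) := hW
  subst hW'
  have key : ∀ ξ ∈ Sha k (twist (RatFunc k) w (C a) (C b) (C c - X)),
      (2 : ℕ) • ξ = 0 → ξ = 0 := fun ξ hξ hξ2 =>
    sha_two_torsion_line a b c h2 hg hw hin ξ hξ (by rw [← two_nsmul]; exact hξ2)
  refine ⟨twist_disc_ne_zero a b c h2 hg hw, key, tateModule_eq_bot ?_⟩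
  rintro ⟨ξ, hξ⟩ hξ2
  apply Subtype.ext
  exact key ξ hξ (congrArg Subtype.val hξ2)

end Pool.Agent.Results.MP_1bdb59_nt.InertTwist
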