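import Mathlib
import Pool.Agent.MP1bdb59.Poly

/-!
# The rank one family `(g(s) - t) y^2 = g(x) - t`
-/

open Polynomial IntermediateField WeierstrassCurve WeierstrassCurve.Affine IsDedekindDomain

noncomputable section

open scoped Classical WithZero

namespace Pool.Agent.MP1bdb59

section Norm

variable {K : Type*} [Field K] {W : WeierstrassCurve K} {L : Type*} [Field L]
    [Algebra K L] [FiniteDimensional K L] [Algebra.IsSeparable K L] {θ : L} (hC : CubicData W θ)

include hC

/-- The norm of `x - θ`. -/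
lemma CubicData.norm_sub (x : K) : Algebra.norm K (algebraMap K L x - θ) =
    x ^ 3 + W.a₂ * x ^ 2 + W.a₄ * x + W.a₆ := by
  apply (algebraMap K (Sep K)).injective
  rw [norm_eq_prod_sep]
  obtain ⟨q, h01, h02, h12⟩ := hC.exists_enum
  rw [← Equiv.prod_comp q, Fin.prod_univ_three]
  simp only [map_sub, AlgHom.commutes]
  obtain ⟨e'', ha2, ha4, ha6⟩ := third_root (hC.emb_root (q 0)) (hC.emb_root (q 1)) h01
  have h3 : e'' = q 2 θ := by
    have h := hC.emb_root (q 2)
    simp only [cub] at h
    rw [ha2, ha4, ha6] at h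
    have : (q 2 θ - q 0 θ) * (q 2 θ - q 1 θ) * (q 2 θ - e'') = 0 := by linear_combination h
    rcases mul_eq_zero.mp this with h7 | h7
    · rcases mul_eq_zero.mp h7 with h8 | h8
      · exact absurd (sub_eq_zero.mp h8).symm h02
      · exact absurd (sub_eq_zero.mp h8).symm h12
    · exact (sub_eq_zero.mp h7).symm
  rw [bc_a₂] at ha2
  rw [bc_a₄] at ha4
  rw [bc_a₆] at ha6
  simp only [map_add, map_mul, map_pow]
  rw [ha2, ha4, ha6, h3]
  ring

end Norm

section Sqfree

variable {O : Type*} [CommRing O] [IsDomain O] [IsPrincipalIdealRing O]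

/-- A squarefree element all of whose prime factors divide `u ≠ 0` divides `u`. -/
lemma dvd_of_sqfree {w u : O} (hw : Squarefree w) (hu : u ≠ 0)
    (h : ∀ q : O, Prime q → q ∣ w → q ∣ u) : w ∣ u := by
  let _ : StrongNormalizationMonoid O := UniqueFactorizationMonoid.strongNormalizationMonoid
  rw [UniqueFactorizationMonoid.dvd_iff_normalizedFactors_le_normalizedFactors hw.ne_zero hu,
    Multiset.le_iff_subset ((UniqueFactorizationMonoid.squarefree_iff_nodup_normalizedFactors
      hw.ne_zero).mp hw)]
  intro q hq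
  have hq' := UniqueFactorizationMonoid.prime_of_normalized_factor q hq
  have hqw := UniqueFactorizationMonoid.dvd_of_mem_normalizedFactors hq
  obtain ⟨q', hq'1, hq'2⟩ := UniqueFactorizationMonoid.exists_mem_normalizedFactors_of_dvd hu
    hq'.irreducible (h q hq' hqw)
  have : q = q' := by
    rw [← UniqueFactorizationMonoid.normalize_normalized_factor q hq,
      ← UniqueFactorizationMonoid.normalize_normalized_factor q' hq'1]
    exact normalize_eq_normalize_iff_associated.mpr hq'2
  rw [this]
  exact hq'1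

omit [IsPrincipalIdealRing O] in
/-- The divisors of a product of two prime elements. -/
lemma dvd_prime_mul_prime {p q w : O} (hp : Prime p) (hq : Prime q) (h : w ∣ p * q) :
    ∃ v : O, IsUnit v ∧ (w = v ∨ w = v * p ∨ w = v * q ∨ w = v * (p * q)) := by
  obtain ⟨z, hz⟩ := h
  by_cases hpw : p ∣ w
  · obtain ⟨w', rfl⟩ := hpw
    have h1 : q = w' * z := by
      apply mul_left_cancel₀ hp.ne_zero
      rw [hz]; ring
    rcases hq.irreducible.isUnit_or_isUnit h1 with h2 | h2
    · exact ⟨w', h2, Or.inr (Or.inl (mul_comm _ _))⟩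
    · obtain ⟨z', rfl⟩ := h2
      refine ⟨↑z'⁻¹, z'⁻¹.isUnit, Or.inr (Or.inr (Or.inr ?_))⟩
      rw [h1]
      have : ((z'⁻¹ : Oˣ) : O) * z' = 1 := by simp
      linear_combination (-p * w') * this
  · have hpz : p ∣ z := by
      have : p ∣ w * z := ⟨q, hz.symm⟩
      exact (hp.dvd_or_dvd this).resolve_left hpw
    obtain ⟨z', rfl⟩ := hpz
    have h1 : q = w * z' := by
      apply mul_left_cancel₀ hp.ne_zero
      rw [hz]; ring
    rcases hq.irreducible.isUnit_or_isUnit h1 with h2 | h2
    · exact ⟨w, h2, Or.inl rfl⟩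
    · obtain ⟨z'', rfl⟩ := h2
      refine ⟨↑z''⁻¹, z''⁻¹.isUnit, Or.inr (Or.inr (Or.inl ?_))⟩
      rw [h1]
      have : ((z''⁻¹ : Oˣ) : O) * z'' = 1 := by simp
      linear_combination (-w) * this

end Sqfree

section Main

variable (k : Type*) {A : Type*} (K : Type*) [Field k] [CommRing A] [IsDomain A]
  [IsPrincipalIdealRing A]
  [Algebra k A] [Field K] [Algebra A K] [IsFractionRing A K] [Algebra k K] [IsScalarTower k A K]
  {b c d : A} {O : Type*} [CommRing O] [IsDomain O] [IsPrincipalIdealRing O] [Algebra A O]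
  [Module.IsTorsionFree A O]

omit [Algebra k A] [Field k] [Algebra k K] [IsScalarTower k A K] in
/-- A unit times a prime element is not a square. -/
lemma not_isSquare_unit_mul_prime {r u : A} (hr : IsUnit r) (hu : Prime u) :
    ¬ IsSquare (algebraMap A K (r * u)) := by
  intro h
  let p : HeightOneSpectrum A := ⟨Ideal.span {u}, (Ideal.span_singleton_prime hu.ne_zero).mpr hu,
    by simpa using hu.ne_zero⟩
  have h1 : IsSquare (p.intValuation (r * u)) := by
    rw [← HeightOneSpectrum.valuation_of_algebraMap (K := K)]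
    exact h.map _
  have hsq : Squarefree (r * u) := by
    rw [(associated_unit_mul_left u r hr).squarefree_iff]
    exact hu.irreducible.squarefree
  exact notMem_of_isSquare hsq p h1 (Ideal.mem_span_singleton.mpr (dvd_mul_left _ _))

theorem sha_rank_one_aux (L : Type*) [Field L] [Algebra O L] [IsFractionRing O L]
    [Algebra A L] [IsScalarTower A O L] (h : IsAdjoinRoot O (cubicPoly b c d)) {u s : A}
    (hu : Prime u) (hus : u = s ^ 3 + b * s ^ 2 + c * s + d)
    (h2 : (2 : K) ≠ 0) (hΔ : (twist K u b c d).Δ ≠ 0)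
    (hirr : ∀ q : O, (algebraMap A O s - h.root) * q = algebraMap A O u → Irreducible q)
    (hunit : ∀ v : O, IsUnit v → ∃ r : A, IsUnit r ∧ v = algebraMap A O r)
    (ξ : FunMod (twist K u b c d) K) (hξ : ξ ∈ Sha k (twist K u b c d)) (hξ2 : ξ + ξ = 0) :
    ξ = 0 := by
  have hint := isIntegral_of_isAdjoinRoot h
  have hinj : Function.Injective (algebraMap A L) := by
    rw [IsScalarTower.algebraMap_eq A O L]
    exact (IsFractionRing.injective O L).comp (FaithfulSMul.algebraMap_injective A O)
  let i1 : Algebra K L := (IsFractionRing.lift (K := K) hinj).toAlgebra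
  have i2 : IsScalarTower A K L := by
    apply IsScalarTower.of_algebraMap_eq'
    apply RingHom.ext
    intro x
    exact (IsFractionRing.lift_algebraMap hinj x).symm
  have i3 := finiteDimensional_of_isAdjoinRoot K L h
  have i4 := isSeparable_of_isAdjoinRoot L h u h2 hΔ
  have hC := cubicData_twist (K := K) (L := L) h hu.ne_zero h2 hΔ
  have hu0 := hu.ne_zero
  have huK : algebraMap A K u ≠ 0 := by
    rwa [Ne, IsFractionRing.to_map_eq_zero_iff]
  have huL : algebraMap A L u ≠ 0 := by
    rwa [Ne, map_eq_zero_iff _ hinj]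
  -- the factorisation of `u` in `O`
  set p₁ : O := algebraMap A O s - h.root with hp₁
  obtain ⟨φ, hφ, hker⟩ := exists_quot_map h s
  have hev : (cubicPoly b c d).eval s = u := by rw [cubicPoly_eval, hus]
  have hp₁0 : p₁ ≠ 0 := sub_ne_zero.mpr (root_ne h s)
  have hp₁prime : Prime p₁ := by
    have h3 : (Ideal.span {(cubicPoly b c d).eval s}).IsPrime := by
      rw [hev]
      exact (Ideal.span_singleton_prime hu0).mpr hu
    rw [← Ideal.span_singleton_prime hp₁0, ← hker]
    exact RingHom.ker_isPrime φ
  obtain ⟨q, hq⟩ : p₁ ∣ algebraMap A O u := by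
    rw [← Ideal.mem_span_singleton, ← hker, RingHom.mem_ker, hφ, Ideal.Quotient.eq_zero_iff_mem,
      hev]
    exact Ideal.mem_span_singleton_self u
  have hqprime : Prime q := (hirr q hq.symm).prime
  have huO : algebraMap A O u ≠ 0 := by
    rw [hq]
    exact mul_ne_zero hp₁0 hqprime.ne_zero
  -- norms
  set n := Algebra.norm (S := L) K with hn
  have hcoe : ∀ r : A, algebraMap O L (algebraMap A O r) = algebraMap K L (algebraMap A K r) := by
    intro r
    rw [← IsScalarTower.algebraMap_apply, ← IsScalarTower.algebraMap_apply]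
  have hnA : ∀ r : A, n (algebraMap O L (algebraMap A O r)) = algebraMap A K r ^ 3 := by
    intro r
    rw [hcoe, hn, Algebra.norm_algebraMap, finrank_of_isAdjoinRoot K L h]
  have hnp : n (algebraMap O L p₁) = algebraMap A K u := by
    have h3 := hC.norm_sub (algebraMap A K (u * s))
    have h4 : algebraMap K L (algebraMap A K (u * s)) - algebraMap A L u * algebraMap O L h.root =
        algebraMap O L (algebraMap A O u) * algebraMap O L p₁ := by
      rw [hp₁, map_sub, hcoe, hcoe, IsScalarTower.algebraMap_apply A K L]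
      simp only [map_mul]
      ring
    rw [h4, map_mul, hnA] at h3
    have h5 : algebraMap A K u ^ 3 * n (algebraMap O L p₁) =
        algebraMap A K u ^ 3 * algebraMap A K u := by
      rw [hn, h3]
      have h6 := congrArg (algebraMap A K) hus
      simp only [map_add, map_mul, map_pow] at h6
      simp only [twist, map_mul, map_pow]
      linear_combination (-(algebraMap A K u) ^ 3) * h6
    exact mul_left_cancel₀ (pow_ne_zero _ huK) h5
  have hnq : n (algebraMap O L q) = algebraMap A K u ^ 2 := by
    have h3 := hnA u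
    rw [hq, map_mul, map_mul, hnp] at h3
    exact mul_left_cancel₀ huK (by rw [h3]; ring)
  refine sha_two_torsion k L h hu0 h2 hΔ {p | u ∈ p.asIdeal} ?_ ?_ ξ hξ hξ2
  · intro p hp hsq
    exfalso
    apply hsq
    rw [HeightOneSpectrum.intValuation_eq_one_iff.mpr hp]
    exact IsSquare.one
  · intro α hα hnorm hval
    obtain ⟨w, β, hw, hβ, rfl, hwP⟩ := exists_sqfree_of_isSquare (O := O) α hα
      {P | algebraMap A O u ∈ P.asIdeal} (by
        intro P hP
        exact hval (P.under A) (fun h0 => hP h0) P ⟨rfl⟩)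
    have hwu : w ∣ algebraMap A O u := by
      refine dvd_of_sqfree hw huO ?_
      intro q' hq' hq'w
      by_contra hcon
      refine hwP ⟨Ideal.span {q'}, (Ideal.span_singleton_prime hq'.ne_zero).mpr hq',
        by simpa using hq'.ne_zero⟩ ?_ (Ideal.mem_span_singleton.mpr hq'w)
      intro h0
      exact hcon (Ideal.mem_span_singleton.mp h0)
    rw [hq] at hwu
    obtain ⟨v, hv, hcase⟩ := dvd_prime_mul_prime hp₁prime hqprime hwu
    obtain ⟨r, hr, rfl⟩ := hunit v hv
    have hrK : algebraMap A K r ≠ 0 := by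
      rw [Ne, IsFractionRing.to_map_eq_zero_iff]
      exact hr.ne_zero
    -- the norm of `w` is a square
    have hnw : IsSquare (n (algebraMap O L w)) := by
      have hnorm' : IsSquare (n (algebraMap O L w * β ^ 2)) := hnorm
      rw [map_mul, map_pow] at hnorm'
      obtain ⟨z, hz⟩ := hnorm'
      have hβ' : n β ≠ 0 := by
        rwa [hn, Ne, Algebra.norm_eq_zero_iff]
      refine ⟨z / n β, ?_⟩
      rw [div_mul_div_comm, ← hz]
      field_simp
    -- the constant is a square when it should
    have hcube : ∀ z : K, IsSquare (algebraMap A K r ^ 3 * z ^ 2) → z ≠ 0 →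
        IsSquare (algebraMap A K r) := by
      intro z hz hz0
      obtain ⟨y, hy⟩ := hz
      refine ⟨y / (algebraMap A K r * z), ?_⟩
      rw [div_mul_div_comm, ← hy]
      field_simp
    have hodd : ∀ z : K, z ≠ 0 →
        ¬ IsSquare (algebraMap A K r ^ 3 * algebraMap A K u * z ^ 2) := by
      intro z hz0 hz
      obtain ⟨y, hy⟩ := hz
      apply not_isSquare_unit_mul_prime K hr hu
      refine ⟨y / (algebraMap A K r * z), ?_⟩
      rw [div_mul_div_comm, ← hy, map_mul]
      field_simp
    rcases hcase with h5 | h5 | h5 | h5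
    · left
      rw [h5, hnA] at hnw
      have h6 := hcube 1 (by rwa [one_pow, mul_one]) one_ne_zero
      rw [h5, hcoe]
      exact (h6.map _).mul (IsSquare.sq β)
    · exfalso
      rw [h5, map_mul, map_mul, hnA, hnp] at hnw
      exact hodd 1 one_ne_zero (by rwa [one_pow, mul_one])
    · right
      rw [h5, map_mul, map_mul, hnA, hnq] at hnw
      have h6 := hcube _ hnw huK
      refine ⟨algebraMap A K (u * s), algebraMap A K (u ^ 2), ?_, ?_⟩
      · have h7 := congrArg (algebraMap A K) hus
        simp only [map_add, map_mul, map_pow] at h7 ⊢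
        linear_combination (algebraMap A K u) ^ 3 * h7
      · have h8 : algebraMap K L (algebraMap A K (u * s)) -
            algebraMap A L u * algebraMap O L h.root =
            algebraMap O L p₁ ^ 2 * algebraMap O L q := by
          have h9 := congrArg (algebraMap O L) hq
          rw [map_mul, hcoe] at h9
          rw [IsScalarTower.algebraMap_apply A K L, map_mul, map_mul, h9, hp₁, map_sub, hcoe]
          ring
        rw [h8, h5, map_mul, hcoe]
        have h10 : algebraMap K L (algebraMap A K r) * algebraMap O L q * β ^ 2 *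
            (algebraMap O L p₁ ^ 2 * algebraMap O L q) = algebraMap K L (algebraMap A K r) *
            (algebraMap O L q * β * algebraMap O L p₁) ^ 2 := by ring
        rw [h10]
        exact (h6.map _).mul (IsSquare.sq _)
    · exfalso
      rw [h5, ← hq, map_mul, map_mul, hnA, hnA] at hnw
      refine hodd (algebraMap A K u) huK ?_
      have h6 : algebraMap A K r ^ 3 * algebraMap A K u * algebraMap A K u ^ 2 =
        algebraMap A K r ^ 3 * algebraMap A K u ^ 3 := by ring
      rw [h6]
      exact hnw

/-- The point `(u s, u^2)` is not divisible by 2. -/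
theorem not_double_aux (L : Type*) [Field L] [Algebra O L] [IsFractionRing O L]
    [Algebra A L] [IsScalarTower A O L] (h : IsAdjoinRoot O (cubicPoly b c d)) {u s : A}
    (hu : Prime u) (hus : u = s ^ 3 + b * s ^ 2 + c * s + d)
    (h2 : (2 : K) ≠ 0) (hΔ : (twist K u b c d).Δ ≠ 0)
    (hirr : ∀ q : O, (algebraMap A O s - h.root) * q = algebraMap A O u → Irreducible q)
    (V : WeierstrassCurve K) (hV : V = (twist K u b c d)⁄K)
    (Q : V.toAffine.Point) (hns : V.toAffine.Nonsingular (algebraMap A K (u * s))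
      (algebraMap A K (u ^ 2))) : Q + Q ≠ .some _ _ hns := by
  subst hV
  intro hQP
  have hinj : Function.Injective (algebraMap A L) := by
    rw [IsScalarTower.algebraMap_eq A O L]
    exact (IsFractionRing.injective O L).comp (FaithfulSMul.algebraMap_injective A O)
  let i1 : Algebra K L := (IsFractionRing.lift (K := K) hinj).toAlgebra
  have i2 : IsScalarTower A K L := by
    apply IsScalarTower.of_algebraMap_eq'
    apply RingHom.ext
    intro x
    exact (IsFractionRing.lift_algebraMap hinj x).symm
  have i3 := finiteDimensional_of_isAdjoinRoot K L h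
  have i4 := isSeparable_of_isAdjoinRoot L h u h2 hΔ
  have hC := cubicData_twist (K := K) (L := L) h hu.ne_zero h2 hΔ
  have hu0 := hu.ne_zero
  set p₁ : O := algebraMap A O s - h.root with hp₁
  obtain ⟨φ, hφ, hker⟩ := exists_quot_map h s
  have hev : (cubicPoly b c d).eval s = u := by rw [cubicPoly_eval, hus]
  have hp₁0 : p₁ ≠ 0 := sub_ne_zero.mpr (root_ne h s)
  obtain ⟨q, hq⟩ : p₁ ∣ algebraMap A O u := by
    rw [← Ideal.mem_span_singleton, ← hker, RingHom.mem_ker, hφ, Ideal.Quotient.eq_zero_iff_mem,
      hev]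
    exact Ideal.mem_span_singleton_self u
  have hqprime : Prime q := (hirr q hq.symm).prime
  have hcoe : ∀ r : A, algebraMap O L (algebraMap A O r) = algebraMap K L (algebraMap A K r) := by
    intro r
    rw [← IsScalarTower.algebraMap_apply, ← IsScalarTower.algebraMap_apply]
  have hg := hC.good L
  have h1 := congrArg (Point.map (W' := twist K u b c d) (Algebra.ofId K L)) hQP
  rw [map_add, Point.map_some] at h1
  have h3 := hg.sq_sq hC.root (Point.map (W' := twist K u b c d) (Algebra.ofId K L) Q)
  rw [h1] at h3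
  have h4 : (Algebra.ofId K L) (algebraMap A K (u * s)) ≠
      algebraMap A L u * algebraMap O L h.root := hC.ne_algebraMap _
  simp only [dl] at h3
  rw [if_neg h4] at h3
  have h8 : algebraMap K L (algebraMap A K (u * s)) -
      algebraMap A L u * algebraMap O L h.root =
      algebraMap O L p₁ ^ 2 * algebraMap O L q := by
    have h9 := congrArg (algebraMap O L) hq
    rw [map_mul, hcoe] at h9
    rw [IsScalarTower.algebraMap_apply A K L, map_mul, map_mul, h9, hp₁, map_sub, hcoe]
    ring
  have h10 : IsSquare (algebraMap O L (1 * q)) := by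
    have hp₁L : algebraMap O L p₁ ≠ 0 := by
      rwa [Ne, IsFractionRing.to_map_eq_zero_iff]
    refine ⟨sq (algebraMap A L u * algebraMap O L h.root)
      (Point.map (W' := twist K u b c d) (Algebra.ofId K L) Q) / algebraMap O L p₁, ?_⟩
    rw [div_mul_div_comm, ← pow_two, h3, one_mul, eq_div_iff (mul_ne_zero hp₁L hp₁L)]
    change _ = algebraMap K L (algebraMap A K (u * s)) - algebraMap A L u * algebraMap O L h.root
    rw [h8]
    ring
  exact not_isSquare_unit_mul_prime L isUnit_one hqprime h10

end Main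

section Explicit

variable {k : Type*} [Field k] (a b c : k)

lemma toLine_algebraMap (r : k[X]) : toLine a b c (algebraMap k[X] (AdjoinRoot (fPoly a b c)) r) =
    r.comp (cubicPoly a b c) := by
  change toLine a b c (AdjoinRoot.of _ r) = _
  rw [toLine, AdjoinRoot.lift_of]
  simp [Polynomial.aeval_def, Polynomial.comp]

lemma toLine_root : toLine a b c (AdjoinRoot.isAdjoinRoot (fPoly a b c)).root = X := by
  rw [AdjoinRoot.isAdjoinRoot_root_eq_root, toLine, AdjoinRoot.lift_root]

lemma hirr_line {s : k[X]} (hq : Irreducible ((s.comp (cubicPoly a b c)) ^ 2 +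
      (s.comp (cubicPoly a b c)) * X + X ^ 2 + C a * (s.comp (cubicPoly a b c) + X) + C b))
    (q : AdjoinRoot (fPoly a b c))
    (h : (algebraMap k[X] (AdjoinRoot (fPoly a b c)) s -
      (AdjoinRoot.isAdjoinRoot (fPoly a b c)).root) * q = algebraMap k[X] _
        (s ^ 3 + C a * s ^ 2 + C b * s + (C c - X))) : Irreducible q := by
  have h1 := congrArg (toLine a b c) h
  rw [map_mul, map_sub, toLine_algebraMap, toLine_algebraMap, toLine_root] at h1
  have h2 : (lineEquiv a b c) q = toLine a b c q := rfl
  rw [← MulEquiv.irreducible_iff (lineEquiv a b c), h2]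
  set S := s.comp (cubicPoly a b c) with hS
  have h3 : (s ^ 3 + C a * s ^ 2 + C b * s + (C c - X)).comp (cubicPoly a b c) =
      (S - X) * (S ^ 2 + S * X + X ^ 2 + C a * (S + X) + C b) := by
    simp only [add_comp, mul_comp, pow_comp, sub_comp, X_comp, C_comp, ← hS]
    rw [cubicPoly]
    ring
  rw [h3] at h1
  have h4 : S - X ≠ 0 := by
    intro h0
    have h5 : algebraMap k[X] (AdjoinRoot (fPoly a b c)) s =
        (AdjoinRoot.isAdjoinRoot (fPoly a b c)).root := by
      apply (lineEquiv a b c).injective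
      have h6 : ∀ z, lineEquiv a b c z = toLine a b c z := fun _ => rfl
      rw [h6, h6, toLine_algebraMap, toLine_root]
      exact sub_eq_zero.mp h0
    exact root_ne (AdjoinRoot.isAdjoinRoot (fPoly a b c)) s h5
  rw [mul_left_cancel₀ h4 h1]
  exact hq

/-- The descent theorem for `(g(s) - t) y^2 = g(x) - t` over `k(t)`. -/
theorem sha_rank_one_line (h2 : (2 : k) ≠ 0) (hg : (3 : k) ≠ 0 ∨ a ≠ 0 ∨ b ≠ 0) {s : k[X]}
    (hu : Irreducible (s ^ 3 + C a * s ^ 2 + C b * s + (C c - X)))
    (hq : Irreducible ((s.comp (cubicPoly a b c)) ^ 2 +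
      (s.comp (cubicPoly a b c)) * X + X ^ 2 + C a * (s.comp (cubicPoly a b c) + X) + C b))
    (ξ : FunMod (twist (RatFunc k) (s ^ 3 + C a * s ^ 2 + C b * s + (C c - X)) (C a) (C b)
      (C c - X)) (RatFunc k))
    (hξ : ξ ∈ Sha k (twist (RatFunc k) (s ^ 3 + C a * s ^ 2 + C b * s + (C c - X)) (C a) (C b)
      (C c - X))) (hξ2 : ξ + ξ = 0) :
    ξ = 0 := by
  have h2' : (2 : RatFunc k) ≠ 0 := by
    have : (algebraMap k (RatFunc k)) 2 ≠ 0 := by rwa [Ne, map_eq_zero]
    rwa [map_ofNat] at this
  refine sha_rank_one_aux k (RatFunc k) (FractionRing (AdjoinRoot (fPoly a b c)))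
    (AdjoinRoot.isAdjoinRoot (fPoly a b c)) hu.prime rfl h2'
    (twist_disc_ne_zero a b c h2 hg hu.ne_zero) (hirr_line a b c hq) ?_ ξ hξ hξ2
  intro v hv
  obtain ⟨r, hr⟩ := unit_line a b c hv
  refine ⟨C r, ?_, hr⟩
  rw [Polynomial.isUnit_C, isUnit_iff_ne_zero]
  rintro rfl
  rw [map_zero, map_zero] at hr
  exact hv.ne_zero hr

theorem not_double_line (h2 : (2 : k) ≠ 0) (hg : (3 : k) ≠ 0 ∨ a ≠ 0 ∨ b ≠ 0) {s : k[X]}
    (hu : Irreducible (s ^ 3 + C a * s ^ 2 + C b * s + (C c - X)))
    (hq : Irreducible ((s.comp (cubicPoly a b c)) ^ 2 +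
      (s.comp (cubicPoly a b c)) * X + X ^ 2 + C a * (s.comp (cubicPoly a b c) + X) + C b))
    (V : WeierstrassCurve (RatFunc k)) (hV : V = twist (RatFunc k)
      (s ^ 3 + C a * s ^ 2 + C b * s + (C c - X)) (C a) (C b) (C c - X))
    (Q : V.toAffine.Point) (hns : V.toAffine.Nonsingular
      (algebraMap k[X] (RatFunc k) ((s ^ 3 + C a * s ^ 2 + C b * s + (C c - X)) * s))
      (algebraMap k[X] (RatFunc k) ((s ^ 3 + C a * s ^ 2 + C b * s + (C c - X)) ^ 2))) :
    Q + Q ≠ .some _ _ hns := by
  have h2' : (2 : RatFunc k) ≠ 0 := by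
    have : (algebraMap k (RatFunc k)) 2 ≠ 0 := by rwa [Ne, map_eq_zero]
    rwa [map_ofNat] at this
  exact not_double_aux (RatFunc k) (FractionRing (AdjoinRoot (fPoly a b c)))
    (AdjoinRoot.isAdjoinRoot (fPoly a b c)) hu.prime rfl h2'
    (twist_disc_ne_zero a b c h2 hg hu.ne_zero) (hirr_line a b c hq) V
    (hV.trans (WeierstrassCurve.map_id _).symm) Q hns

end Explicit

end Pool.Agent.MP1bdb59
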